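import Mathlib

/-!
# Finite support iterations of forcing notions adding functions from ω to ω, semantically

This is a variant of `Pool.Agent.Helper669.Iter`: a promise may depend on the initial segment of
the generic function, and at some coordinates (those with `S.cp η`) the number of promises of a
condition is bounded by the length of its stem.
-/

namespace Pool.Agent.H652G

open Cardinal

set_option linter.unusedSectionVars false
set_option linter.unusedVariables false

universe u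

abbrev Om (I : Type u) := I → ℕ → ℕ
abbrev Pr (I : Type u) := List ℕ → ℕ → Set (Om I)

/-- the initial segment of length `n` -/
def pre (z : ℕ → ℕ) (n : ℕ) : List ℕ := (List.range n).map z

@[simp] theorem length_pre (z : ℕ → ℕ) (n : ℕ) : (pre z n).length = n := by simp [pre]

theorem getD_pre (z : ℕ → ℕ) {n i : ℕ} (h : i < n) : (pre z n).getD i 0 = z i := by
  rw [List.getD_eq_getElem _ _ (by simpa using h)]
  simp [pre]

theorem take_pre (z : ℕ → ℕ) {n i : ℕ} (h : i ≤ n) : (pre z n).take i = pre z i := by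
  unfold pre
  rw [← List.map_take, List.take_range, min_eq_left h]

theorem pre_congr {z w : ℕ → ℕ} {n : ℕ} (h : ∀ i < n, z i = w i) : pre z n = pre w n := by
  simp only [pre]
  exact List.map_congr_left fun i hi => h i (List.mem_range.1 hi)

theorem eq_pre {s : List ℕ} {z : ℕ → ℕ} (h : ∀ i < s.length, z i = s.getD i 0) :
    s = pre z s.length := by
  apply List.ext_getElem
  · simp
  · intro i h1 h2
    have := h i h1
    rw [List.getD_eq_getElem _ _ h1] at this
    rw [← this]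
    simp [pre]

theorem pre_of_stem {s : List ℕ} {z : ℕ → ℕ} (h : ∀ i < s.length, z i = s.getD i 0) {n : ℕ}
    (hn : n ≤ s.length) : pre z n = s.take n := by
  conv_rhs => rw [eq_pre h]
  rw [take_pre z hn]

theorem pre_succ (z : ℕ → ℕ) (n : ℕ) : pre z (n + 1) = pre z n ++ [z n] := by
  simp [pre, List.range_succ]

theorem take_prefix {s t : List ℕ} (h : s <+: t) {i : ℕ} (hi : i ≤ s.length) :
    s.take i = t.take i := by
  obtain ⟨u, rfl⟩ := h
  rw [List.take_append_of_le_length hi]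

/-- Finitely supported conditions: at each coordinate a stem and a finite set of promises. -/
@[ext] structure Rep (I : Type u) where
  st : I → List ℕ
  pr : I → Finset (Pr I)
  fin : {η | st η ≠ [] ∨ pr η ≠ ∅}.Finite

variable {I : Type u} [LinearOrder I]

/-- the set of sequences of functions obeying the part of `r` below `ξ` -/
def bs (r : Rep I) (ξ : I) : Set (Om I) :=
  {w | ∀ η < ξ, (∀ i < (r.st η).length, w η i = (r.st η).getD i 0) ∧
    ∀ R ∈ r.pr η, ∀ n, (r.st η).length ≤ n → w ∈ R (pre (w η) n) (w η n)}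

theorem bs_anti (r : Rep I) {η ξ : I} (h : η ≤ ξ) : bs r ξ ⊆ bs r η :=
  fun _ hw ζ hζ => hw ζ (hζ.trans_le h)

theorem getD_prefix {s t : List ℕ} (h : s <+: t) {i : ℕ} (hi : i < s.length) :
    s.getD i 0 = t.getD i 0 := by
  obtain ⟨u, rfl⟩ := h
  rw [List.getD_append _ _ _ _ hi]

def RLe (r' r : Rep I) : Prop :=
  ∀ η, r.st η <+: r'.st η ∧ r.pr η ⊆ r'.pr η ∧ ∀ R ∈ r.pr η, ∀ i, (r.st η).length ≤ i →
    i < (r'.st η).length → bs r' η ⊆ R ((r'.st η).take i) ((r'.st η).getD i 0)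

theorem bs_mono {r r' : Rep I} (h : RLe r' r) (ξ : I) : bs r' ξ ⊆ bs r ξ := by
  intro w hw η hη
  obtain ⟨h1, h2, h3⟩ := h η
  obtain ⟨h4, h5⟩ := hw η hη
  refine ⟨fun i hi => ?_, fun R hR n hn => ?_⟩
  · rw [getD_prefix h1 hi]
    exact h4 i (hi.trans_le h1.length_le)
  · by_cases hn' : n < (r'.st η).length
    · have := h3 R hR n hn hn' (bs_anti r' hη.le hw)
      rwa [h4 n hn', pre_of_stem h4 hn'.le]
    · exact h5 R (h2 hR) n (not_lt.1 hn')

instance : Preorder (Rep I) where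
  le r' r := RLe r' r
  le_refl r η := ⟨List.prefix_refl _, Finset.Subset.refl _, fun _ _ _ h h' => absurd h' (not_lt.2 h)⟩
  le_trans a b c hab hbc η := by
    obtain ⟨h1, h2, h3⟩ := hab η
    obtain ⟨h4, h5, h6⟩ := hbc η
    refine ⟨h4.trans h1, h5.trans h2, fun R hR i hi hi' => ?_⟩
    by_cases hb : i < (b.st η).length
    · rw [← getD_prefix h1 hb, ← take_prefix h1 hb.le]
      exact (bs_mono hab η).trans (h6 R hR i hi hb)
    · exact h3 R (h5 hR) i (not_lt.1 hb) hi'

theorem le_def {r' r : Rep I} : r' ≤ r ↔ ∀ η, r.st η <+: r'.st η ∧ r.pr η ⊆ r'.pr η ∧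
    ∀ R ∈ r.pr η, ∀ i, (r.st η).length ≤ i →
    i < (r'.st η).length → bs r' η ⊆ R ((r'.st η).take i) ((r'.st η).getD i 0) := Iff.rfl

theorem bs_le {r r' : Rep I} (h : r' ≤ r) (ξ : I) : bs r' ξ ⊆ bs r ξ := bs_mono h ξ

/-- the trivial condition -/
def one (I : Type u) : Rep I where
  st _ := []
  pr _ := ∅
  fin := by simp

instance : Nonempty (Rep I) := ⟨one I⟩

theorem le_one (r : Rep I) : r ≤ one I := fun _ =>
  ⟨List.nil_prefix, Finset.empty_subset _, fun R hR => absurd hR (Finset.notMem_empty R)⟩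

open Classical in
/-- `q` below `ξ` and `r` from `ξ` on -/
noncomputable def glue (q r : Rep I) (ξ : I) : Rep I where
  st η := if η < ξ then q.st η else r.st η
  pr η := if η < ξ then q.pr η else r.pr η
  fin := by
    refine (q.fin.union r.fin).subset fun η hη => ?_
    by_cases h : η < ξ
    · left; simpa [h] using hη
    · right; simpa [h] using hη

noncomputable def res (r : Rep I) (ξ : I) : Rep I := glue r (one I) ξ

theorem glue_st_lt {q r : Rep I} {ξ η : I} (h : η < ξ) : (glue q r ξ).st η = q.st η := if_pos h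
theorem glue_st_ge {q r : Rep I} {ξ η : I} (h : ξ ≤ η) : (glue q r ξ).st η = r.st η :=
  if_neg (not_lt.2 h)
theorem glue_pr_lt {q r : Rep I} {ξ η : I} (h : η < ξ) : (glue q r ξ).pr η = q.pr η := if_pos h
theorem glue_pr_ge {q r : Rep I} {ξ η : I} (h : ξ ≤ η) : (glue q r ξ).pr η = r.pr η :=
  if_neg (not_lt.2 h)

theorem res_st_lt {q : Rep I} {ξ η : I} (h : η < ξ) : (res q ξ).st η = q.st η := if_pos h
theorem res_st_ge {q : Rep I} {ξ η : I} (h : ξ ≤ η) : (res q ξ).st η = [] := if_neg (not_lt.2 h)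
theorem res_pr_lt {q : Rep I} {ξ η : I} (h : η < ξ) : (res q ξ).pr η = q.pr η := if_pos h
theorem res_pr_ge {q : Rep I} {ξ η : I} (h : ξ ≤ η) : (res q ξ).pr η = ∅ := if_neg (not_lt.2 h)

theorem bs_congr {r r' : Rep I} {ξ : I} (h : ∀ η < ξ, r.st η = r'.st η ∧ r.pr η = r'.pr η) :
    bs r ξ = bs r' ξ := by
  ext w
  simp only [bs, Set.mem_ofPred_eq]
  constructor <;> intro hw η hη
  · obtain ⟨h1, h2⟩ := h η hη
    rw [← h1, ← h2]; exact hw η hη
  · obtain ⟨h1, h2⟩ := h η hη
    rw [h1, h2]; exact hw η hη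

theorem bs_glue {q r : Rep I} {ξ η : I} (h : η ≤ ξ) : bs (glue q r ξ) η = bs q η :=
  bs_congr fun _ hζ => ⟨glue_st_lt (hζ.trans_le h), glue_pr_lt (hζ.trans_le h)⟩

theorem bs_res {q : Rep I} {ξ η : I} (h : η ≤ ξ) : bs (res q ξ) η = bs q η := bs_glue h

theorem le_res (r : Rep I) (ξ : I) : r ≤ res r ξ := fun η => by
  by_cases h : η < ξ
  · rw [res_st_lt h, res_pr_lt h]
    exact le_refl r η
  · rw [res_st_ge (not_lt.1 h), res_pr_ge (not_lt.1 h)]
    exact ⟨List.nil_prefix, Finset.empty_subset _, fun R hR => absurd hR (Finset.notMem_empty R)⟩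

/-- the condition is trivial from `ξ` on -/
def Below (q : Rep I) (ξ : I) : Prop := ∀ η, ξ ≤ η → q.st η = [] ∧ q.pr η = ∅

theorem below_res (r : Rep I) (ξ : I) : Below (res r ξ) ξ :=
  fun _ h => ⟨res_st_ge h, res_pr_ge h⟩

theorem Below.mono {q : Rep I} {ξ ξ' : I} (h : Below q ξ) (h' : ξ ≤ ξ') : Below q ξ' :=
  fun η hη => h η (h'.trans hη)

theorem bs_below {q : Rep I} {ξ ζ : I} (h : Below q ξ) (h' : ξ ≤ ζ) : bs q ζ = bs q ξ := by
  refine Set.Subset.antisymm (bs_anti q h') fun w hw η hη => ?_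
  by_cases hη' : η < ξ
  · exact hw η hη'
  · obtain ⟨h1, h2⟩ := h η (not_lt.1 hη')
    rw [h1, h2]
    simp

theorem res_eq_self {q : Rep I} {ξ : I} (h : Below q ξ) : res q ξ = q := by
  ext1
  · funext η
    by_cases hη : η < ξ
    · exact res_st_lt hη
    · rw [res_st_ge (not_lt.1 hη), (h η (not_lt.1 hη)).1]
  · funext η
    by_cases hη : η < ξ
    · exact res_pr_lt hη
    · rw [res_pr_ge (not_lt.1 hη), (h η (not_lt.1 hη)).2]

theorem res_mono {r q : Rep I} (h : r ≤ q) (ξ : I) : res r ξ ≤ res q ξ := fun η => by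
  by_cases hη : η < ξ
  · rw [res_st_lt hη, res_pr_lt hη, res_st_lt hη, res_pr_lt hη]
    obtain ⟨h1, h2, h3⟩ := h η
    refine ⟨h1, h2, fun R hR i hi hi' => ?_⟩
    rw [bs_res hη.le]
    exact h3 R hR i hi hi'
  · rw [res_st_ge (not_lt.1 hη), res_pr_ge (not_lt.1 hη), res_st_ge (not_lt.1 hη),
      res_pr_ge (not_lt.1 hη)]
    exact ⟨List.nil_prefix, Finset.empty_subset _, fun R hR => absurd hR (Finset.notMem_empty R)⟩

theorem res_le {r q : Rep I} {ξ : I} (h : r ≤ q) (hq : Below q ξ) : res r ξ ≤ q := by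
  have := res_mono h ξ
  rwa [res_eq_self hq] at this

theorem glue_le {q r : Rep I} {ξ : I} (h : q ≤ res r ξ) : glue q r ξ ≤ r := fun η => by
  by_cases hη : η < ξ
  · rw [glue_st_lt hη, glue_pr_lt hη, bs_glue hη.le]
    have := h η
    rwa [res_st_lt hη, res_pr_lt hη] at this
  · rw [glue_st_ge (not_lt.1 hη), glue_pr_ge (not_lt.1 hη)]
    exact ⟨List.prefix_refl _, Finset.Subset.refl _, fun _ _ _ h h' => absurd h' (not_lt.2 h)⟩

theorem glue_le_left {q r : Rep I} {ξ : I} (h : Below q ξ) : glue q r ξ ≤ q := fun η => by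
  by_cases hη : η < ξ
  · rw [glue_st_lt hη, glue_pr_lt hη]
    exact ⟨List.prefix_refl _, Finset.Subset.refl _, fun _ _ _ h h' => absurd h' (not_lt.2 h)⟩
  · obtain ⟨h1, h2⟩ := h η (not_lt.1 hη)
    rw [h1, h2]
    exact ⟨List.nil_prefix, Finset.empty_subset _, fun R hR => absurd hR (Finset.notMem_empty R)⟩

theorem res_glue (q r : Rep I) (ξ : I) : res (glue q r ξ) ξ = res q ξ := by
  ext1 <;> funext η
  · by_cases hη : η < ξ
    · rw [res_st_lt hη, glue_st_lt hη, res_st_lt hη]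
    · rw [res_st_ge (not_lt.1 hη), res_st_ge (not_lt.1 hη)]
  · by_cases hη : η < ξ
    · rw [res_pr_lt hη, glue_pr_lt hη, res_pr_lt hη]
    · rw [res_pr_ge (not_lt.1 hη), res_pr_ge (not_lt.1 hη)]

theorem res_glue' {q r : Rep I} {ξ : I} (h : Below q ξ) : res (glue q r ξ) ξ = q := by
  rw [res_glue, res_eq_self h]

/-- gluing is monotone when the lower part suffices for the upper part -/
theorem glue_le_glue {r q s c : Rep I} {ξ : I} (h1 : r ≤ q) (h2 : s ≤ c) (h3 : r ≤ res s ξ) :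
    glue r s ξ ≤ glue q c ξ := fun η => by
  by_cases hη : η < ξ
  · rw [glue_st_lt hη, glue_pr_lt hη, glue_st_lt hη, glue_pr_lt hη, bs_glue hη.le]
    exact h1 η
  · rw [glue_st_ge (not_lt.1 hη), glue_pr_ge (not_lt.1 hη), glue_st_ge (not_lt.1 hη),
      glue_pr_ge (not_lt.1 hη)]
    obtain ⟨h4, h5, h6⟩ := h2 η
    exact ⟨h4, h5, fun R hR i hi hi' => (bs_le (glue_le h3) η).trans (h6 R hR i hi hi')⟩

/-- The data of an iteration: the promises allowed at the coordinates, and the coordinates at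
which the number of promises is bounded by the length of the stem. -/
structure Sys (I : Type u) where
  RR : I → Set (Pr I)
  cp : I → Prop

/-- all promises are admissible -/
def Adm (S : Sys I) (r : Rep I) : Prop :=
  ∀ η, (∀ R ∈ r.pr η, R ∈ S.RR η) ∧ (S.cp η → (r.pr η).card ≤ (r.st η).length)

/-- valid conditions below `ξ` -/
def Vd (S : Sys I) (ξ : I) : Set (Rep I) := {r | Adm S r ∧ Below r ξ}

variable {S : Sys I}

theorem adm_glue {q r : Rep I} (hq : Adm S q) (hr : Adm S r) (ξ : I) :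
    Adm S (glue q r ξ) := fun η => by
  by_cases hη : η < ξ
  · rw [glue_pr_lt hη, glue_st_lt hη]; exact hq η
  · rw [glue_pr_ge (not_lt.1 hη), glue_st_ge (not_lt.1 hη)]; exact hr η

omit [LinearOrder I] in
theorem adm_one : Adm S (one I) := fun _ =>
  ⟨fun _ hR => absurd hR (Finset.notMem_empty _), fun _ => by simp [one]⟩

theorem below_one (ξ : I) : Below (one I) ξ := fun _ _ => ⟨rfl, rfl⟩

theorem one_mem (ξ : I) : one I ∈ Vd S ξ := ⟨adm_one, below_one ξ⟩

theorem adm_res {q : Rep I} (hq : Adm S q) (ξ : I) : Adm S (res q ξ) :=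
  adm_glue hq adm_one ξ

theorem res_mem {q : Rep I} (hq : Adm S q) (ξ : I) : res q ξ ∈ Vd S ξ :=
  ⟨adm_res hq ξ, below_res q ξ⟩

theorem Vd_mono {ξ ζ : I} (h : ξ ≤ ζ) : Vd S ξ ⊆ Vd S ζ := fun _ hr => ⟨hr.1, hr.2.mono h⟩

structure Good (S : Sys I) (ξ : I) : Prop where
  opn : ∀ R ∈ S.RR ξ, ∀ t m, ∀ w ∈ R t m, ∃ q ∈ Vd S ξ, w ∈ bs q ξ ∧ bs q ξ ⊆ R t m
  amal : ∀ F : Finset (Pr I), (∀ R ∈ F, R ∈ S.RR ξ) → ∀ t : List ℕ, (S.cp ξ → F.card ≤ t.length) →
    ∀ q ∈ Vd S ξ, ∃ q' ∈ Vd S ξ, q' ≤ q ∧ ∃ m, ∀ R ∈ F, bs q' ξ ⊆ R t m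

/-! ## Compatibility -/

/-- the support -/
def supp (r : Rep I) : Set I := {η | r.st η ≠ [] ∨ r.pr η ≠ ∅}

omit [LinearOrder I] in
theorem notMem_supp {r : Rep I} {η : I} (h : η ∉ supp r) : r.st η = [] ∧ r.pr η = ∅ := by
  simpa [supp] using h

theorem Below.lt_of_mem {r : Rep I} {ξ η : I} (h : Below r ξ) (h' : η ∈ supp r) : η < ξ := by
  by_contra hc
  obtain ⟨h1, h2⟩ := h η (not_lt.1 hc)
  rcases h' with h | h
  · exact h h1
  · exact h h2

variable [WellFoundedLT I]

omit [WellFoundedLT I] in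
theorem exists_list {ξ : I} {w : Om I}
    (ih : ∀ r r' : Rep I, Adm S r → Adm S r' → w ∈ bs r ξ → w ∈ bs r' ξ →
      ∃ q ∈ Vd S ξ, q ≤ res r ξ ∧ q ≤ res r' ξ ∧ w ∈ bs q ξ)
    (T : Set (Rep I)) (hT : T.Finite) : (∀ q ∈ T, q ∈ Vd S ξ ∧ w ∈ bs q ξ) →
    ∃ q ∈ Vd S ξ, w ∈ bs q ξ ∧ ∀ q' ∈ T, q ≤ q' := by
  induction T, hT using Set.Finite.induction_on with
  | empty =>
    intro _
    exact ⟨one I, one_mem ξ, fun η _ => by simp [one], by simp⟩
  | @insert a T _ _ ih' =>
    intro h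
    obtain ⟨q, hq, hw, hle⟩ := ih' fun q hq => h q (Set.mem_insert_of_mem a hq)
    obtain ⟨ha, haw⟩ := h a (Set.mem_insert a T)
    obtain ⟨q', hq', h1, h2, h3⟩ := ih q a hq.1 ha.1 hw haw
    rw [res_eq_self hq.2] at h1
    rw [res_eq_self ha.2] at h2
    refine ⟨q', hq', h3, fun b hb => ?_⟩
    rcases Set.mem_insert_iff.1 hb with rfl | hb
    · exact h2
    · exact h1.trans (hle b hb)

omit [WellFoundedLT I] in
theorem exists_max_lt {T : Set I} (hT : T.Finite) (ξ : I) (h : ∃ η ∈ T, η < ξ) :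
    ∃ η ∈ T, η < ξ ∧ ∀ ζ ∈ T, ζ < ξ → ζ ≤ η := by
  obtain ⟨η, hη, hm⟩ := (hT.subset (Set.inter_subset_left (t := Set.Iio ξ))).exists_maximal
    (by obtain ⟨η, h1, h2⟩ := h; exact ⟨η, h1, h2⟩)
  refine ⟨η, hη.1, hη.2, fun ζ h1 h2 => ?_⟩
  by_contra h3
  exact h3 (hm ⟨h1, h2⟩ (not_le.1 h3).le)

theorem inter_point (hG : ∀ ξ, Good S ξ) (w : Om I) (ξ : I) :
    ∀ r r' : Rep I, Adm S r → Adm S r' → w ∈ bs r ξ → w ∈ bs r' ξ →
      ∃ q ∈ Vd S ξ, q ≤ res r ξ ∧ q ≤ res r' ξ ∧ w ∈ bs q ξ := by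
  classical
  induction ξ using WellFoundedLT.induction with
  | ind ξ IH =>
    intro r r' hr hr' hw hw'
    by_cases hS : ∃ η ∈ supp r ∪ supp r', η < ξ
    swap
    · refine ⟨one I, one_mem ξ, ?_, ?_, fun η _ => by simp [one]⟩
      · have : res r ξ = one I := by
          ext1 <;> funext η
          · by_cases hη : η < ξ
            · rw [res_st_lt hη]
              exact (notMem_supp fun h => hS ⟨η, Or.inl h, hη⟩).1
            · rw [res_st_ge (not_lt.1 hη)]; rfl
          · by_cases hη : η < ξ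
            · rw [res_pr_lt hη]
              exact (notMem_supp fun h => hS ⟨η, Or.inl h, hη⟩).2
            · rw [res_pr_ge (not_lt.1 hη)]; rfl
        rw [this]
      · have : res r' ξ = one I := by
          ext1 <;> funext η
          · by_cases hη : η < ξ
            · rw [res_st_lt hη]
              exact (notMem_supp fun h => hS ⟨η, Or.inr h, hη⟩).1
            · rw [res_st_ge (not_lt.1 hη)]; rfl
          · by_cases hη : η < ξ
            · rw [res_pr_lt hη]
              exact (notMem_supp fun h => hS ⟨η, Or.inr h, hη⟩).2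
            · rw [res_pr_ge (not_lt.1 hη)]; rfl
        rw [this]
    · obtain ⟨η, _, hη, hmax⟩ := exists_max_lt (r.fin.union r'.fin) ξ hS
      set N := max (max (r.st η).length (r'.st η).length) (r.pr η ∪ r'.pr η).card with hN
      have hN1 : (r.st η).length ≤ N := (le_max_left _ _).trans (le_max_left _ _)
      have hN2 : (r'.st η).length ≤ N := (le_max_right _ _).trans (le_max_left _ _)
      have hN3 : (r.pr η ∪ r'.pr η).card ≤ N := le_max_right _ _
      set t : List ℕ := pre (w η) N with ht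
      have htl : t.length = N := by simp [ht]
      have htg : ∀ i < N, t.getD i 0 = w η i := fun i hi => getD_pre _ hi
      have htt : ∀ i < N, t.take i = pre (w η) i := fun i hi => take_pre _ hi.le
      -- the auxiliary conditions
      have key : ∀ (R : Pr I) (i : ℕ), (R ∈ r.pr η ∪ r'.pr η) →
          ∃ q ∈ Vd S η, (w ∈ R (pre (w η) i) (w η i) →
            w ∈ bs q η ∧ bs q η ⊆ R (pre (w η) i) (w η i)) := by
        intro R i hR
        by_cases hwR : w ∈ R (pre (w η) i) (w η i)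
        · have hRR : R ∈ S.RR η := by
            rcases Finset.mem_union.1 hR with h | h
            · exact (hr η).1 R h
            · exact (hr' η).1 R h
          obtain ⟨q, hq, h1, h2⟩ := (hG η).opn R hRR (pre (w η) i) (w η i) w hwR
          exact ⟨q, hq, fun _ => ⟨h1, h2⟩⟩
        · exact ⟨one I, one_mem η, fun h => absurd h hwR⟩
      choose! qf hqf1 hqf2 using key
      set T : Set (Rep I) := {res r η, res r' η} ∪
        (fun x : Pr I × ℕ => qf x.1 x.2) '' {x | x.1 ∈ r.pr η ∪ r'.pr η ∧ x.2 < N ∧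
          w ∈ x.1 (pre (w η) x.2) (w η x.2)} with hTdef
      have hTfin : T.Finite := by
        refine Set.Finite.union (by simp) (Set.Finite.image _ ?_)
        refine (((r.pr η ∪ r'.pr η).finite_toSet).prod (Set.finite_lt_nat N)).subset ?_
        rintro ⟨R, i⟩ ⟨h1, h2, _⟩
        exact ⟨h1, h2⟩
      obtain ⟨q, hq, hwq, hle⟩ := exists_list (S := S) (ξ := η) (w := w)
        (fun a b ha hb h1 h2 => IH η hη a b ha hb h1 h2) T hTfin (by
          rintro a ((rfl | rfl) | ⟨⟨R, i⟩, ⟨h1, h2, h3⟩, rfl⟩)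
          · exact ⟨res_mem hr η, by rw [bs_res le_rfl]; exact bs_anti r hη.le hw⟩
          · exact ⟨res_mem hr' η, by rw [bs_res le_rfl]; exact bs_anti r' hη.le hw'⟩
          · exact ⟨hqf1 R i h1, (hqf2 R i h1 h3).1⟩)
      have hq1 : q ≤ res r η := hle _ (Or.inl (Or.inl rfl))
      have hq2 : q ≤ res r' η := hle _ (Or.inl (Or.inr rfl))
      let z : Rep I :=
        { st := fun ζ => if ζ < η then q.st ζ else if ζ = η then t else []
          pr := fun ζ => if ζ < η then q.pr ζ else if ζ = η then r.pr η ∪ r'.pr η else ∅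
          fin := by
            refine (q.fin.union (Set.finite_singleton η)).subset fun ζ hζ => ?_
            by_cases h1 : ζ < η
            · left; simpa [h1] using hζ
            · by_cases h2 : ζ = η
              · right; exact h2
              · simp [h1, h2] at hζ }
      have hz1 : ∀ {ζ}, ζ < η → z.st ζ = q.st ζ := fun h => if_pos h
      have hz2 : ∀ {ζ}, ζ < η → z.pr ζ = q.pr ζ := fun h => if_pos h
      have hz3 : z.st η = t := by simp [z]
      have hz4 : z.pr η = r.pr η ∪ r'.pr η := by simp [z]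
      have hz5 : ∀ {ζ}, η < ζ → z.st ζ = [] := fun h => by simp [z, h.not_gt, h.ne']
      have hz6 : ∀ {ζ}, η < ζ → z.pr ζ = ∅ := fun h => by simp [z, h.not_gt, h.ne']
      have hbz : bs z η = bs q η := bs_congr fun ζ hζ => ⟨hz1 hζ, hz2 hζ⟩
      have hgen : ∀ a : Rep I, (∀ R ∈ a.pr η, R ∈ r.pr η ∪ r'.pr η) → (a.st η).length ≤ N →
          w ∈ bs a ξ → q ≤ res a η → (∀ ζ, η < ζ → ζ < ξ → ζ ∉ supp a) → z ≤ res a ξ := by
        intro a ha1 ha2 ha3 ha4 ha5 ζ
        rcases lt_trichotomy ζ η with h | rfl | h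
        · rw [res_st_lt (h.trans hη), res_pr_lt (h.trans hη), hz1 h, hz2 h]
          have := ha4 ζ
          rw [res_st_lt h, res_pr_lt h] at this
          rwa [bs_congr (r := z) (r' := q) fun ζ' hζ' => ⟨hz1 (hζ'.trans h), hz2 (hζ'.trans h)⟩]
        · rw [res_st_lt hη, res_pr_lt hη, hz3, hz4, hbz]
          refine ⟨?_, ha1, fun R hR i hi hi' => ?_⟩
          · rw [List.prefix_iff_eq_take]
            apply List.ext_getElem
            · simp [htl, ha2]
            · intro i h1 h2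
              have h3 := (ha3 ζ hη).1 i h1
              rw [List.getD_eq_getElem _ _ h1] at h3
              rw [← h3, List.getElem_take]
              simp [ht, pre]
          · rw [htl] at hi'
            rw [htg i hi', htt i hi']
            have h1 : w ∈ R (pre (w ζ) i) (w ζ i) := (ha3 ζ hη).2 R hR i hi
            have h2 : q ≤ qf R i := hle _ (Or.inr ⟨⟨R, i⟩, ⟨ha1 R hR, hi', h1⟩, rfl⟩)
            exact (bs_le h2 ζ).trans (hqf2 R i (ha1 R hR) h1).2
        · rw [hz5 h, hz6 h]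
          by_cases h' : ζ < ξ
          · obtain ⟨h1, h2⟩ := notMem_supp (ha5 ζ h h')
            rw [res_st_lt h', res_pr_lt h', h1, h2]
            exact ⟨List.prefix_refl _, Finset.Subset.refl _,
              fun R hR => absurd hR (Finset.notMem_empty R)⟩
          · rw [res_st_ge (not_lt.1 h'), res_pr_ge (not_lt.1 h')]
            exact ⟨List.prefix_refl _, Finset.Subset.refl _,
              fun R hR => absurd hR (Finset.notMem_empty R)⟩
      refine ⟨z, ⟨fun ζ => ?_, fun ζ hζ => ⟨hz5 (hη.trans_le hζ), hz6 (hη.trans_le hζ)⟩⟩,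
        ?_, ?_, ?_⟩
      · rcases lt_trichotomy ζ η with h | rfl | h
        · rw [hz2 h, hz1 h]; exact hq.1 ζ
        · rw [hz4, hz3, htl]
          refine ⟨fun R hR => ?_, fun _ => hN3⟩
          rcases Finset.mem_union.1 hR with h | h
          · exact (hr _).1 R h
          · exact (hr' _).1 R h
        · rw [hz6 h, hz5 h]
          exact ⟨fun R hR => absurd hR (Finset.notMem_empty R), fun _ => by simp⟩
      · exact hgen r (fun R hR => Finset.mem_union_left _ hR) hN1 hw hq1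
          fun ζ h1 h2 h3 => absurd (hmax ζ (Or.inl h3) h2) (not_le.2 h1)
      · exact hgen r' (fun R hR => Finset.mem_union_right _ hR) hN2 hw' hq2
          fun ζ h1 h2 h3 => absurd (hmax ζ (Or.inr h3) h2) (not_le.2 h1)
      · intro ζ hζ
        rcases lt_trichotomy ζ η with h | rfl | h
        · rw [hz1 h, hz2 h]; exact hwq ζ h
        · rw [hz3, hz4, htl]
          refine ⟨fun i hi => (htg i hi).symm, fun R hR n hn => ?_⟩
          rcases Finset.mem_union.1 hR with h | h
          · exact (hw ζ hζ).2 R h n (hN1.trans hn)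
          · exact (hw' ζ hζ).2 R h n (hN2.trans hn)
        · rw [hz5 h, hz6 h]; simp

/-! ## Extending stems -/

open Classical in
/-- append `m` to the stem at `η` -/
noncomputable def push (r : Rep I) (η : I) (m : ℕ) : Rep I where
  st := Function.update r.st η (r.st η ++ [m])
  pr := r.pr
  fin := by
    refine (r.fin.union (Set.finite_singleton η)).subset fun ζ hζ => ?_
    by_cases h : ζ = η
    · right; exact h
    · left; simpa [Function.update_of_ne h] using hζ

theorem push_st_self (r : Rep I) (η : I) (m : ℕ) : (push r η m).st η = r.st η ++ [m] := by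
  simp [push]

theorem push_st_ne (r : Rep I) {η ζ : I} (m : ℕ) (h : ζ ≠ η) : (push r η m).st ζ = r.st ζ := by
  simp [push, Function.update_of_ne h]

theorem push_pr (r : Rep I) (η : I) (m : ℕ) : (push r η m).pr = r.pr := rfl

theorem bs_push (r : Rep I) {η ξ : I} (m : ℕ) (h : ξ ≤ η) : bs (push r η m) ξ = bs r ξ :=
  bs_congr fun _ hζ => ⟨push_st_ne r m (hζ.trans_le h).ne, rfl⟩

theorem push_le {r : Rep I} {η : I} {m : ℕ}
    (h : ∀ R ∈ r.pr η, bs r η ⊆ R (r.st η) m) : push r η m ≤ r := fun ζ => by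
  by_cases hζ : ζ = η
  · subst hζ
    rw [push_st_self, push_pr, bs_push r m le_rfl]
    refine ⟨List.prefix_append _ _, Finset.Subset.refl _, fun R hR i hi hi' => ?_⟩
    have : i = (r.st ζ).length := by
      simp at hi'; omega
    subst this
    simpa using h R hR
  · rw [push_st_ne r m hζ, push_pr]
    exact ⟨List.prefix_refl _, Finset.Subset.refl _, fun _ _ _ h h' => absurd h' (not_lt.2 h)⟩

theorem push_mem {r : Rep I} {τ η : I} (hr : r ∈ Vd S τ) (hη : η < τ)
    (m : ℕ) : push r η m ∈ Vd S τ :=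
  ⟨fun ζ => by
    by_cases h : ζ = η
    · subst h
      rw [push_st_self, push_pr]
      refine ⟨(hr.1 ζ).1, fun h => ?_⟩
      have := (hr.1 ζ).2 h
      simp; omega
    · rw [push_st_ne r m h, push_pr]; exact hr.1 ζ,
    fun ζ hζ => ⟨by rw [push_st_ne r m (hη.trans_le hζ).ne']; exact (hr.2 ζ hζ).1,
    (hr.2 ζ hζ).2⟩⟩

theorem glue_mem {q r : Rep I} {τ η : I} (hq : q ∈ Vd S η)
    (hr : r ∈ Vd S τ) (h : η ≤ τ) : glue q r η ∈ Vd S τ :=
  ⟨adm_glue hq.1 hr.1 η, fun ζ hζ => by
    rw [glue_st_ge (h.trans hζ), glue_pr_ge (h.trans hζ)]; exact hr.2 ζ hζ⟩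

/-- one more value at `η`; only the part below `η` changes otherwise -/
theorem exists_longer (hG : ∀ ξ, Good S ξ) {r : Rep I} {τ η : I}
    (hr : r ∈ Vd S τ) (hη : η < τ) :
    ∃ r' ∈ Vd S τ, r' ≤ r ∧ (r'.st η).length = (r.st η).length + 1 ∧ r'.pr η = r.pr η ∧
      ∀ ζ, η < ζ → r'.st ζ = r.st ζ ∧ r'.pr ζ = r.pr ζ := by
  obtain ⟨q, hq, hle, m, hm⟩ := (hG η).amal (r.pr η) (hr.1 η).1 (r.st η) (hr.1 η).2 (res r η)
    (res_mem hr.1 η)
  refine ⟨push (glue q r η) η m, push_mem (glue_mem hq hr hη.le) hη m, ?_, ?_, ?_, ?_⟩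
  · refine le_trans (push_le fun R hR => ?_) (glue_le hle)
    rw [glue_pr_ge le_rfl] at hR
    rw [glue_st_ge le_rfl, bs_glue le_rfl]
    exact hm R hR
  · rw [push_st_self, glue_st_ge le_rfl]
    simp
  · rw [push_pr, glue_pr_ge le_rfl]
  · intro ζ hζ
    rw [push_st_ne _ _ hζ.ne', push_pr, glue_st_ge hζ.le, glue_pr_ge hζ.le]
    exact ⟨rfl, rfl⟩

theorem length_mono {r r' : Rep I} (h : r' ≤ r) (η : I) :
    (r.st η).length ≤ (r'.st η).length := (h η).1.length_le

theorem exists_long (hG : ∀ ξ, Good S ξ) {r : Rep I} {τ η : I}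
    (hr : r ∈ Vd S τ) (hη : η < τ) (N : ℕ) :
    ∃ r' ∈ Vd S τ, r' ≤ r ∧ N ≤ (r'.st η).length ∧ r'.pr η = r.pr η ∧
      ∀ ζ, η < ζ → r'.st ζ = r.st ζ ∧ r'.pr ζ = r.pr ζ := by
  induction N with
  | zero => exact ⟨r, hr, le_rfl, Nat.zero_le _, rfl, fun _ _ => ⟨rfl, rfl⟩⟩
  | succ N ih =>
    obtain ⟨r', h1, h2, h3, h4, h5⟩ := ih
    obtain ⟨r'', h6, h7, h8, h9, h10⟩ := exists_longer hG h1 hη
    exact ⟨r'', h6, h7.trans h2, by omega, h9.trans h4,
      fun ζ hζ => ⟨(h10 ζ hζ).1.trans (h5 ζ hζ).1, (h10 ζ hζ).2.trans (h5 ζ hζ).2⟩⟩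

theorem exists_long_all (hG : ∀ ξ, Good S ξ) {r : Rep I} {τ : I}
    (hr : r ∈ Vd S τ) (N : ℕ) :
    ∃ r' ∈ Vd S τ, r' ≤ r ∧ ∀ η ∈ supp r, N ≤ (r'.st η).length := by
  have key : ∀ T : Set I, T.Finite → (∀ η ∈ T, η < τ) →
      ∃ r' ∈ Vd S τ, r' ≤ r ∧ ∀ η ∈ T, N ≤ (r'.st η).length := by
    intro T hT
    induction T, hT using Set.Finite.induction_on with
    | empty => intro _; exact ⟨r, hr, le_rfl, by simp⟩
    | @insert a T _ _ ih =>
      intro h
      obtain ⟨r', h1, h2, h3⟩ := ih fun η hη => h η (Set.mem_insert_of_mem a hη)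
      obtain ⟨r'', h4, h5, h6, _⟩ := exists_long hG h1 (h a (Set.mem_insert a T)) N
      refine ⟨r'', h4, h5.trans h2, fun η hη => ?_⟩
      rcases Set.mem_insert_iff.1 hη with rfl | hη
      · exact h6
      · exact (h3 η hη).trans (length_mono h5 η)
  exact key (supp r) r.fin fun η hη => hr.2.lt_of_mem hη

omit [WellFoundedLT I] in
theorem supp_mono {r r' : Rep I} (h : r' ≤ r) : supp r ⊆ supp r' := by
  intro η hη
  by_contra h'
  obtain ⟨h1, h2⟩ := notMem_supp h'
  obtain ⟨h3, h4, _⟩ := h η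
  rw [h1, List.prefix_nil] at h3
  rw [h2, Finset.subset_empty] at h4
  rcases hη with h | h
  · exact h h3
  · exact h h4

/-- a decreasing sequence of conditions with growing stems has a common point -/
theorem exists_limit (r : ℕ → Rep I) (hr : ∀ n, r (n + 1) ≤ r n)
    (hgrow : ∀ n, ∀ η ∈ supp (r n), n ≤ ((r (n + 1)).st η).length) :
    ∃ w : Om I, ∀ ξ n, w ∈ bs (r n) ξ := by
  classical
  have hanti : ∀ {m n}, m ≤ n → r n ≤ r m := by
    intro m n h
    induction n, h using Nat.le_induction with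
    | base => exact le_rfl
    | succ n _ ih => exact (hr n).trans ih
  have hgrow' : ∀ n, ∀ η ∈ supp (r n), ∀ N, ∃ m, N < ((r m).st η).length := by
    intro n η hη N
    refine ⟨max n (N + 1) + 1, ?_⟩
    have := hgrow (max n (N + 1)) η (supp_mono (hanti (le_max_left _ _)) hη)
    have h2 : N + 1 ≤ max n (N + 1) := le_max_right _ _
    omega
  let w : Om I := fun η i =>
    if h : ∃ m, i < ((r m).st η).length then ((r h.choose).st η).getD i 0 else 0
  have hw : ∀ η i m, i < ((r m).st η).length → w η i = ((r m).st η).getD i 0 := by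
    intro η i m hm
    have h : ∃ m, i < ((r m).st η).length := ⟨m, hm⟩
    have : w η i = ((r h.choose).st η).getD i 0 := by simp only [w]; rw [dif_pos h]
    rw [this]
    rcases le_total h.choose m with h' | h'
    · exact getD_prefix ((hanti h') η).1 h.choose_spec
    · exact (getD_prefix ((hanti h') η).1 hm).symm
  refine ⟨w, fun ξ => ?_⟩
  induction ξ using WellFoundedLT.induction with
  | ind ξ IH =>
    intro n η hη
    refine ⟨fun i hi => hw η i n hi, fun R hR i hi => ?_⟩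
    have hsupp : η ∈ supp (r n) := by
      right
      intro h
      rw [h] at hR
      exact absurd hR (Finset.notMem_empty R)
    obtain ⟨m, hm⟩ := hgrow' n η hsupp i
    have hm' : i < ((r (max m n)).st η).length :=
      hm.trans_le (length_mono (hanti (le_max_left _ _)) η)
    have h1 := (hanti (le_max_right m n) η).2.2 R hR i hi hm'
    rw [hw η i _ hm', pre_of_stem (fun i hi => hw η i _ hi) hm'.le]
    exact h1 (IH η hη _)

theorem bs_nonempty (hG : ∀ ξ, Good S ξ) {r : Rep I} {τ : I}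
    (hr : r ∈ Vd S τ) : ∃ w : Om I, ∀ ξ, w ∈ bs r ξ := by
  choose! f hf1 hf2 hf3 using fun (r : Rep I) (N : ℕ) (h : r ∈ Vd S τ) =>
    exists_long_all hG h N
  let s : ℕ → Rep I := fun n => Nat.rec r (fun n q => f q n) n
  have hs : ∀ n, s n ∈ Vd S τ := by
    intro n
    induction n with
    | zero => exact hr
    | succ n ih => exact hf1 (s n) n ih
  obtain ⟨w, hw⟩ := exists_limit s (fun n => hf2 (s n) n (hs n)) fun n => hf3 (s n) n (hs n)
  exact ⟨w, fun ξ => hw ξ 0⟩

/-- two conditions are compatible as soon as some point obeys both -/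
theorem compat_of_point (hG : ∀ ξ, Good S ξ) {r r' : Rep I} {τ : I}
    (hr : r ∈ Vd S τ) (hr' : r' ∈ Vd S τ) {w : Om I} (hw : w ∈ bs r τ) (hw' : w ∈ bs r' τ) :
    ∃ q ∈ Vd S τ, q ≤ r ∧ q ≤ r' := by
  obtain ⟨q, h1, h2, h3, _⟩ := inter_point hG w τ r r' hr.1 hr'.1 hw hw'
  rw [res_eq_self hr.2] at h2
  rw [res_eq_self hr'.2] at h3
  exact ⟨q, h1, h2, h3⟩

end Pool.Agent.H652G
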