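import Mathlib
import Pool.Agent.H652G.Iter

/-!
# The poset of a finite support iteration: compatibility and antichains
-/

namespace Pool.Agent.H652G

open Cardinal

set_option linter.unusedSectionVars false
set_option linter.unusedVariables false

universe u

section

variable {I : Type u} [LinearOrder I] [WellFoundedLT I] {S : Sys I}

/-- conditions whose stems are long compared with the number of promises are dense -/
theorem exists_wide (hG : ∀ ξ, Good S ξ) (N : ℕ) (τ : I) : ∀ r ∈ Vd S τ,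
    ∃ r' ∈ Vd S τ, r' ≤ r ∧ ∀ η, S.cp η → N * (r'.pr η).card ≤ (r'.st η).length := by
  induction τ using WellFoundedLT.induction with
  | ind τ IH =>
    intro r hr
    by_cases hS : ∃ η ∈ supp r, η < τ
    swap
    · refine ⟨r, hr, le_rfl, fun η _ => ?_⟩
      have : η ∉ supp r := fun h => hS ⟨η, h, hr.2.lt_of_mem h⟩
      rw [(notMem_supp this).2]; simp
    · obtain ⟨η, hη1, hη, hmax⟩ := exists_max_lt r.fin τ hS
      obtain ⟨r1, h1, h2, h3, h4, h5⟩ := exists_long hG hr hη (N * (r.pr η).card)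
      obtain ⟨q, h6, h7, h8⟩ := IH η hη (res r1 η) (res_mem h1.1 η)
      refine ⟨glue q r1 η, glue_mem h6 h1 hη.le, (glue_le h7).trans h2, fun ζ hζ => ?_⟩
      rcases lt_trichotomy ζ η with h | rfl | h
      · rw [glue_pr_lt h, glue_st_lt h]; exact h8 ζ hζ
      · rw [glue_pr_ge le_rfl, glue_st_ge le_rfl, h4]; exact h3
      · rw [glue_pr_ge h.le, glue_st_ge h.le, (h5 ζ h).2]
        have : ζ ∉ supp r := fun h' => absurd (hmax ζ h' (hr.2.lt_of_mem h')) (not_le.2 h)
        rw [(notMem_supp this).2]; simp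

/-- two wide conditions with matching stems are compatible -/
theorem compat_of_stems {r r' : Rep I} {τ : I} (hr : r ∈ Vd S τ) (hr' : r' ∈ Vd S τ)
    (hw : ∀ η, S.cp η → 2 * (r.pr η).card ≤ (r.st η).length)
    (hw' : ∀ η, S.cp η → 2 * (r'.pr η).card ≤ (r'.st η).length)
    (h : ∀ η ∈ supp r, η ∈ supp r' → r.st η = r'.st η) :
    ∃ q ∈ Vd S τ, q ≤ r ∧ q ≤ r' := by
  classical
  let z : Rep I :=
    { st := fun η => if η ∈ supp r then r.st η else r'.st η
      pr := fun η => r.pr η ∪ r'.pr η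
      fin := by
        refine (r.fin.union r'.fin).subset fun η hη => ?_
        by_contra h'
        rw [Set.mem_union, not_or] at h'
        obtain ⟨h1, h2⟩ := notMem_supp (r := r) h'.1
        obtain ⟨h3, h4⟩ := notMem_supp (r := r') h'.2
        simp [h1, h2, h3, h4] at hη }
  have hzr : ∀ η ∈ supp r, z.st η = r.st η := fun η h => if_pos h
  have hzr' : ∀ η ∈ supp r', z.st η = r'.st η := fun η h2 => by
    by_cases h1 : η ∈ supp r
    · rw [hzr η h1, h η h1 h2]
    · exact if_neg h1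
  refine ⟨z, ⟨fun η => ⟨fun R hR => ?_, fun hc => ?_⟩, fun η hη => ?_⟩, fun η => ?_, fun η => ?_⟩
  · rcases Finset.mem_union.1 hR with h | h
    · exact (hr.1 η).1 R h
    · exact (hr'.1 η).1 R h
  · have h0 := Finset.card_union_le (r.pr η) (r'.pr η)
    have h1 := hw η hc
    have h2 := hw' η hc
    change (r.pr η ∪ r'.pr η).card ≤ _
    by_cases h3 : η ∈ supp r
    · rw [hzr η h3]
      by_cases h4 : η ∈ supp r'
      · rw [← h η h3 h4] at h2; omega
      · rw [(notMem_supp h4).2] at h0 ⊢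
        simp only [Finset.card_empty, Finset.union_empty] at h0 ⊢; omega
    · by_cases h4 : η ∈ supp r'
      · rw [hzr' η h4]
        rw [(notMem_supp h3).2] at h0 ⊢
        simp only [Finset.card_empty, Finset.empty_union] at h0 ⊢; omega
      · rw [(notMem_supp h3).2, (notMem_supp h4).2]; simp
  · obtain ⟨h1, h2⟩ := hr.2 η hη
    obtain ⟨h3, h4⟩ := hr'.2 η hη
    simp [z, h1, h2, h3, h4]
  · by_cases h1 : η ∈ supp r
    · rw [hzr η h1]
      exact ⟨List.prefix_refl _, Finset.subset_union_left,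
        fun _ _ _ h h' => absurd h' (not_lt.2 h)⟩
    · obtain ⟨h2, h3⟩ := notMem_supp h1
      rw [h2, h3]
      exact ⟨List.nil_prefix, Finset.empty_subset _, fun R hR => absurd hR (Finset.notMem_empty R)⟩
  · by_cases h1 : η ∈ supp r'
    · rw [hzr' η h1]
      exact ⟨List.prefix_refl _, Finset.subset_union_right,
        fun _ _ _ h h' => absurd h' (not_lt.2 h)⟩
    · obtain ⟨h2, h3⟩ := notMem_supp h1
      rw [h2, h3]
      exact ⟨List.nil_prefix, Finset.empty_subset _, fun R hR => absurd hR (Finset.notMem_empty R)⟩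

open MeasureTheory ProbabilityTheory in
/-- an uncountable family of finite partial functions from `I` to `ℕ` has two members which
agree on the intersection of their domains (from `Pool.Agent.Helper669.Iter`) -/
theorem exists_agree {I : Type u} {Y : Type u} (S : Y → Set I) (hS : ∀ y, (S y).Finite)
    (c : Y → I → ℕ) (hY : ¬ Countable Y) :
    ∃ y y', y ≠ y' ∧ ∀ η ∈ S y, η ∈ S y' → c y η = c y' η := by
  classical
  by_contra hcon
  push Not at hcon
  apply hY
  let μ : Measure (I → ℕ) := Measure.infinitePi fun _ => poissonMeasure 1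
  let E : Y → Set (I → ℕ) := fun y => Set.pi ((hS y).toFinset : Set I) fun η => {c y η}
  have hE : ∀ y, MeasurableSet (E y) := fun y =>
    MeasurableSet.pi (Finset.countable_toSet _) fun _ _ => measurableSet_singleton _
  have hpos : ∀ y, 0 < μ (E y) := by
    intro y
    have : μ (E y) = ∏ η ∈ (hS y).toFinset, poissonMeasure 1 {c y η} :=
      Measure.infinitePi_pi _ fun _ _ => measurableSet_singleton _
    rw [this, pos_iff_ne_zero, Finset.prod_ne_zero_iff]
    intro η _
    rw [poissonMeasure_singleton]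
    simp only [ne_eq, ENNReal.ofReal_eq_zero, not_le]
    positivity
  have hdisj : Pairwise (Function.onFun Disjoint E) := by
    intro y y' hne
    obtain ⟨η, h1, h2, h3⟩ := hcon y y' hne
    rw [Function.onFun, Set.disjoint_left]
    intro x hx hx'
    have h4 := hx η (by simpa using h1)
    have h5 := hx' η (by simpa using h2)
    simp only [Set.mem_singleton_iff] at h4 h5
    exact h3 (h4.symm.trans h5)
  have := Measure.countable_meas_pos_of_disjoint_iUnion (μ := μ) hE hdisj
  have h2 : {i : Y | 0 < μ (E i)} = Set.univ := Set.eq_univ_of_forall hpos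
  rw [h2] at this
  exact Set.countable_univ_iff.1 this

/-- an uncountable family of valid conditions has two compatible members -/
theorem ccc (hG : ∀ ξ, Good S ξ) {τ : I} {Y : Type u} (f : Y → Rep I)
    (hf : ∀ y, f y ∈ Vd S τ) (hY : ¬ Countable Y) :
    ∃ y y', y ≠ y' ∧ ∃ q ∈ Vd S τ, q ≤ f y ∧ q ≤ f y' := by
  choose g hg1 hg2 hg3 using fun y => exists_wide hG 2 τ (f y) (hf y)
  obtain ⟨y, y', hne, h⟩ := exists_agree (fun y => supp (g y)) (fun y => (g y).fin)
    (fun y η => Encodable.encode ((g y).st η)) hY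
  obtain ⟨q, hq, h1, h2⟩ := compat_of_stems (hg1 y) (hg1 y') (hg3 y) (hg3 y')
    fun η h1 h2 => Encodable.encode_injective (h η h1 h2)
  exact ⟨y, y', hne, q, hq, h1.trans (hg2 y), h2.trans (hg2 y')⟩

end

/-! ### The poset of the iteration of length `J` -/

variable {J : Type u} [LinearOrder J] [WellFoundedLT J]

/-- the conditions of the iteration of length `J` -/
def Cd (S : Sys (WithTop J)) : Type u := {r : Rep (WithTop J) // r ∈ Vd S ⊤}

variable {S : Sys (WithTop J)}

instance : Preorder (Cd S) := inferInstanceAs (Preorder {r : Rep (WithTop J) // r ∈ Vd S ⊤})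

instance : Nonempty (Cd S) := ⟨⟨one _, one_mem _⟩⟩

/-- compatibility -/
def Compat {P : Type u} [Preorder P] (p q : P) : Prop := ∃ s, s ≤ p ∧ s ≤ q

theorem Compat.symm {P : Type u} [Preorder P] {p q : P} (h : Compat p q) : Compat q p := by
  obtain ⟨s, h1, h2⟩ := h; exact ⟨s, h2, h1⟩

theorem Compat.mono {P : Type u} [Preorder P] {p q p' q' : P} (h : Compat p q) (hp : p ≤ p')
    (hq : q ≤ q') : Compat p' q' := by
  obtain ⟨s, h1, h2⟩ := h; exact ⟨s, h1.trans hp, h2.trans hq⟩

/-- the part of `p` below `ξ` -/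
noncomputable def resP (p : Cd S) (ξ : WithTop J) : Cd S :=
  ⟨res p.1 ξ, adm_res p.2.1 ξ, (below_res p.1 ξ).mono le_top⟩

/-- `q` below `ξ` and `p` from `ξ` on -/
noncomputable def glueP (q p : Cd S) (ξ : WithTop J) : Cd S :=
  ⟨glue q.1 p.1 ξ, adm_glue q.2.1 p.2.1 ξ, fun ζ hζ => by
    rw [glue_st_ge (le_top.trans hζ), glue_pr_ge (le_top.trans hζ)]; exact p.2.2 ζ hζ⟩

theorem resP_mem (p : Cd S) (ξ : WithTop J) : (resP p ξ).1 ∈ Vd S ξ := res_mem p.2.1 ξ

theorem le_resP (p : Cd S) (ξ : WithTop J) : p ≤ resP p ξ := le_res p.1 ξ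

theorem resP_le {p q : Cd S} {ξ : WithTop J} (h : p ≤ q) (hq : Below q.1 ξ) : resP p ξ ≤ q :=
  res_le (r := p.1) (q := q.1) h hq

theorem resP_mono {p q : Cd S} (h : p ≤ q) (ξ : WithTop J) : resP p ξ ≤ resP q ξ :=
  res_mono (r := p.1) (q := q.1) h ξ

theorem glueP_le {q p : Cd S} {ξ : WithTop J} (h : q ≤ resP p ξ) : glueP q p ξ ≤ p :=
  glue_le (q := q.1) (r := p.1) h

theorem glueP_le_left {q p : Cd S} {ξ : WithTop J} (h : Below q.1 ξ) : glueP q p ξ ≤ q :=
  glue_le_left (q := q.1) (r := p.1) h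

/-- a condition below `ξ` which is compatible with the part of `p` below `ξ` -/
theorem compat_res {q p : Cd S} {ξ : WithTop J} (hq : Below q.1 ξ) (h : Compat q (resP p ξ)) :
    ∃ s : Cd S, s ≤ q ∧ s ≤ p ∧ ∀ ζ, ξ ≤ ζ → s.1.st ζ = p.1.st ζ ∧ s.1.pr ζ = p.1.pr ζ := by
  obtain ⟨s, h1, h2⟩ := h
  have h3 : resP s ξ ≤ q := resP_le h1 hq
  have h4 : resP s ξ ≤ resP p ξ := resP_le h2 (below_res p.1 ξ)
  exact ⟨glueP (resP s ξ) p ξ, (glueP_le_left (below_res s.1 ξ)).trans h3, glueP_le h4,
    fun ζ hζ => ⟨glue_st_ge hζ, glue_pr_ge hζ⟩⟩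

/-! ### Chain condition and maximal antichains -/

/-- antichains are countable -/
def CCC (P : Type u) [Preorder P] : Prop :=
  ∀ {Y : Type u} (f : Y → P), ¬ Countable Y → ∃ y y', y ≠ y' ∧ Compat (f y) (f y')

theorem cond_ccc (hG : ∀ ξ, Good S ξ) : CCC (Cd S) := by
  intro Y f hY
  obtain ⟨y, y', hne, q, hq, h1, h2⟩ := ccc hG (τ := (⊤ : WithTop J)) (fun y => (f y).1)
    (fun y => (f y).2) hY
  exact ⟨y, y', hne, ⟨q, hq⟩, h1, h2⟩

section

variable {P : Type u} [Preorder P] (hP : CCC P)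
include hP

/-- inside every dense set there is a countable set compatible with everything, and consisting
of pairwise incompatible conditions -/
theorem exists_antichain (D : Set P) (hD : ∀ p, ∃ q ≤ p, q ∈ D) :
    ∃ A ⊆ D, A.Countable ∧ (∀ p, ∃ a ∈ A, Compat a p) ∧
      ∀ a ∈ A, ∀ b ∈ A, Compat a b → a = b := by
  obtain ⟨A, hA⟩ := zorn_subset {A : Set P | A ⊆ D ∧ ∀ a ∈ A, ∀ b ∈ A, Compat a b → a = b}
    (by
      intro c hc hchain
      refine ⟨⋃₀ c, ⟨Set.sUnion_subset fun s hs => (hc hs).1, ?_⟩,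
        fun s hs => Set.subset_sUnion_of_mem hs⟩
      rintro a ⟨s, hs, ha⟩ b ⟨t, ht, hb⟩ hab
      rcases hchain.total hs ht with h | h
      · exact (hc ht).2 a (h ha) b hb hab
      · exact (hc hs).2 a ha b (h hb) hab)
  refine ⟨A, hA.prop.1, ?_, ?_, hA.prop.2⟩
  · by_contra hcount
    have hcount' : ¬ Countable A := hcount
    obtain ⟨y, y', hne, h⟩ := hP (fun a : A => a.1) hcount'
    exact hne (Subtype.ext (hA.prop.2 y.1 y.2 y'.1 y'.2 h))
  · intro p
    by_contra hcon
    push Not at hcon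
    obtain ⟨q, hqp, hqD⟩ := hD p
    have hq : q ∉ A := by
      intro hq
      exact hcon q hq ⟨q, le_rfl, hqp⟩
    have hcon' : ∀ a ∈ A, ¬ Compat a q := by
      rintro a ha ⟨s, h1, h2⟩
      exact hcon a ha ⟨s, h1, h2.trans hqp⟩
    have hmem : insert q A ∈ {A : Set P | A ⊆ D ∧ ∀ a ∈ A, ∀ b ∈ A, Compat a b → a = b} := by
      refine ⟨Set.insert_subset hqD hA.prop.1, ?_⟩
      rintro a (rfl | ha) b (rfl | hb) hab
      · rfl
      · obtain ⟨s, h1, h2⟩ := hab
        exact absurd ⟨s, h2, h1⟩ (hcon' b hb)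
      · exact absurd hab (hcon' a ha)
      · exact hA.prop.2 a ha b hb hab
    exact hq (hA.le_of_ge hmem (Set.subset_insert q A) (Set.mem_insert q A))

/-- some condition is compatible with more than `κ` members of the family, and so are all
stronger conditions -/
theorem exists_heavy {κ : Cardinal.{u}} (hκ : ℵ₀ ≤ κ) {Y : Type u} (hY : κ < #Y) (f : Y → P) :
    ∃ p, ∀ p' ≤ p, κ < #{y | Compat (f y) p'} := by
  by_contra hcon
  push Not at hcon
  obtain ⟨A, hA1, hA2, hA3, _⟩ := exists_antichain hP {p | #{y | Compat (f y) p} ≤ κ} hcon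
  have h1 : (Set.univ : Set Y) ⊆ ⋃ a : A, {y | Compat (f y) a.1} := by
    intro y _
    obtain ⟨a, ha, h⟩ := hA3 (f y)
    exact Set.mem_iUnion.2 ⟨⟨a, ha⟩, h.symm⟩
  have h2 : #Y ≤ κ := by
    rw [← mk_univ]
    refine (mk_le_mk_of_subset h1).trans ((mk_iUnion_le_sum_mk).trans ?_)
    refine (Cardinal.sum_le_sum _ (fun _ => κ) fun a => hA1 a.2).trans ?_
    rw [Cardinal.sum_const']
    have h3 : #A ≤ κ := (Cardinal.le_aleph0_iff_set_countable.2 hA2).trans hκ
    exact (mul_le_mul' h3 le_rfl).trans (mul_eq_self hκ).le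
  exact absurd hY (not_lt.2 h2)

/-- an uncountable family has `N` members with a common lower bound, for all `N` -/
theorem exists_many {Y : Type u} (hY : ¬ Countable Y) (f : Y → P) (N : ℕ) :
    ∃ B : Finset Y, B.card = N ∧ ∃ p, ∀ y ∈ B, p ≤ f y := by
  classical
  obtain ⟨p0, hp0⟩ := exists_heavy hP (κ := ℵ₀) le_rfl (by
    rw [← not_le, mk_le_aleph0_iff]; exact hY) f
  have key : ∀ N : ℕ, ∃ B : Finset Y, B.card = N ∧ ∃ p ≤ p0, ∀ y ∈ B, p ≤ f y := by
    intro N
    induction N with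
    | zero => exact ⟨∅, rfl, p0, le_rfl, by simp⟩
    | succ N ih =>
      obtain ⟨B, hB, p, hp, hpB⟩ := ih
      have h1 := hp0 p hp
      have h2 : ∃ y, y ∉ B ∧ Compat (f y) p := by
        by_contra hcon
        push Not at hcon
        have h3 : {y | Compat (f y) p} ⊆ (B : Set Y) := by
          intro y hy
          by_contra h4
          exact hcon y h4 hy
        have h4 : #{y | Compat (f y) p} ≤ ℵ₀ :=
          Cardinal.le_aleph0_iff_set_countable.2 (B.countable_toSet.mono h3)
        exact absurd h1 (not_lt.2 h4)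
      obtain ⟨y, hy, s, hs1, hs2⟩ := h2
      refine ⟨insert y B, by rw [Finset.card_insert_of_notMem hy, hB], s, hs2.trans hp, ?_⟩
      intro z hz
      rcases Finset.mem_insert.1 hz with rfl | hz
      · exact hs1
      · exact hs2.trans (hpB z hz)
  obtain ⟨B, hB, p, _, hp⟩ := key N
  exact ⟨B, hB, p, hp⟩

end

/-! ### Supports -/

/-- the supports of at most `κ` conditions are bounded -/
theorem exists_below {κ : Cardinal.{u}} (hκ : ℵ₀ ≤ κ)
    (hcof : ∀ T : Set J, #T ≤ κ → ∃ b, ∀ s ∈ T, s < b)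
    {A : Set (Cd S)} (hA : #A ≤ κ) : ∃ b : J, ∀ a ∈ A, Below a.1 (b : WithTop J) := by
  obtain ⟨b, hb⟩ := hcof (⋃ a : A, {j : J | (j : WithTop J) ∈ supp a.1.1}) (by
    refine (mk_iUnion_le_sum_mk).trans ?_
    refine (Cardinal.sum_le_sum _ (fun _ => ℵ₀) fun a => ?_).trans ?_
    · have h1 : Set.Countable {j : J | (j : WithTop J) ∈ supp a.1.1} := by
        refine Set.Countable.preimage_of_injOn (a.1.1.fin.countable) ?_
        intro x _ y _ h
        exact WithTop.coe_injective h
      exact Cardinal.le_aleph0_iff_set_countable.2 h1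
    · rw [Cardinal.sum_const']
      exact (mul_le_mul' hA hκ).trans (mul_eq_self hκ).le)
  refine ⟨b, fun a ha η hη => ?_⟩
  by_contra hcon
  have hs : η ∈ supp a.1 := by
    by_contra h
    exact hcon (notMem_supp h)
  induction η using WithTop.recTopCoe with
  | top => exact hcon (a.2.2 ⊤ le_rfl)
  | coe j =>
    have := hb j (Set.mem_iUnion.2 ⟨⟨a, ha⟩, hs⟩)
    exact absurd (WithTop.coe_le_coe.1 hη) (not_le.2 this)

theorem st_mono {p q : Cd S} (h : p ≤ q) (ξ : WithTop J) {n : ℕ} (hn : n < (q.1.st ξ).length) :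
    n < (p.1.st ξ).length ∧ (p.1.st ξ).getD n 0 = (q.1.st ξ).getD n 0 :=
  ⟨hn.trans_le (h ξ).1.length_le, (getD_prefix (h ξ).1 hn).symm⟩

end Pool.Agent.H652G
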