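import Mathlib
import Pool.Agent.H652G.Base

/-!
# The preservation property, part 1: the setting
-/

namespace Pool.Agent.H652G

open Cardinal

set_option linter.unusedSectionVars false
set_option linter.unusedVariables false

variable {I : Type} [LinearOrder I] [WellFoundedLT I] [OrderTop I] {S : Sys I}

/-! ### General facts about restrictions -/

theorem res_le_res (r : Rep I) {α ξ : I} (h : α ≤ ξ) : res r ξ ≤ res r α := by
  have h1 : res (res r ξ) α = res r α := by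
    ext1 <;> funext η
    · by_cases hη : η < α
      · rw [res_st_lt hη, res_st_lt (hη.trans_le h), res_st_lt hη]
      · rw [res_st_ge (not_lt.1 hη), res_st_ge (not_lt.1 hη)]
    · by_cases hη : η < α
      · rw [res_pr_lt hη, res_pr_lt (hη.trans_le h), res_pr_lt hη]
      · rw [res_pr_ge (not_lt.1 hη), res_pr_ge (not_lt.1 hη)]
  rw [← h1]
  exact le_res _ _

/-- the part of `q` from `ξ` on -/
noncomputable def tl (q : Rep I) (ξ : I) : Rep I := glue (one I) q ξ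

theorem glue_tl (q : Rep I) (ξ : I) : glue (res q ξ) (tl q ξ) ξ = q := by
  ext1 <;> funext η
  · by_cases hη : η < ξ
    · rw [glue_st_lt hη, res_st_lt hη]
    · rw [glue_st_ge (not_lt.1 hη)]; exact glue_st_ge (not_lt.1 hη)
  · by_cases hη : η < ξ
    · rw [glue_pr_lt hη, res_pr_lt hη]
    · rw [glue_pr_ge (not_lt.1 hη)]; exact glue_pr_ge (not_lt.1 hη)

theorem tl_below {q : Rep I} {ξ : I} (h : Below q ξ) : tl q ξ = one I := by
  ext1 <;> funext η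
  · by_cases hη : η < ξ
    · exact glue_st_lt hη
    · exact (glue_st_ge (not_lt.1 hη)).trans (h η (not_lt.1 hη)).1
  · by_cases hη : η < ξ
    · exact glue_pr_lt hη
    · exact (glue_pr_ge (not_lt.1 hη)).trans (h η (not_lt.1 hη)).2

theorem le_tl (q : Rep I) (ξ : I) : q ≤ tl q ξ := fun η => by
  by_cases hη : η < ξ
  · rw [show (tl q ξ).st η = [] from glue_st_lt hη, show (tl q ξ).pr η = ∅ from glue_pr_lt hη]
    exact ⟨List.nil_prefix, Finset.empty_subset _, fun R hR => absurd hR (Finset.notMem_empty R)⟩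
  · rw [show (tl q ξ).st η = q.st η from glue_st_ge (not_lt.1 hη),
      show (tl q ξ).pr η = q.pr η from glue_pr_ge (not_lt.1 hη)]
    exact le_refl q η

theorem tl_mem {q : Rep I} {τ : I} (hq : q ∈ Vd S τ) (ξ : I) : tl q ξ ∈ Vd S τ :=
  ⟨adm_glue adm_one hq.1 ξ, fun ζ hζ => by
    by_cases h : ζ < ξ
    · exact ⟨glue_st_lt h, glue_pr_lt h⟩
    · exact ⟨(glue_st_ge (not_lt.1 h)).trans (hq.2 ζ hζ).1,
        (glue_pr_ge (not_lt.1 h)).trans (hq.2 ζ hζ).2⟩⟩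

theorem res_tl (q : Rep I) (ξ : I) : res (tl q ξ) ξ = one I := by
  unfold tl
  rw [res_glue, res_eq_self (below_one ξ)]

theorem glue_tl_le (q r : Rep I) {ξ : I} (hr : Below r ξ) : glue r (tl q ξ) ξ ≤ tl q ξ :=
  glue_le (by rw [res_tl]; exact le_one r)

theorem glue_tl_eq (q r : Rep I) (ξ : I) : glue r (tl q ξ) ξ = glue r q ξ := by
  ext1 <;> funext η
  · by_cases hη : η < ξ
    · rw [glue_st_lt hη, glue_st_lt hη]
    · rw [glue_st_ge (not_lt.1 hη), glue_st_ge (not_lt.1 hη)]; exact glue_st_ge (not_lt.1 hη)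
  · by_cases hη : η < ξ
    · rw [glue_pr_lt hη, glue_pr_lt hη]
    · rw [glue_pr_ge (not_lt.1 hη), glue_pr_ge (not_lt.1 hη)]; exact glue_pr_ge (not_lt.1 hη)

/-! ### Coordinates of Hechler type -/

/-- at the coordinate `ξ` the promises are bounds for the next value, given by names of functions,
and there are enough of them -/
structure IsH (S : Sys I) (ξ : I) : Prop where
  ncp : ¬ S.cp ξ
  mono : ∀ R ∈ S.RR ξ, ∀ t m m', m ≤ m' → R t m ⊆ R t m'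
  dense : ∀ R ∈ S.RR ξ, ∀ t, ∀ q ∈ Vd S ξ, ∃ q' ∈ Vd S ξ, q' ≤ q ∧ ∃ m, bs q' ξ ⊆ R t m
  rich : ∀ D : List ℕ → ℕ → Rep I → Prop,
    (∀ t n q, D t n q → ∀ q' ∈ Vd S ξ, q' ≤ q → D t n q') →
    (∀ t n q, D t n q → D t (n + 1) q) →
    (∀ t, ∀ q ∈ Vd S ξ, ∃ q' ∈ Vd S ξ, q' ≤ q ∧ ∃ n, D t n q') →
    ∃ R ∈ S.RR ξ, ∀ t n, ∀ q ∈ Vd S ξ, bs q ξ ⊆ R t n → ∃ q' ∈ Vd S ξ, q' ≤ q ∧ D t n q'

theorem IsH.amal {ξ : I} (h : IsH S ξ) (t : List ℕ) (F : Finset (Pr I))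
    (hF : ∀ R ∈ F, R ∈ S.RR ξ) (q : Rep I) (hq : q ∈ Vd S ξ) :
    ∃ q' ∈ Vd S ξ, q' ≤ q ∧ ∃ N, ∀ n ≥ N, ∀ R ∈ F, bs q' ξ ⊆ R t n := by
  classical
  induction F using Finset.induction_on with
  | empty => exact ⟨q, hq, le_rfl, 0, by simp⟩
  | insert R F _ ih =>
    obtain ⟨q1, h1, h2, N1, h3⟩ := ih fun R' hR' => hF R' (Finset.mem_insert_of_mem hR')
    obtain ⟨q2, h4, h5, N2, h6⟩ := h.dense R (hF R (Finset.mem_insert_self R F)) t q1 h1
    refine ⟨q2, h4, h5.trans h2, max N1 N2, fun n hn R' hR' => ?_⟩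
    rcases Finset.mem_insert.1 hR' with rfl | hR'
    · exact h6.trans (h.mono _ (hF _ (Finset.mem_insert_self _ F)) t _ _
        ((le_max_right _ _).trans hn))
    · exact (bs_le h5 ξ).trans (h3 n ((le_max_left _ _).trans hn) R' hR')

/-! ### Conditions with one coordinate -/

open Classical in
/-- the condition with stem `t` and promises `F` at `ξ`, trivial elsewhere -/
noncomputable def tip (ξ : I) (t : List ℕ) (F : Finset (Pr I)) : Rep I where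
  st η := if η = ξ then t else []
  pr η := if η = ξ then F else ∅
  fin := (Set.finite_singleton ξ).subset fun η hη => by
    by_contra h
    simp [show η ≠ ξ from h] at hη

/-- `q` below `ξ`, and the stem `t` and the promises `F` at `ξ` -/
noncomputable def ext (ξ : I) (q : Rep I) (t : List ℕ) (F : Finset (Pr I)) : Rep I :=
  glue q (tip ξ t F) ξ

theorem ext_st_lt {ξ : I} {q : Rep I} {t F} {η : I} (h : η < ξ) : (ext ξ q t F).st η = q.st η :=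
  glue_st_lt h
theorem ext_pr_lt {ξ : I} {q : Rep I} {t F} {η : I} (h : η < ξ) : (ext ξ q t F).pr η = q.pr η :=
  glue_pr_lt h
theorem ext_st_self {ξ : I} {q : Rep I} {t F} : (ext ξ q t F).st ξ = t := by
  unfold ext; rw [glue_st_ge le_rfl]; simp [tip]
theorem ext_pr_self {ξ : I} {q : Rep I} {t F} : (ext ξ q t F).pr ξ = F := by
  unfold ext; rw [glue_pr_ge le_rfl]; simp [tip]
theorem ext_st_gt {ξ : I} {q : Rep I} {t F} {η : I} (h : ξ < η) : (ext ξ q t F).st η = [] := by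
  unfold ext; rw [glue_st_ge h.le]; simp [tip, h.ne']
theorem ext_pr_gt {ξ : I} {q : Rep I} {t F} {η : I} (h : ξ < η) : (ext ξ q t F).pr η = ∅ := by
  unfold ext; rw [glue_pr_ge h.le]; simp [tip, h.ne']

theorem bs_ext {ξ : I} {q : Rep I} {t F} {η : I} (h : η ≤ ξ) : bs (ext ξ q t F) η = bs q η :=
  bs_glue h

theorem res_ext {ξ : I} {q : Rep I} {t F} (h : Below q ξ) : res (ext ξ q t F) ξ = q :=
  res_glue' h

theorem ext_le_ext {ξ : I} {q q0 : Rep I} {t s : List ℕ} {F F0 : Finset (Pr I)} (h : q ≤ q0)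
    (h1 : s <+: t) (h2 : F0 ⊆ F) (h3 : ∀ R ∈ F0, ∀ i, s.length ≤ i → i < t.length →
      bs q ξ ⊆ R (t.take i) (t.getD i 0)) : ext ξ q t F ≤ ext ξ q0 s F0 := fun η => by
  rcases lt_trichotomy η ξ with h4 | rfl | h4
  · rw [ext_st_lt h4, ext_pr_lt h4, ext_st_lt h4, ext_pr_lt h4, bs_ext h4.le]
    exact h η
  · rw [ext_st_self, ext_pr_self, ext_st_self, ext_pr_self, bs_ext le_rfl]
    exact ⟨h1, h2, h3⟩
  · rw [ext_st_gt h4, ext_pr_gt h4, ext_st_gt h4, ext_pr_gt h4]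
    exact ⟨List.prefix_refl _, Finset.Subset.refl _, fun R hR => absurd hR (Finset.notMem_empty R)⟩

theorem le_of_ext_le {ξ : I} {q q0 : Rep I} {t s : List ℕ} {F F0 : Finset (Pr I)}
    (hq : Below q ξ) (hq0 : Below q0 ξ)
    (h : ext ξ q t F ≤ ext ξ q0 s F0) : q ≤ q0 := by
  have := res_mono h ξ
  rwa [res_ext hq, res_ext hq0] at this

/-- the successor `τ` of `ξ` -/
structure IsSc (ξ τ : I) : Prop where
  lt : ξ < τ
  le : ∀ ζ, ξ < ζ → τ ≤ ζ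

theorem ext_mem {ξ τ : I} (hs : IsSc ξ τ) (hc : ¬ S.cp ξ) {q : Rep I} (hq : q ∈ Vd S ξ)
    {t : List ℕ} {F : Finset (Pr I)} (hF : ∀ R ∈ F, R ∈ S.RR ξ) : ext ξ q t F ∈ Vd S τ := by
  refine ⟨fun η => ?_, fun η hη => ?_⟩
  · rcases lt_trichotomy η ξ with h4 | rfl | h4
    · rw [ext_st_lt h4, ext_pr_lt h4]; exact hq.1 η
    · rw [ext_st_self, ext_pr_self]; exact ⟨hF, fun h => absurd h hc⟩
    · rw [ext_st_gt h4, ext_pr_gt h4]
      exact ⟨fun R hR => absurd hR (Finset.notMem_empty R), fun _ => by simp⟩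
  · have h := hs.lt.trans_le hη
    rw [ext_st_gt h, ext_pr_gt h]; exact ⟨rfl, rfl⟩

theorem ext_eq {ξ τ : I} (hs : IsSc ξ τ) {r : Rep I} (hr : r ∈ Vd S τ) :
    ext ξ (res r ξ) (r.st ξ) (r.pr ξ) = r := by
  ext1 <;> funext η
  · rcases lt_trichotomy η ξ with h4 | rfl | h4
    · rw [ext_st_lt h4, res_st_lt h4]
    · rw [ext_st_self]
    · rw [ext_st_gt h4, (hr.2 η (hs.le η h4)).1]
  · rcases lt_trichotomy η ξ with h4 | rfl | h4
    · rw [ext_pr_lt h4, res_pr_lt h4]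
    · rw [ext_pr_self]
    · rw [ext_pr_gt h4, (hr.2 η (hs.le η h4)).2]

theorem prefix_of_le_ext {ξ : I} {r q0 : Rep I} {s F0} (h : r ≤ ext ξ q0 s F0) :
    s <+: r.st ξ := by
  have := (h ξ).1
  rwa [ext_st_self] at this

/-! ### The setting -/

/-- The setting: `Y` indexes reals named by conditions below `α`; `U` is the set of the possible
values of the members of the covers, `kk u` is the number of intervals and `ll u` their size;
`r ∈ In y u` says that `r` forces that the real of index `y` lies in `u`. -/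
structure Ctx (S : Sys I) where
  good : ∀ ξ, Good S ξ
  α : I
  hα : IsH S α
  U : Type
  kk : U → ℕ
  ll : U → ℕ
  fin : ∀ K L, {u | kk u = K ∧ ll u = L}.Finite
  dummy : ∀ K L, ∃ u, kk u = K ∧ ll u = L
  Y : Type
  qy : Y → Rep I
  In : Y → U → Set (Rep I)
  qy_mem : ∀ y, qy y ∈ Vd S α
  In_down : ∀ y u r, r ∈ In y u → ∀ r' ≤ r, r' ∈ In y u
  In_dense : ∀ y u, ∀ r ∈ Vd S ⊤, (∀ r' ∈ Vd S ⊤, r' ≤ r → ∃ r'' ∈ Vd S ⊤, r'' ≤ r' ∧ r'' ∈ In y u) →
    r ∈ In y u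
  In_res : ∀ y u, ∀ r ∈ Vd S ⊤, r ∈ In y u → res r α ∈ In y u
  sep : ∀ B : Finset Y, ∀ q ∈ Vd S α, (∀ y ∈ B, q ≤ qy y) →
    ∃ q' ∈ Vd S α, q' ≤ q ∧ ∃ L, ∀ u, kk u < B.card → L ≤ ll u →
      ¬ ∃ r ∈ Vd S ⊤, r ≤ q' ∧ ∀ y ∈ B, r ∈ In y u

variable (C : Ctx S)

namespace Ctx

variable {C}

theorem In_dense' {y : C.Y} {u : C.U} {ξ : I} {r : Rep I} (hr : r ∈ Vd S ξ)
    (h : ∀ r' ∈ Vd S ξ, r' ≤ r → ∃ r'' ∈ Vd S ξ, r'' ≤ r' ∧ r'' ∈ C.In y u) : r ∈ C.In y u := by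
  refine C.In_dense y u r (Vd_mono le_top hr) fun r' hr' hle => ?_
  obtain ⟨r2, h1, h2, h3⟩ := h (res r' ξ) (res_mem hr'.1 ξ) (res_le hle hr.2)
  exact ⟨glue r2 r' ξ, glue_mem h1 hr' le_top, glue_le h2, C.In_down y u _ h3 _
    (glue_le_left h1.2)⟩

theorem In_res' {y : C.Y} {u : C.U} {ξ τ : I} (hξ : C.α ≤ ξ) {r : Rep I} (hr : r ∈ Vd S τ)
    (h : r ∈ C.In y u) : res r ξ ∈ C.In y u :=
  C.In_down y u _ (C.In_res y u r (Vd_mono le_top hr) h) _ (res_le_res r hξ)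

variable (C)

/-- `r` forces that the value at `k` of the function added at `α` is `l` -/
def dv (k l : ℕ) (r : Rep I) : Prop :=
  ∀ r' ∈ Vd S ⊤, r' ≤ r → k < (r'.st C.α).length → (r'.st C.α).getD k 0 = l

variable {C}

theorem dv_mono {k l : ℕ} {r r' : Rep I} (h : C.dv k l r) (hle : r' ≤ r) : C.dv k l r' :=
  fun s hs hsr => h s hs (hsr.trans hle)

theorem dv_res {k l : ℕ} {r : Rep I} {τ ξ : I} (hr : r ∈ Vd S τ) (h : C.dv k l r)
    (hξ : C.α < ξ) : C.dv k l (res r ξ) := by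
  intro s hs hsr hk
  have h1 : res s ξ ≤ res r ξ := res_le hsr (below_res r ξ)
  have h2 := h (glue (res s ξ) r ξ) (glue_mem (res_mem hs.1 ξ) (Vd_mono le_top hr) le_top)
    (glue_le h1)
  rw [glue_st_lt hξ, res_st_lt hξ] at h2
  exact h2 hk

theorem dv_of_stem {k : ℕ} {r : Rep I} (hk : k < (r.st C.α).length) :
    C.dv k ((r.st C.α).getD k 0) r :=
  fun s _ hsr _ => (getD_prefix (hsr C.α).1 hk).symm

variable (C)

/-- families of open sets of conditions deciding (possibly several) values for the members of the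
cover -/
structure Fam (ξ : I) (A : ℕ → C.U → Set (Rep I)) : Prop where
  sub : ∀ j u, A j u ⊆ Vd S ξ
  down : ∀ j u, ∀ r ∈ A j u, ∀ r' ∈ Vd S ξ, r' ≤ r → r' ∈ A j u
  dense : ∀ j, ∀ q ∈ Vd S ξ, ∃ r ∈ Vd S ξ, r ≤ q ∧ ∃ u, r ∈ A j u
  le : ∀ j u, ∀ r ∈ A j u, j ≤ C.kk u
  dv : ∀ j u, ∀ r ∈ A j u, C.dv (C.kk u) (C.ll u) r

/-- the set of the indices captured by the family -/
def Cap (ξ : I) (A : ℕ → C.U → Set (Rep I)) : Set C.Y :=
  {y | ∃ m, ∃ q ∈ Vd S ξ, q ≤ C.qy y ∧ ∀ j ≥ m, ∀ u, ∀ r ∈ A j u, r ≤ q → r ∈ C.In y u}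

variable {C}

/-! ### Fixing the part of the conditions from `ξ` on -/

variable (C)

/-- the family given by fixing a tail `c` -/
def Tl (ξ : I) (c : Rep I) (A : ℕ → C.U → Set (Rep I)) (j : ℕ) (u : C.U) : Set (Rep I) :=
  {q | q ∈ Vd S ξ ∧ ∃ r ∈ A j u, r ≤ c ∧ q ≤ res r ξ}

variable {C}

theorem fam_Tl {A : ℕ → C.U → Set (Rep I)} {ξ τ : I} (hA : C.Fam τ A) (hξ : C.α < ξ) (hτ : ξ ≤ τ)
    {q : Rep I} (hq : q ∈ Vd S τ) : C.Fam ξ (C.Tl ξ (tl q ξ) A) where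
  sub j u r hr := hr.1
  down j u r hr r' hr' hle := by
    obtain ⟨_, s, h1, h2, h3⟩ := hr
    exact ⟨hr', s, h1, h2, hle.trans h3⟩
  dense j p hp := by
    obtain ⟨r, h1, h2, u, h3⟩ := hA.dense j (glue p (tl q ξ) ξ)
      (glue_mem hp (tl_mem hq ξ) hτ)
    refine ⟨res r ξ, res_mem h1.1 ξ, ?_, u, res_mem h1.1 ξ, r, h3, h2.trans ?_, le_rfl⟩
    · exact res_le (h2.trans (glue_le_left hp.2)) hp.2
    · exact glue_tl_le q p hp.2
  le j u r hr := by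
    obtain ⟨_, s, h1, _⟩ := hr
    exact hA.le j u s h1
  dv j u r hr := by
    obtain ⟨_, s, h1, h2, h3⟩ := hr
    exact dv_mono (dv_res (hA.sub j u h1) (hA.dv j u s h1) hξ) h3

theorem cap_Tl {A : ℕ → C.U → Set (Rep I)} {ξ τ : I} (hA : C.Fam τ A) (hξ : C.α < ξ) (hτ : ξ ≤ τ)
    {y : C.Y} {m : ℕ} {q : Rep I} (hq : q ∈ Vd S τ) (hqy : q ≤ C.qy y)
    (h : ∀ j ≥ m, ∀ u, ∀ r ∈ A j u, r ≤ q → r ∈ C.In y u) : y ∈ C.Cap ξ (C.Tl ξ (tl q ξ) A) := by
  refine ⟨m, res q ξ, res_mem hq.1 ξ, res_le hqy ((C.qy_mem y).2.mono hξ.le), ?_⟩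
  rintro j hj u r ⟨hr, s, h1, h2, h3⟩ hrq
  have hsτ : s ∈ Vd S τ := hA.sub j u h1
  have h4 : glue r s ξ ≤ s := glue_le h3
  have h5 : glue r s ξ ∈ Vd S τ := glue_mem hr hsτ hτ
  have h6 : glue r s ξ ≤ q := by
    have := glue_le_glue (r := r) (q := res q ξ) (s := s) (c := tl q ξ) (ξ := ξ) hrq h2 h3
    rwa [glue_tl] at this
  have h7 := h j hj u _ (hA.down j u s h1 _ h5 h4) h6
  have h8 := In_res' hξ.le h5 h7
  rwa [res_glue' hr.2] at h8

end Ctx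

end Pool.Agent.H652G
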