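import Mathlib
import Pool.Agent.H652G.Fam

/-!
# The preservation property, part 2: values favoured by a stem
-/

namespace Pool.Agent.H652G

open Cardinal

set_option linter.unusedSectionVars false
set_option linter.unusedVariables false

variable {I : Type} [LinearOrder I] [WellFoundedLT I] [OrderTop I] {S : Sys I}

namespace Ctx

variable (C : Ctx S)

/-- `q` forces that the stem `t` at `ξ` favours the value `u` for the `j`-th member -/
def Fv (ξ : I) (A : ℕ → C.U → Set (Rep I)) (q : Rep I) (t : List ℕ) (j : ℕ) (u : C.U) : Prop :=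
  q ∈ Vd S ξ ∧ ∀ q' ∈ Vd S ξ, q' ≤ q → ∀ F : Finset (Pr I), (∀ R ∈ F, R ∈ S.RR ξ) →
    ∃ r ∈ A j u, r ≤ ext ξ q' t F

/-- `q` forces that `t` favours no value -/
def Nf (ξ : I) (A : ℕ → C.U → Set (Rep I)) (q : Rep I) (t : List ℕ) (j : ℕ) : Prop :=
  q ∈ Vd S ξ ∧ ∀ q' ∈ Vd S ξ, q' ≤ q → ∀ u, ¬ C.Fv ξ A q' t j u

/-- moreover infinitely many one-point extensions of `t` favour some value -/
def Ps (ξ : I) (A : ℕ → C.U → Set (Rep I)) (q : Rep I) (t : List ℕ) (j : ℕ) : Prop :=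
  C.Nf ξ A q t j ∧ ∀ q' ∈ Vd S ξ, q' ≤ q → ∀ N, ∃ q'' ∈ Vd S ξ, q'' ≤ q' ∧ ∃ n ≥ N, ∃ u,
    C.Fv ξ A q'' (t ++ [n]) j u

variable {C} {ξ τ : I} {A : ℕ → C.U → Set (Rep I)}

theorem Fv.mono {q q' : Rep I} {t j u} (h : C.Fv ξ A q t j u) (hq' : q' ∈ Vd S ξ) (hle : q' ≤ q) :
    C.Fv ξ A q' t j u := ⟨hq', fun s hs hsq => h.2 s hs (hsq.trans hle)⟩

theorem Nf.mono {q q' : Rep I} {t j} (h : C.Nf ξ A q t j) (hq' : q' ∈ Vd S ξ) (hle : q' ≤ q) :
    C.Nf ξ A q' t j := ⟨hq', fun s hs hsq => h.2 s hs (hsq.trans hle)⟩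

theorem Ps.mono {q q' : Rep I} {t j} (h : C.Ps ξ A q t j) (hq' : q' ∈ Vd S ξ) (hle : q' ≤ q) :
    C.Ps ξ A q' t j := ⟨h.1.mono hq' hle, fun s hs hsq => h.2 s hs (hsq.trans hle)⟩

theorem exists_Fv_or_Nf {q : Rep I} (hq : q ∈ Vd S ξ) (t : List ℕ) (j : ℕ) :
    (∃ q' ∈ Vd S ξ, q' ≤ q ∧ ∃ u, C.Fv ξ A q' t j u) ∨ C.Nf ξ A q t j := by
  by_cases h : ∃ q' ∈ Vd S ξ, q' ≤ q ∧ ∃ u, C.Fv ξ A q' t j u
  · exact Or.inl h
  · push Not at h
    exact Or.inr ⟨hq, h⟩

/-- the pigeonhole principle for favoured values -/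
theorem pigeon (hH : IsH S ξ) {q : Rep I} (hq : q ∈ Vd S ξ) {t : List ℕ} {j : ℕ}
    {V : Set C.U} (hV : V.Finite)
    (h : ∀ q' ∈ Vd S ξ, q' ≤ q → ∀ M, ∃ q'' ∈ Vd S ξ, q'' ≤ q' ∧ ∃ n ≥ M, ∃ u ∈ V,
      C.Fv ξ A q'' (t ++ [n]) j u) :
    ∃ q' ∈ Vd S ξ, q' ≤ q ∧ ∃ u, C.Fv ξ A q' t j u := by
  classical
  by_contra hcon
  push Not at hcon
  have h1 : ∀ u, ∀ q1 ∈ Vd S ξ, q1 ≤ q → ∃ q2 ∈ Vd S ξ, q2 ≤ q1 ∧ ∃ M, ∀ q3 ∈ Vd S ξ, q3 ≤ q2 →
      ∀ n ≥ M, ¬ C.Fv ξ A q3 (t ++ [n]) j u := by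
    intro u q1 hq1 hq1q
    by_contra hc
    push Not at hc
    refine hcon q1 hq1 hq1q u ⟨hq1, fun q' hq' hle F hF => ?_⟩
    obtain ⟨q4, h4, h5, N, h6⟩ := hH.amal t F hF q' hq'
    obtain ⟨q5, h7, h8, n, hn, h9⟩ := hc q4 h4 (h5.trans hle) N
    obtain ⟨r, h10, h11⟩ := h9.2 q5 h7 le_rfl F hF
    refine ⟨r, h10, h11.trans (ext_le_ext (h8.trans h5) (List.prefix_append _ _)
      (Finset.Subset.refl _) fun R hR i hi hi' => ?_)⟩
    have : i = t.length := by simp at hi'; omega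
    subst this
    simpa using (bs_le h8 ξ).trans (h6 n hn R hR)
  have h2 : ∃ q2 ∈ Vd S ξ, q2 ≤ q ∧ ∃ M, ∀ u ∈ V, ∀ q3 ∈ Vd S ξ, q3 ≤ q2 →
      ∀ n ≥ M, ¬ C.Fv ξ A q3 (t ++ [n]) j u := by
    induction V, hV using Set.Finite.induction_on with
    | empty => exact ⟨q, hq, le_rfl, 0, by simp⟩
    | @insert a V _ _ ih =>
      by_cases hne : ∃ q2 ∈ Vd S ξ, q2 ≤ q ∧ ∃ M, ∀ u ∈ V, ∀ q3 ∈ Vd S ξ, q3 ≤ q2 →
          ∀ n ≥ M, ¬ C.Fv ξ A q3 (t ++ [n]) j u
      · obtain ⟨q2, h3, h4, M, h5⟩ := hne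
        obtain ⟨q3, h6, h7, M', h8⟩ := h1 a q2 h3 h4
        refine ⟨q3, h6, h7.trans h4, max M M', fun u hu q4 hq4 hle n hn => ?_⟩
        rcases Set.mem_insert_iff.1 hu with rfl | hu
        · exact h8 q4 hq4 hle n ((le_max_right _ _).trans hn)
        · exact h5 u hu q4 hq4 (hle.trans h7) n ((le_max_left _ _).trans hn)
      · exfalso
        apply hne
        apply ih
        push Not at hne
        intro q' hq' hle M
        obtain ⟨u, hu, q3, h6, h7, n, hn, h8⟩ := hne q' hq' hle M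
        exact ⟨q3, h6, h7, n, hn, u, hu, h8⟩
  obtain ⟨q2, h3, h4, M, h5⟩ := h2
  obtain ⟨q3, h6, h7, n, hn, u, hu, h8⟩ := h q2 h3 h4 M
  exact h5 u hu q3 h6 h7 n hn h8

/-- every member of the family favours its value -/
theorem fv_of_mem (hs : IsSc ξ τ) (hH : IsH S ξ) (hA : C.Fam τ A) {r : Rep I} {j : ℕ} {u : C.U}
    (hr : r ∈ A j u) : C.Fv ξ A (res r ξ) (r.st ξ) j u := by
  classical
  have hrτ := hA.sub j u hr
  refine ⟨res_mem hrτ.1 ξ, fun q' hq' hle F hF => ?_⟩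
  have h1 : ext ξ q' (r.st ξ) (r.pr ξ ∪ F) ∈ Vd S τ := ext_mem hs hH.ncp hq' fun R hR => by
    rcases Finset.mem_union.1 hR with h | h
    · exact (hrτ.1 ξ).1 R h
    · exact hF R h
  refine ⟨_, hA.down j u r hr _ h1 ?_, ?_⟩
  · conv_rhs => rw [← ext_eq hs hrτ]
    exact ext_le_ext hle (List.prefix_refl _) Finset.subset_union_left
      fun _ _ _ h h' => absurd h' (not_lt.2 h)
  · exact ext_le_ext le_rfl (List.prefix_refl _) Finset.subset_union_right
      fun _ _ _ h h' => absurd h' (not_lt.2 h)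

/-- if `s` favours no value then some stem extending it favours no value while infinitely many
of its one-point extensions do -/
theorem exists_Ps (hs : IsSc ξ τ) (hH : IsH S ξ) (hA : C.Fam τ A) {q2 : Rep I}
    {s : List ℕ} {j : ℕ} (hN : C.Nf ξ A q2 s j) {F0 : Finset (Pr I)}
    (hF0 : ∀ R ∈ F0, R ∈ S.RR ξ) :
    ∃ t, ∃ q3 ∈ Vd S ξ, ext ξ q3 t F0 ≤ ext ξ q2 s F0 ∧ C.Ps ξ A q3 t j := by
  classical
  by_contra hcon
  push Not at hcon
  have hq2 := hN.1
  let NoRe : Rep I → List ℕ → Prop := fun q t =>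
    ∀ q' ∈ Vd S ξ, q' ≤ q → ¬ ext ξ q' t F0 ≤ ext ξ q2 s F0
  let D : List ℕ → ℕ → Rep I → Prop := fun t n q =>
    NoRe q t ∨ (∃ u, C.Fv ξ A q t j u) ∨ ∀ n' ≥ n, C.Nf ξ A q (t ++ [n']) j
  obtain ⟨R, hR, hRD⟩ := hH.rich D (by
      rintro t n q (h | ⟨u, h⟩ | h) q' hq' hle
      · exact Or.inl fun q'' h1 h2 => h q'' h1 (h2.trans hle)
      · exact Or.inr (Or.inl ⟨u, h.mono hq' hle⟩)
      · exact Or.inr (Or.inr fun n' hn' => (h n' hn').mono hq' hle))
    (by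
      rintro t n q (h | ⟨u, h⟩ | h)
      · exact Or.inl h
      · exact Or.inr (Or.inl ⟨u, h⟩)
      · exact Or.inr (Or.inr fun n' hn' => h n' (by omega)))
    (by
      intro t q hq
      by_cases h1 : NoRe q t
      · exact ⟨q, hq, le_rfl, 0, Or.inl h1⟩
      · simp only [NoRe] at h1
        push Not at h1
        obtain ⟨q', h2, h3, h4⟩ := h1
        rcases exists_Fv_or_Nf (C := C) (A := A) h2 t j with ⟨q'', h5, h6, u, h7⟩ | h5
        · exact ⟨q'', h5, h6.trans h3, 0, Or.inr (Or.inl ⟨u, h7⟩)⟩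
        · have h6 := hcon t q' h2 h4
          simp only [Ps, not_and, not_forall] at h6
          obtain ⟨q'', h7, h8, N, h9⟩ := h6 h5
          push Not at h9
          exact ⟨q'', h7, h8.trans h3, N, Or.inr (Or.inr fun n' hn' =>
            ⟨h7, fun q3 h10 h11 u => h9 q3 h10 h11 n' hn' u⟩)⟩)
  -- a condition obeying the promise `R`
  have hF1 : ∀ R' ∈ insert R F0, R' ∈ S.RR ξ := by
    intro R' hR'
    rcases Finset.mem_insert.1 hR' with rfl | h
    · exact hR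
    · exact hF0 _ h
  obtain ⟨r, h1, h2, u, h3⟩ := hA.dense j (ext ξ q2 s (insert R F0)) (ext_mem hs hH.ncp hq2 hF1)
  set r0 := res r ξ with hr0
  set t := r.st ξ with ht
  have hr0m : r0 ∈ Vd S ξ := res_mem h1.1 ξ
  have hr0q : r0 ≤ q2 := by
    have := res_mono h2 ξ
    rwa [res_ext hq2.2] at this
  have hst : s <+: t := prefix_of_le_ext h2
  have hfv : C.Fv ξ A r0 t j u := fv_of_mem hs hH hA h3
  have hprom : ∀ R' ∈ insert R F0, ∀ i, s.length ≤ i → i < t.length →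
      bs r0 ξ ⊆ R' (t.take i) (t.getD i 0) := by
    intro R' hR' i hi hi'
    have h4 := (h2 ξ).2.2 R' (by rw [ext_pr_self]; exact hR') i (by rw [ext_st_self]; exact hi) hi'
    rwa [hr0, bs_res le_rfl]
  have hind : ∀ i, s.length ≤ i → i ≤ t.length → C.Nf ξ A r0 (t.take i) j := by
    intro i hi
    induction i, hi using Nat.le_induction with
    | base =>
      intro _
      rw [← take_prefix hst le_rfl, List.take_length]
      exact hN.mono hr0m hr0q
    | succ i hi ih =>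
      intro hi'
      have ih := ih (by omega)
      refine ⟨hr0m, fun q3 hq3 hq3r u' hf => ?_⟩
      obtain ⟨q', h4, h5, h6⟩ := hRD (t.take i) (t.getD i 0) q3 hq3
        ((bs_le hq3r ξ).trans (hprom R (Finset.mem_insert_self _ _) i hi (by omega)))
      have h7 : t.take i ++ [t.getD i 0] = t.take (i + 1) := by
        rw [List.take_add_one, List.getD_eq_getElem _ _ (by omega),
          List.getElem?_eq_getElem (by omega)]
        rfl
      rcases h6 with h6 | ⟨u'', h6⟩ | h6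
      · refine h6 q' h4 le_rfl (ext_le_ext (h5.trans (hq3r.trans hr0q)) ?_
          (Finset.Subset.refl _) fun R' hR' i' hi1 hi2 => ?_)
        · rw [take_prefix hst le_rfl |>.symm.trans List.take_length |>.symm]
          exact List.take_prefix_take_left hi
        · have hi3 : i' < i := by simp at hi2; omega
          have h8 := hprom R' (Finset.mem_insert_of_mem hR') i' hi1 (by omega)
          have h9 : (t.take i).take i' = t.take i' := by
            rw [List.take_take, min_eq_left hi3.le]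
          have h10 : (t.take i).getD i' 0 = t.getD i' 0 :=
            getD_prefix (List.take_prefix i t) (by simp; omega)
          rw [h9, h10]
          exact (bs_le (h5.trans hq3r) ξ).trans h8
      · exact ih.2 q' h4 (h5.trans hq3r) u'' h6
      · have h8 := h6 (t.getD i 0) le_rfl
        rw [h7] at h8
        exact h8.2 q' h4 le_rfl u' (hf.mono h4 h5)
  have h4 := hind t.length hst.length_le le_rfl
  rw [List.take_length] at h4
  exact h4.2 r0 hr0m le_rfl u hfv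

end Ctx

end Pool.Agent.H652G
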