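import Mathlib
import Pool.Agent.H652G.Fav

/-!
# The preservation property, part 3: the induction
-/

namespace Pool.Agent.H652G

open Cardinal

set_option linter.unusedSectionVars false
set_option linter.unusedVariables false

variable {I : Type} [LinearOrder I] [WellFoundedLT I] [OrderTop I] {S : Sys I}

theorem mk_le_of_cover {κ : Cardinal.{0}} (hκ : ℵ₀ ≤ κ) {ι Y : Type} (hι : #ι ≤ κ)
    (s : ι → Set Y) (hs : ∀ i, #(s i) ≤ κ) {X : Set Y} (hX : X ⊆ ⋃ i, s i) : #X ≤ κ := by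
  refine (mk_le_mk_of_subset hX).trans ((mk_iUnion_le_sum_mk).trans ?_)
  refine (Cardinal.sum_le_sum _ (fun _ => κ) hs).trans ?_
  rw [Cardinal.sum_const']
  exact (mul_le_mul' hι le_rfl).trans (mul_eq_self hκ).le

namespace Ctx

variable {C : Ctx S} {ξ τ : I} {A : ℕ → C.U → Set (Rep I)}

theorem fv_le (hA : C.Fam τ A) {q : Rep I} {t j u} (h : C.Fv ξ A q t j u) : j ≤ C.kk u := by
  obtain ⟨r, h1, _⟩ := h.2 q h.1 le_rfl ∅ (by simp)
  exact hA.le j u r h1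

theorem fv_dv (hα : C.α < ξ) (hA : C.Fam τ A) {q : Rep I} {t j u} (h : C.Fv ξ A q t j u) :
    C.dv (C.kk u) (C.ll u) q := by
  intro s hs hsq hk
  obtain ⟨r, h1, h2⟩ := h.2 (res s ξ) (res_mem hs.1 ξ) (res_le hsq h.1.2) ∅ (by simp)
  have h3 := (h2 C.α).1
  rw [ext_st_lt hα, res_st_lt hα] at h3
  have h4 := hA.dv j u r h1 r (Vd_mono le_top (hA.sub j u h1)) le_rfl (hk.trans_le h3.length_le)
  rw [getD_prefix h3 hk, h4]

variable (C) in
/-- a default value -/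
def Dm (i : ℕ) (u : C.U) (q : Rep I) : Prop := C.kk u = i ∧ C.dv (C.kk u) (C.ll u) q

theorem exists_Dm (hα : C.α < ξ) {q : Rep I} (hq : q ∈ Vd S ξ) (i : ℕ) :
    ∃ q' ∈ Vd S ξ, q' ≤ q ∧ ∃ u, C.Dm i u q' := by
  obtain ⟨q', h1, h2, h3, _⟩ := exists_long C.good hq hα (i + 1)
  obtain ⟨u, hu1, hu2⟩ := C.dummy i ((q'.st C.α).getD i 0)
  refine ⟨q', h1, h2, u, hu1, ?_⟩
  rw [hu1, hu2]
  exact dv_of_stem (by omega)

/-! ### Hechler coordinates -/

variable (C ξ A) in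
def CA (s : List ℕ) (j : ℕ) (u : C.U) : Set (Rep I) :=
  {q | C.Fv ξ A q s j u ∨ (C.Nf ξ A q s j ∧ C.Dm j u q)}

theorem fam_CA (hα : C.α < ξ) (hA : C.Fam τ A) (s : List ℕ) : C.Fam ξ (C.CA ξ A s) where
  sub := by
    rintro j u r (h | h)
    · exact h.1
    · exact h.1.1
  down := by
    rintro j u r (h | ⟨h, h'⟩) r' hr' hle
    · exact Or.inl (h.mono hr' hle)
    · exact Or.inr ⟨h.mono hr' hle, h'.1, dv_mono h'.2 hle⟩
  dense j q hq := by
    rcases exists_Fv_or_Nf (C := C) (A := A) hq s j with ⟨q', h1, h2, u, h3⟩ | h1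
    · exact ⟨q', h1, h2, u, Or.inl h3⟩
    · obtain ⟨q', h2, h3, u, h4⟩ := exists_Dm hα hq j
      exact ⟨q', h2, h3, u, Or.inr ⟨h1.mono h2 h3, h4⟩⟩
  le := by
    rintro j u r (h | ⟨_, h⟩)
    · exact fv_le hA h
    · exact h.1.ge
  dv := by
    rintro j u r (h | ⟨_, h⟩)
    · exact fv_dv hα hA h
    · exact h.2

variable (C ξ A) in
def CB (t : List ℕ) (j : ℕ) (i : ℕ) (u : C.U) : Set (Rep I) :=
  {q | (∃ n ≥ i, C.Fv ξ A q (t ++ [n]) j u ∧ i ≤ C.kk u) ∨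
    (q ∈ Vd S ξ ∧ (∀ q' ∈ Vd S ξ, q' ≤ q → ¬ C.Ps ξ A q' t j) ∧ C.Dm i u q)}

theorem finite_below (C : Ctx S) (K : ℕ) (f : ℕ → ℕ) :
    {u : C.U | C.kk u < K ∧ C.ll u = f (C.kk u)}.Finite := by
  have : {u : C.U | C.kk u < K ∧ C.ll u = f (C.kk u)} ⊆
      ⋃ i ∈ Finset.range K, {u | C.kk u = i ∧ C.ll u = f i} := by
    rintro u ⟨h1, h2⟩
    simp only [Set.mem_iUnion]
    exact ⟨C.kk u, Finset.mem_range.2 h1, rfl, h2⟩
  exact (Set.Finite.biUnion (Finset.finite_toSet _) fun i _ => C.fin i (f i)).subset this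

theorem fam_CB (hH : IsH S ξ) (hα : C.α < ξ) (hA : C.Fam τ A) (t : List ℕ) (j : ℕ) :
    C.Fam ξ (C.CB ξ A t j) where
  sub := by
    rintro i u r (⟨n, _, h, _⟩ | h)
    · exact h.1
    · exact h.1
  down := by
    rintro i u r (⟨n, hn, h, h'⟩ | ⟨_, h, h'⟩) r' hr' hle
    · exact Or.inl ⟨n, hn, h.mono hr' hle, h'⟩
    · exact Or.inr ⟨hr', fun q' hq' hq'r => h q' hq' (hq'r.trans hle), h'.1, dv_mono h'.2 hle⟩
  dense i q hq := by
    by_cases hP : ∃ q' ∈ Vd S ξ, q' ≤ q ∧ C.Ps ξ A q' t j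
    · obtain ⟨q', h1, h2, h3⟩ := hP
      by_contra hcon
      have hcon' : ∀ q'' ∈ Vd S ξ, q'' ≤ q' → ∀ n ≥ i, ∀ u, C.Fv ξ A q'' (t ++ [n]) j u →
          C.kk u < i := by
        intro q'' h4 h5 n hn u h6
        by_contra h7
        exact hcon ⟨q'', h4, h5.trans h2, u, Or.inl ⟨n, hn, h6, not_lt.1 h7⟩⟩
      obtain ⟨q1, h4, h5, h6, _⟩ := exists_long C.good h1 hα i
      obtain ⟨q2, h7, h8, u, h9⟩ := pigeon (C := C) (A := A) hH h4 (t := t) (j := j)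
        (finite_below C i fun k => (q1.st C.α).getD k 0) (by
          intro q'' h7 h8 M
          obtain ⟨q3, h9, h10, n, hn, u, h11⟩ := h3.2 q'' h7 (h8.trans h5) (max M i)
          have hk : C.kk u < i := hcon' q3 h9 (h10.trans (h8.trans h5)) n
            ((le_max_right _ _).trans hn) u h11
          refine ⟨q3, h9, h10, n, (le_max_left _ _).trans hn, u, ⟨hk, ?_⟩, h11⟩
          have h12 := h10.trans h8
          have h13 : C.kk u < (q1.st C.α).length := hk.trans_le h6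
          have h14 := fv_dv hα hA h11 q3 (Vd_mono le_top h9) le_rfl
            (h13.trans_le (length_mono h12 _))
          rw [getD_prefix (h12 C.α).1 h13, h14])
      exact h3.1.2 q2 h7 (h8.trans h5) u h9
    · push Not at hP
      obtain ⟨q', h2, h3, u, h4⟩ := exists_Dm hα hq i
      exact ⟨q', h2, h3, u, Or.inr ⟨h2, fun q'' h5 h6 => hP q'' h5 (h6.trans h3), h4⟩⟩
  le := by
    rintro i u r (⟨n, hn, h, h'⟩ | ⟨_, h, h'⟩)
    · exact h'
    · exact h'.1.ge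
  dv := by
    rintro i u r (⟨n, hn, h, h'⟩ | ⟨_, h, h'⟩)
    · exact fv_dv hα hA h
    · exact h'.2

theorem cap_CA (hs : IsSc ξ τ) (hα : C.α < ξ) (hA : C.Fam τ A) {y : C.Y} {m : ℕ}
    {q : Rep I} (hq : q ∈ Vd S τ) (hqy : q ≤ C.qy y)
    (h : ∀ j ≥ m, ∀ u, ∀ r ∈ A j u, r ≤ q → r ∈ C.In y u) {q1 : Rep I} (hq1 : q1 ∈ Vd S ξ)
    (hq1q : q1 ≤ res q ξ) (hN : ∀ j ≥ m, ∀ q2 ∈ Vd S ξ, q2 ≤ q1 → ¬ C.Nf ξ A q2 (q.st ξ) j) :
    y ∈ C.Cap ξ (C.CA ξ A (q.st ξ)) := by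
  refine ⟨m, q1, hq1, hq1q.trans (res_le hqy ((C.qy_mem y).2.mono hα.le)), ?_⟩
  rintro j hj u r (hf | ⟨hf, _⟩) hrq
  · refine In_dense' hf.1 fun r' hr' hle => ?_
    obtain ⟨r2, h1, h2⟩ := hf.2 r' hr' hle (q.pr ξ) (hq.1 ξ).1
    have h3 : r2 ≤ q := by
      refine h2.trans ?_
      conv_rhs => rw [← ext_eq hs hq]
      exact ext_le_ext (hle.trans (hrq.trans hq1q)) (List.prefix_refl _) (Finset.Subset.refl _)
        fun _ _ _ h h' => absurd h' (not_lt.2 h)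
    refine ⟨res r2 ξ, res_mem (hA.sub j u h1).1 ξ, ?_, In_res' hα.le (hA.sub j u h1)
      (h j hj u r2 h1 h3)⟩
    have := res_mono h2 ξ
    rwa [res_ext hr'.2] at this
  · exact absurd hf (hN j hj r hf.1 hrq)

theorem cap_CB (hs : IsSc ξ τ) (hH : IsH S ξ) (hα : C.α < ξ) (hA : C.Fam τ A) {y : C.Y} {m : ℕ}
    {q : Rep I} (hq : q ∈ Vd S τ) (hqy : q ≤ C.qy y)
    (h : ∀ j ≥ m, ∀ u, ∀ r ∈ A j u, r ≤ q → r ∈ C.In y u) {j : ℕ} (hj : m ≤ j) {t : List ℕ}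
    {q3 : Rep I} (hq3 : q3 ∈ Vd S ξ) (hle : ext ξ q3 t (q.pr ξ) ≤ q) (hP : C.Ps ξ A q3 t j) :
    y ∈ C.Cap ξ (C.CB ξ A t j) := by
  obtain ⟨q4, h1, h2, N, h3⟩ := hH.amal t (q.pr ξ) (hq.1 ξ).1 q3 hq3
  have hq3q : q3 ≤ res q ξ := by
    have := res_mono hle ξ
    rwa [res_ext hq3.2] at this
  refine ⟨N, q4, h1, (h2.trans hq3q).trans (res_le hqy ((C.qy_mem y).2.mono hα.le)), ?_⟩
  rintro i hi u r (⟨n, hn, hf, _⟩ | ⟨h4, h5, _⟩) hrq
  · refine In_dense' hf.1 fun r' hr' hle' => ?_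
    obtain ⟨r2, h4, h5⟩ := hf.2 r' hr' hle' (q.pr ξ) (hq.1 ξ).1
    have h6 : r2 ≤ q := by
      refine (h5.trans ?_).trans hle
      refine ext_le_ext (hle'.trans (hrq.trans h2)) (List.prefix_append _ _)
        (Finset.Subset.refl _) fun R hR i' hi1 hi2 => ?_
      have : i' = t.length := by simp at hi2; omega
      subst this
      simpa using (bs_le (hle'.trans hrq) ξ).trans (h3 n (le_trans hi hn) R hR)
    refine ⟨res r2 ξ, res_mem (hA.sub j u h4).1 ξ, ?_, In_res' hα.le (hA.sub j u h4)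
      (h j hj u r2 h4 h6)⟩
    have := res_mono h5 ξ
    rwa [res_ext hr'.2] at this
  · exact absurd (hP.mono h4 (hrq.trans h2)) (h5 r h4 le_rfl)

theorem step_H {κ : Cardinal.{0}} (hκ : ℵ₀ ≤ κ) (hs : IsSc ξ τ) (hH : IsH S ξ) (hα : C.α < ξ)
    (IH : ∀ A', C.Fam ξ A' → #(C.Cap ξ A') ≤ κ) (hA : C.Fam τ A) : #(C.Cap τ A) ≤ κ := by
  refine mk_le_of_cover hκ (ι := List ℕ ⊕ (List ℕ × ℕ)) (mk_le_aleph0.trans hκ)
    (fun i => Sum.elim (fun s => C.Cap ξ (C.CA ξ A s)) (fun x => C.Cap ξ (C.CB ξ A x.1 x.2)) i)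
    ?_ ?_
  · rintro (s | ⟨t, j⟩)
    · exact IH _ (fam_CA hα hA s)
    · exact IH _ (fam_CB hH hα hA t j)
  · rintro y ⟨m, q, hq, hqy, h⟩
    by_cases hcase : ∀ j ≥ m, ∀ q2 ∈ Vd S ξ, q2 ≤ res q ξ → ¬ C.Nf ξ A q2 (q.st ξ) j
    · exact Set.mem_iUnion.2 ⟨Sum.inl (q.st ξ), cap_CA hs hα hA hq hqy h (res_mem hq.1 ξ) le_rfl
        hcase⟩
    · push Not at hcase
      obtain ⟨j, hj, q2, h1, h2, h3⟩ := hcase
      obtain ⟨t, q3, h4, h5, h6⟩ := exists_Ps hs hH hA h3 (hq.1 ξ).1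
      have h7 : ext ξ q2 (q.st ξ) (q.pr ξ) ≤ q := by
        conv_rhs => rw [← ext_eq hs hq]
        exact ext_le_ext h2 (List.prefix_refl _) (Finset.Subset.refl _)
          fun _ _ _ h h' => absurd h' (not_lt.2 h)
      exact Set.mem_iUnion.2 ⟨Sum.inr (t, j), cap_CB hs hH hα hA hq hqy h hj h4 (h5.trans h7) h6⟩

/-! ### The first step -/

theorem fv_lt (hs : IsSc C.α τ) (hA : C.Fam τ A) {q : Rep I} {t j u}
    (h : C.Fv C.α A q t j u) : C.kk u < t.length ∧ t.getD (C.kk u) 0 = C.ll u := by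
  have hH := C.hα
  by_cases hk : C.kk u < t.length
  · refine ⟨hk, ?_⟩
    obtain ⟨r, h1, h2⟩ := h.2 q h.1 le_rfl ∅ (by simp)
    have h3 : t <+: r.st C.α := prefix_of_le_ext h2
    have h4 := hA.dv j u r h1 r (Vd_mono le_top (hA.sub j u h1)) le_rfl (hk.trans_le h3.length_le)
    rw [getD_prefix h3 hk, h4]
  · exfalso
    obtain ⟨R, hR, hRD⟩ := hH.rich (fun _ n _ => C.ll u + 1 ≤ n) (fun _ _ _ h _ _ _ => h)
      (fun _ n _ h => by omega) (fun t q hq => ⟨q, hq, le_rfl, C.ll u + 1, le_rfl⟩)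
    obtain ⟨r, h1, h2⟩ := h.2 q h.1 le_rfl {R} (by simpa using hR)
    have hrτ := hA.sub j u h1
    obtain ⟨r', h3, h4, h5, _⟩ := exists_long C.good hrτ hs.lt (C.kk u + 1)
    have h6 := hA.dv j u r h1 r' (Vd_mono le_top h3) h4 (by omega)
    have h7 := ((h4.trans h2) C.α).2.2 R (by rw [ext_pr_self]; simp) (C.kk u)
      (by rw [ext_st_self]; omega) (by omega)
    rw [← bs_res (q := r') le_rfl] at h7
    obtain ⟨q', _, _, h8⟩ := hRD _ _ _ (res_mem h3.1 C.α) h7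
    omega

/-- the conditions below `ξ` -/
def PV (S : Sys I) (ξ : I) : Type := {r : Rep I // r ∈ Vd S ξ}

instance : Preorder (PV S ξ) := inferInstanceAs (Preorder {r : Rep I // r ∈ Vd S ξ})

theorem ccc_PV (hG : ∀ ξ, Good S ξ) : CCC (PV S ξ) := by
  intro Y f hY
  obtain ⟨y, y', hne, q, hq, h1, h2⟩ := ccc hG (τ := ξ) (fun y => (f y).1) (fun y => (f y).2) hY
  exact ⟨y, y', hne, ⟨q, hq⟩, h1, h2⟩

variable (C A) in
/-- the indices captured at a stem with infinitely many favouring one-point extensions -/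
def WW (t : List ℕ) (j : ℕ) : Set C.Y :=
  {y | ∃ q ∈ Vd S C.α, q ≤ C.qy y ∧ ∃ F : Finset (Pr I), (∀ R ∈ F, R ∈ S.RR C.α) ∧
    C.Ps C.α A q t j ∧ ∀ u, ∀ r ∈ A j u, r ≤ ext C.α q t F → r ∈ C.In y u}

theorem countable_WW (hs : IsSc C.α τ) (hA : C.Fam τ A) (t : List ℕ) (j : ℕ) :
    #(C.WW A t j) ≤ ℵ₀ := by
  classical
  by_contra hcon
  have hcon' : ¬ Countable (C.WW A t j) := by rwa [← mk_le_aleph0_iff]
  have hH := C.hα
  choose q h1 h2 F h3 h4 h5 using fun y : C.WW A t j => y.2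
  obtain ⟨B, hB, p, hp⟩ := exists_many (ccc_PV C.good) hcon'
    (fun y => (⟨q y, h1 y⟩ : PV S C.α)) (t.length + 1)
  have hp' : ∀ y ∈ B, p.1 ≤ q y := hp
  obtain ⟨q', h6, h7, L, h8⟩ := C.sep (B.image Subtype.val) p.1 p.2 (by
    intro y hy
    obtain ⟨y', hy', rfl⟩ := Finset.mem_image.1 hy
    exact (hp' y' hy').trans (h2 y'))
  rw [Finset.card_image_of_injective _ Subtype.val_injective, hB] at h8
  have hne : B.Nonempty := by
    rw [← Finset.card_pos, hB]; omega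
  obtain ⟨y0, hy0⟩ := hne
  have hPs : C.Ps C.α A q' t j := (h4 y0).mono h6 (h7.trans (hp' y0 hy0))
  set Fs : Finset (Pr I) := B.biUnion F with hFs
  have hFsR : ∀ R ∈ Fs, R ∈ S.RR C.α := by
    intro R hR
    obtain ⟨y, _, hy⟩ := Finset.mem_biUnion.1 hR
    exact h3 y R hy
  obtain ⟨q4, h9, h10, M, h11⟩ := hH.amal t Fs hFsR q' h6
  obtain ⟨q5, h12, h13, u, h14⟩ := pigeon (C := C) (A := A) hH h9 (t := t) (j := j)
    (finite_below C t.length fun k => t.getD k 0) (by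
      intro q'' h12 h13 M'
      obtain ⟨q5, h14, h15, n, hn, u, h16⟩ := hPs.2 q'' h12 (h13.trans h10) (max M' (max M L))
      have hnM : M ≤ n := ((le_max_left _ _).trans (le_max_right _ _)).trans hn
      have hnL : L ≤ n := ((le_max_right _ _).trans (le_max_right _ _)).trans hn
      refine ⟨q5, h14, h15, n, (le_max_left _ _).trans hn, u, ?_, h16⟩
      obtain ⟨h17, h18⟩ := fv_lt hs hA h16
      obtain ⟨r, h19, h20⟩ := h16.2 q5 h14 le_rfl Fs hFsR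
      have h21 : r ≤ ext C.α q' t Fs := by
        refine h20.trans (ext_le_ext (h15.trans (h13.trans h10)) (List.prefix_append _ _)
          (Finset.Subset.refl _) fun R hR i hi hi' => ?_)
        have : i = t.length := by simp at hi'; omega
        subst this
        simpa using (bs_le (h15.trans h13) _).trans (h11 n hnM R hR)
      have h22 : r ≤ q' := h21.trans (glue_le_left h6.2)
      have h23 : ¬ L ≤ C.ll u := by
        intro hL
        refine h8 u (by simpa using h17) hL ⟨r, Vd_mono le_top (hA.sub j u h19), h22, ?_⟩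
        intro y hy
        obtain ⟨y', hy', rfl⟩ := Finset.mem_image.1 hy
        refine h5 y' u r h19 (h21.trans (ext_le_ext (h7.trans (hp' y' hy')) (List.prefix_refl _)
          (Finset.subset_biUnion_of_mem F hy') fun _ _ _ h h' => absurd h' (not_lt.2 h)))
      have h24 : C.kk u ≠ t.length := by
        intro he
        rw [he] at h18
        simp at h18
        exact h23 (by rw [← h18]; exact hnL)
      have h25 : C.kk u < t.length := by
        simp at h17; omega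
      refine ⟨h25, ?_⟩
      rw [← h18, List.getD_append _ _ _ _ h25])
  exact hPs.1.2 q5 h12 (h13.trans h10) u h14

theorem base {κ : Cardinal.{0}} (hκ : ℵ₀ ≤ κ) (hs : IsSc C.α τ) (hA : C.Fam τ A) :
    #(C.Cap τ A) ≤ κ := by
  refine mk_le_of_cover hκ (ι := List ℕ × ℕ) (mk_le_aleph0.trans hκ)
    (fun x => C.WW A x.1 x.2) (fun x => (countable_WW hs hA _ _).trans hκ) ?_
  rintro y ⟨m, q, hq, hqy, h⟩
  have hH := C.hα
  set j := max m (q.st C.α).length with hj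
  have hN : C.Nf C.α A (res q C.α) (q.st C.α) j := by
    refine ⟨res_mem hq.1 _, fun q' h1 h2 u h3 => ?_⟩
    have h4 := (fv_lt hs hA h3).1
    have h5 := fv_le hA h3
    have h6 : (q.st C.α).length ≤ j := le_max_right _ _
    omega
  obtain ⟨t, q3, h4, h5, h6⟩ := exists_Ps hs hH hA hN (hq.1 C.α).1
  have h7 : ext C.α q3 t (q.pr C.α) ≤ q := by
    rwa [ext_eq hs hq] at h5
  refine Set.mem_iUnion.2 ⟨(t, j), q3, h4, ?_, q.pr C.α, (hq.1 C.α).1, h6, fun u r h8 h9 =>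
    h j (le_max_left _ _) u r h8 (h9.trans h7)⟩
  have := res_mono h5 C.α
  rw [res_ext h4.2, res_ext (below_res _ _)] at this
  exact this.trans (res_le hqy (C.qy_mem y).2)

/-! ### Small coordinates -/

theorem step_S {κ : Cardinal.{0}} (hκ : ℵ₀ ≤ κ) (hs : IsSc ξ τ) (hR : #(S.RR ξ) ≤ κ)
    (hα : C.α < ξ) (IH : ∀ A', C.Fam ξ A' → #(C.Cap ξ A') ≤ κ) (hA : C.Fam τ A) :
    #(C.Cap τ A) ≤ κ := by
  classical
  let T : Set (Rep I) := (fun q => tl q ξ) '' Vd S τ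
  have hT : #T ≤ κ := by
    let f : T → List ℕ × Finset (S.RR ξ) := fun c =>
      (c.1.st ξ, (c.1.pr ξ).subtype (· ∈ S.RR ξ))
    have hf : Function.Injective f := by
      rintro ⟨_, q, hq, rfl⟩ ⟨_, q', hq', rfl⟩ h
      have h1 : (tl q ξ).st ξ = (tl q' ξ).st ξ := (Prod.ext_iff.1 h).1
      have h2 := (Prod.ext_iff.1 h).2
      have h3 : (tl q ξ).pr ξ = (tl q' ξ).pr ξ := by
        ext R
        by_cases hRR : R ∈ S.RR ξ
        · have : (⟨R, hRR⟩ : S.RR ξ) ∈ ((tl q ξ).pr ξ).subtype (· ∈ S.RR ξ) ↔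
              (⟨R, hRR⟩ : S.RR ξ) ∈ ((tl q' ξ).pr ξ).subtype (· ∈ S.RR ξ) := by
            rw [show ((tl q ξ).pr ξ).subtype (· ∈ S.RR ξ) =
              ((tl q' ξ).pr ξ).subtype (· ∈ S.RR ξ) from h2]
          simpa [Finset.mem_subtype] using this
        · constructor
          · intro h; exact absurd (((tl_mem hq ξ).1 ξ).1 R h) hRR
          · intro h; exact absurd (((tl_mem hq' ξ).1 ξ).1 R h) hRR
      apply Subtype.ext
      ext1 <;> funext η
      · rcases lt_trichotomy η ξ with h4 | rfl | h4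
        · exact (glue_st_lt h4).trans (glue_st_lt h4).symm
        · exact h1
        · exact ((tl_mem hq ξ).2 η (hs.le η h4)).1.trans ((tl_mem hq' ξ).2 η (hs.le η h4)).1.symm
      · rcases lt_trichotomy η ξ with h4 | rfl | h4
        · exact (glue_pr_lt h4).trans (glue_pr_lt h4).symm
        · exact h3
        · exact ((tl_mem hq ξ).2 η (hs.le η h4)).2.trans ((tl_mem hq' ξ).2 η (hs.le η h4)).2.symm
    refine (mk_le_of_injective hf).trans ?_
    rw [mk_prod]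
    simp only [lift_id]
    refine (mul_le_mul' (mk_le_aleph0.trans hκ) ?_).trans (mul_eq_self hκ).le
    rcases finite_or_infinite (S.RR ξ) with hfin | hinf
    · exact mk_le_aleph0.trans hκ
    · rw [mk_finset_of_infinite]; exact hR
  refine mk_le_of_cover hκ hT (fun c => C.Cap ξ (C.Tl ξ c.1 A)) ?_ ?_
  · rintro ⟨_, q, hq, rfl⟩
    exact IH _ (fam_Tl hA hα hs.lt.le hq)
  · rintro y ⟨m, q, hq, hqy, h⟩
    exact Set.mem_iUnion.2 ⟨⟨_, q, hq, rfl⟩, cap_Tl hA hα hs.lt.le hq hqy h⟩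

/-! ### Limits -/

/-- some element is above finitely many elements below a limit -/
theorem exists_bound_fin (hl : ∀ ζ < τ, ∃ ζ' < τ, ζ < ζ') {T : Set I} (hT : T.Finite)
    (h : ∀ ζ ∈ T, ζ < τ) {a : I} (ha : a < τ) : ∃ b < τ, a < b ∧ ∀ ζ ∈ T, ζ < b := by
  induction T, hT using Set.Finite.induction_on with
  | empty =>
    obtain ⟨b, h1, h2⟩ := hl a ha
    exact ⟨b, h1, h2, by simp⟩
  | @insert c T _ _ ih =>
    obtain ⟨b, h1, h2, h3⟩ := ih fun ζ hζ => h ζ (Set.mem_insert_of_mem _ hζ)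
    obtain ⟨b', h4, h5⟩ := hl (max b c) (max_lt h1 (h c (Set.mem_insert _ _)))
    refine ⟨b', h4, h2.trans ((le_max_left _ _).trans_lt h5), fun ζ hζ => ?_⟩
    rcases Set.mem_insert_iff.1 hζ with rfl | hζ
    · exact (le_max_right _ _).trans_lt h5
    · exact (h3 ζ hζ).trans ((le_max_left _ _).trans_lt h5)

theorem exists_below_limit (hl : ∀ ζ < τ, ∃ ζ' < τ, ζ < ζ') {q : Rep I} (hq : q ∈ Vd S τ)
    {a : I} (ha : a < τ) : ∃ b < τ, a < b ∧ Below q b := by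
  obtain ⟨b, h1, h2, h3⟩ := exists_bound_fin hl q.fin (fun ζ hζ => hq.2.lt_of_mem hζ) ha
  refine ⟨b, h1, h2, fun η hη => ?_⟩
  exact notMem_supp fun h => absurd (h3 η h) (not_lt.2 hη)

theorem step_L {κ : Cardinal.{0}} (hκ : ℵ₀ ≤ κ) (hl : ∀ ζ < τ, ∃ ζ' < τ, ζ < ζ')
    (hα : C.α < τ) (IH : ∀ ξ < τ, C.α < ξ → ∀ A', C.Fam ξ A' → #(C.Cap ξ A') ≤ κ)
    (hA : C.Fam τ A) : #(C.Cap τ A) ≤ κ := by
  classical
  by_cases hcof : ∃ T : Set I, #T ≤ κ ∧ (∀ c ∈ T, c < τ) ∧ ∀ ζ < τ, ∃ c ∈ T, ζ ≤ c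
  · obtain ⟨T, h1, h2, h3⟩ := hcof
    refine mk_le_of_cover hκ (ι := {c : T // C.α < c.1}) ((mk_subtype_le _).trans h1)
      (fun c => C.Cap c.1.1 (C.Tl c.1.1 (one I) A)) ?_ ?_
    · rintro ⟨c, hc⟩
      have : (one I : Rep I) = tl (one I) c.1 := (tl_below (below_one _)).symm
      rw [this]
      exact IH c.1 (h2 c.1 c.2) hc _ (fam_Tl hA hc (h2 c.1 c.2).le (one_mem _))
    · rintro y ⟨m, q, hq, hqy, h⟩
      obtain ⟨b, h4, h5, h6⟩ := exists_below_limit hl hq hα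
      obtain ⟨c, hc, h7⟩ := h3 b h4
      have h8 := cap_Tl hA (h5.trans_le h7) (h2 c hc).le hq hqy h
      rw [tl_below (h6.mono h7)] at h8
      exact Set.mem_iUnion.2 ⟨⟨⟨c, hc⟩, h5.trans_le h7⟩, h8⟩
  · push Not at hcof
    have hD : ∀ j, ∃ Aj : Set (PV S τ), Aj ⊆ {p | ∃ u, p.1 ∈ A j u} ∧ Aj.Countable ∧
        ∀ p, ∃ a ∈ Aj, Compat a p := by
      intro j
      obtain ⟨Aj, h1, h2, h3, _⟩ := exists_antichain (ccc_PV C.good) (P := PV S τ)
        {p | ∃ u, p.1 ∈ A j u} (fun p => by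
          obtain ⟨r, h1, h2, u, h3⟩ := hA.dense j p.1 p.2
          exact ⟨⟨r, h1⟩, h2, u, h3⟩)
      exact ⟨Aj, h1, h2, h3⟩
    choose Aj h1 h2 h3 using hD
    set T : Set I := ⋃ j, ⋃ a ∈ Aj j, supp a.1 with hT
    have hTc : T.Countable := Set.countable_iUnion fun j =>
      (h2 j).biUnion fun a _ => a.1.fin.countable
    obtain ⟨ζ, hζ, h4⟩ := hcof T ((Cardinal.le_aleph0_iff_set_countable.2 hTc).trans hκ) (by
      intro c hc
      simp only [hT, Set.mem_iUnion] at hc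
      obtain ⟨j, a, _, hc⟩ := hc
      exact a.2.2.lt_of_mem hc)
    obtain ⟨ξ, hξ, hαξ, hζξ⟩ := exists_bound_fin hl (Set.finite_singleton ζ) (by simpa using hζ) hα
    have hζξ' : ζ < ξ := hζξ ζ rfl
    have hbelow : ∀ j, ∀ a ∈ Aj j, Below a.1 ξ := by
      intro j a ha η hη
      refine notMem_supp fun h => ?_
      have h5 := h4 η (Set.mem_iUnion.2 ⟨j, Set.mem_iUnion.2 ⟨a, Set.mem_iUnion.2 ⟨ha, h⟩⟩⟩)
      exact absurd hη (not_le.2 (h5.trans hζξ'))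
    let A' : ℕ → C.U → Set (Rep I) := fun j u =>
      {r | r ∈ Vd S ξ ∧ ∃ a ∈ Aj j, a.1 ∈ A j u ∧ r ≤ a.1}
    have hA' : C.Fam ξ A' :=
      { sub := fun j u r hr => hr.1
        down := fun j u r hr r' hr' hle => ⟨hr', hr.2.choose, hr.2.choose_spec.1,
          hr.2.choose_spec.2.1, hle.trans hr.2.choose_spec.2.2⟩
        dense := by
          intro j q hq
          obtain ⟨a, ha, s, hs1, hs2⟩ := h3 j ⟨q, Vd_mono hξ.le hq⟩
          obtain ⟨u, hu⟩ := h1 j ha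
          have hs1' : s.1 ≤ a.1 := hs1
          have hs2' : s.1 ≤ q := hs2
          exact ⟨res s.1 ξ, res_mem s.2.1 ξ, res_le hs2' hq.2, u, res_mem s.2.1 ξ, a, ha, hu,
            res_le hs1' (hbelow j a ha)⟩
        le := by
          rintro j u r ⟨_, a, _, hu, _⟩
          exact hA.le j u a.1 hu
        dv := by
          rintro j u r ⟨_, a, _, hu, hle⟩
          exact dv_mono (hA.dv j u a.1 hu) hle }
    refine (mk_le_mk_of_subset ?_).trans (IH ξ hξ hαξ A' hA')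
    rintro y ⟨m, q, hq, hqy, h⟩
    refine ⟨m, res q ξ, res_mem hq.1 ξ, res_le hqy ((C.qy_mem y).2.mono hαξ.le), ?_⟩
    rintro j hj u r ⟨hr, a, ha, hu, hle⟩ hrq
    have h5 : glue r q ξ ∈ Vd S τ := glue_mem hr hq hξ.le
    have h6 : glue r q ξ ≤ a.1 := (glue_le_left hr.2).trans hle
    have h7 := h j hj u _ (hA.down j u _ hu _ h5 h6) (glue_le hrq)
    have h8 := In_res' hαξ.le h5 h7
    rwa [res_glue' hr.2] at h8

/-- The preservation theorem: the selections only capture few points. -/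
theorem claim {κ : Cardinal.{0}} (hκ : ℵ₀ ≤ κ) (hS : ∀ ξ, IsH S ξ ∨ #(S.RR ξ) ≤ κ) (τ : I) :
    C.α < τ → ∀ A, C.Fam τ A → #(C.Cap τ A) ≤ κ := by
  induction τ using WellFoundedLT.induction with
  | ind τ IH =>
    intro hα A hA
    by_cases h : ∃ ξ < τ, ∀ ζ < τ, ζ ≤ ξ
    · obtain ⟨ξ, h1, h2⟩ := h
      have hs : IsSc ξ τ := ⟨h1, fun ζ hζ => by
        by_contra hc
        exact absurd (h2 ζ (not_le.1 hc)) (not_le.2 hζ)⟩
      rcases (h2 C.α hα).eq_or_lt with h3 | h3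
      · subst h3
        exact base hκ hs hA
      · rcases hS ξ with h4 | h4
        · exact step_H hκ hs h4 h3 (IH ξ h1 h3) hA
        · exact step_S hκ hs h4 h3 (IH ξ h1 h3) hA
    · push Not at h
      exact step_L hκ h hα (fun ξ h1 h2 => IH ξ h1 h2) hA

end Ctx

end Pool.Agent.H652G
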