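import Mathlib
import Pool.Agent.H652G.Claim

/-!
# The admissible promises, by recursion

There are two kinds of coordinates. At the coordinates with `kd ξ = none` all (suitably countable)
names of functions bounding the next value are allowed as promises: this is a version of Hechler
forcing. At the coordinates with `kd ξ = some (β, t)` the promises are the members of the `t`-th
family, indexed by `W`, of names for sequences of sets of integers given by conditions below `β`,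
such that any `n` of the sets with index `n` meet.
-/

namespace Pool.Agent.H652G

open Cardinal

set_option linter.unusedSectionVars false
set_option linter.unusedVariables false

variable {I : Type} [LinearOrder I] [WellFoundedLT I] [OrderTop I]

/-- the union of countably many basic sets -/
def COp (B : Set (Rep I)) (ξ : I) (O : Set (Om I)) : Prop :=
  ∃ c : ℕ → Option B, O = ⋃ i, (c i).elim ∅ fun q => bs q.1 ξ

theorem COp_of_countable {B : Set (Rep I)} {ξ : I} {A : Set (Rep I)} (hA : A ⊆ B)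
    (hc : A.Countable) : COp B ξ (⋃ a ∈ A, bs a ξ) := by
  classical
  have := hc.to_subtype
  let _ := Encodable.ofCountable A
  refine ⟨fun i => (Encodable.decode₂ A i).map fun a => ⟨a.1, hA a.2⟩, ?_⟩
  ext w
  simp only [Set.mem_iUnion]
  constructor
  · rintro ⟨a, ha, hw⟩
    refine ⟨Encodable.encode (⟨a, ha⟩ : A), ?_⟩
    rw [Encodable.encodek₂]
    exact hw
  · rintro ⟨i, hi⟩
    rcases h : Encodable.decode₂ A i with _ | a
    · rw [h] at hi; exact absurd hi (Set.notMem_empty _)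
    · rw [h] at hi; exact ⟨a.1, a.2, hi⟩

/-- the promises at the coordinates of Hechler type -/
def HP (B : Set (Rep I)) (ξ : I) : Set (Pr I) :=
  {R | (∀ t m, COp B ξ (R t m)) ∧ (∀ t m, R t m ⊆ R t (m + 1)) ∧
    ∀ t, ∀ q ∈ B, ∃ q' ∈ B, q' ≤ q ∧ ∃ m, bs q' ξ ⊆ R t m}

/-- the codes of families of names -/
abbrev Cde (W : Type) (B : Set (Rep I)) : Type := W → ℕ → ℕ → ℕ → Option B

/-- the promise coded by `c i` -/
def ev {W : Type} {B : Set (Rep I)} (β : I) (c : Cde W B) (i : W) : Pr I :=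
  fun t m => ⋃ k, (c i t.length m k).elim ∅ fun q => bs q.1 β

/-- any `n` of the sets with index `n` meet -/
def Nint {W : Type} {B : Set (Rep I)} (β : I) (c : Cde W B) : Prop :=
  ∀ t : List ℕ, ∀ F : Finset W, F.card ≤ t.length → ∀ q ∈ B, ∃ q' ∈ B, q' ≤ q ∧
    ∃ m, ∀ i ∈ F, bs q' β ⊆ ev β c i t m

open Classical in
/-- the promises at the other coordinates -/
noncomputable def QP {W : Type} {B : Set (Rep I)} (β : I) (c : Cde W B) : Set (Pr I) :=
  if Nint β c then Set.range (ev β c) else {fun _ _ => Set.univ}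

open Classical in
/-- an enumeration of the codes -/
noncomputable def en (T W : Type) (B : Set (Rep I)) : T → Cde W B :=
  if h : ∃ f : T → Cde W B, Function.Surjective f then h.choose else fun _ _ _ _ _ => none

variable (T W : Type) (kd : I → Option (I × T))

noncomputable def StepF (ξ : I) (B : Set (Rep I)) : Set (Pr I) :=
  match kd ξ with
  | none => HP B ξ
  | some (β, t) => QP β (en T W {r | r ∈ B ∧ Below r β} t)

/-- the admissible promises, by recursion -/
noncomputable def MR : I → Set (Pr I) :=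
  WellFoundedLT.fix (motive := fun _ : I => Set (Pr I)) fun ξ f =>
    StepF T W kd ξ {r | (∀ η, ∀ h : η < ξ, (∀ R ∈ r.pr η, R ∈ f η h) ∧
      ((kd η).isSome → (r.pr η).card ≤ (r.st η).length)) ∧ Below r ξ}

/-- the system -/
noncomputable def Sy : Sys I := ⟨MR T W kd, fun ξ => (kd ξ).isSome⟩

theorem MR_eq (ξ : I) : MR T W kd ξ = StepF T W kd ξ (Vd (Sy T W kd) ξ) := by
  rw [MR, WellFoundedLT.fix_eq]
  congr 1
  ext r
  constructor
  · rintro ⟨h1, h2⟩
    refine ⟨fun η => ?_, h2⟩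
    by_cases hη : η < ξ
    · exact h1 η hη
    · rw [(h2 η (not_lt.1 hη)).2]
      exact ⟨fun R hR => absurd hR (Finset.notMem_empty R), fun _ => by simp⟩
  · rintro ⟨h1, h2⟩
    exact ⟨fun η _ => h1 η, h2⟩

variable {T W kd}

theorem RR_none {ξ : I} (h : kd ξ = none) :
    (Sy T W kd).RR ξ = HP (Vd (Sy T W kd) ξ) ξ := by
  show MR T W kd ξ = _
  rw [MR_eq, StepF, h]

theorem Vd_below {S : Sys I} {β ξ : I} (h : β ≤ ξ) : {r | r ∈ Vd S ξ ∧ Below r β} = Vd S β := by
  ext r
  constructor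
  · rintro ⟨h1, h2⟩; exact ⟨h1.1, h2⟩
  · rintro ⟨h1, h2⟩; exact ⟨⟨h1, h2.mono h⟩, h2⟩

theorem RR_some {ξ β : I} {t : T} (h : kd ξ = some (β, t)) (hβ : β ≤ ξ) :
    (Sy T W kd).RR ξ = QP β (en T W (Vd (Sy T W kd) β) t) := by
  show MR T W kd ξ = _
  rw [MR_eq, StepF, h]
  show QP β (en T W {r | r ∈ Vd (Sy T W kd) ξ ∧ Below r β} t) = _
  rw [Vd_below hβ]

theorem HP_amal {B : Set (Rep I)} {ξ : I} (t : List ℕ) (F : Finset (Pr I))
    (hF : ∀ R ∈ F, R ∈ HP B ξ) (q : Rep I) (hq : q ∈ B) :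
    ∃ q' ∈ B, q' ≤ q ∧ ∃ N, ∀ R ∈ F, bs q' ξ ⊆ R t N := by
  classical
  induction F using Finset.induction_on with
  | empty => exact ⟨q, hq, le_rfl, 0, by simp⟩
  | insert R F _ ih =>
    obtain ⟨q1, h1, h2, N1, h3⟩ := ih fun R' hR' => hF R' (Finset.mem_insert_of_mem hR')
    obtain ⟨_, hmono, hd⟩ := hF R (Finset.mem_insert_self R F)
    obtain ⟨q2, h4, h5, N2, h6⟩ := hd t q1 h1
    have hm : ∀ R' ∈ insert R F, ∀ m m', m ≤ m' → R' t m ⊆ R' t m' := by
      intro R' hR' m m' h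
      induction m', h using Nat.le_induction with
      | base => exact le_rfl
      | succ m' _ ih => exact ih.trans ((hF R' hR').2.1 t m')
    refine ⟨q2, h4, h5.trans h2, max N1 N2, fun R' hR' => ?_⟩
    rcases Finset.mem_insert.1 hR' with rfl | hR''
    · exact h6.trans (hm _ hR' _ _ (le_max_right _ _))
    · exact ((bs_le h5 ξ).trans (h3 R' hR'')).trans (hm _ hR' _ _ (le_max_left _ _))

/-- the base of a coordinate is below it -/
def KdLt (kd : I → Option (I × T)) : Prop := ∀ ξ β t, kd ξ = some (β, t) → β < ξ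

theorem good_Sy [Nonempty W] (hk : KdLt kd) (ξ : I) : Good (Sy T W kd) ξ := by
  classical
  rcases h : kd ξ with _ | ⟨β, t0⟩
  · constructor
    · intro R hR t m w hw
      rw [RR_none h] at hR
      obtain ⟨c, hc⟩ := hR.1 t m
      rw [hc] at hw ⊢
      obtain ⟨i, hi⟩ := Set.mem_iUnion.1 hw
      rcases h' : c i with _ | q
      · rw [h'] at hi; exact absurd hi (Set.notMem_empty _)
      · rw [h'] at hi
        exact ⟨q.1, q.2, hi, fun v hv => Set.mem_iUnion.2 ⟨i, by rw [h']; exact hv⟩⟩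
    · intro F hF t _ q hq
      rw [RR_none h] at hF
      obtain ⟨q', h1, h2, N, h3⟩ := HP_amal t F hF q hq
      exact ⟨q', h1, h2, N, h3⟩
  · have hβ := hk ξ β t0 h
    constructor
    · intro R hR t m w hw
      rw [RR_some h hβ.le, QP] at hR
      split_ifs at hR with hN
      · obtain ⟨i, rfl⟩ := hR
        obtain ⟨k, hk⟩ := Set.mem_iUnion.1 hw
        rcases h' : en T W (Vd (Sy T W kd) β) t0 i t.length m k with _ | q
        · rw [h'] at hk; exact absurd hk (Set.notMem_empty _)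
        · rw [h'] at hk
          have h1 : bs q.1 ξ = bs q.1 β := bs_below q.2.2 hβ.le
          refine ⟨q.1, Vd_mono hβ.le q.2, by rw [h1]; exact hk, fun v hv =>
            Set.mem_iUnion.2 ⟨k, ?_⟩⟩
          rw [h']
          show v ∈ bs q.1 β
          rw [← h1]; exact hv
      · rw [Set.mem_singleton_iff] at hR
        subst hR
        exact ⟨one I, one_mem ξ, fun η _ => by simp [one], Set.subset_univ _⟩
    · intro F hF t hFt q hq
      have hcp : (Sy T W kd).cp ξ := by show (kd ξ).isSome; rw [h]; rfl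
      rw [RR_some h hβ.le, QP] at hF
      split_ifs at hF with hN
      · choose! g hg using hF
        obtain ⟨q', h1, h2, m, h3⟩ := hN t (F.image g)
          (Finset.card_image_le.trans (hFt hcp)) (res q β) (res_mem hq.1 β)
        refine ⟨glue q' q β, glue_mem h1 hq hβ.le, glue_le h2, m, fun R hR => ?_⟩
        refine (bs_anti _ hβ.le).trans ?_
        rw [bs_glue le_rfl, ← hg R hR]
        exact h3 _ (Finset.mem_image_of_mem g hR)
      · refine ⟨q, hq, le_rfl, 0, fun R hR => ?_⟩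
        rw [Set.mem_singleton_iff.1 (hF R hR)]
        exact Set.subset_univ _

/-- coordinates of Hechler type -/
theorem isH_Sy [Nonempty W] (hk : KdLt kd) {ξ : I} (h : kd ξ = none) : IsH (Sy T W kd) ξ where
  ncp := by show ¬ (kd ξ).isSome; rw [h]; simp
  mono R hR t m m' hm := by
    rw [RR_none h] at hR
    induction m', hm using Nat.le_induction with
    | base => exact le_rfl
    | succ m' _ ih => exact ih.trans (hR.2.1 t m')
  dense R hR t q hq := by
    rw [RR_none h] at hR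
    exact hR.2.2 t q hq
  rich D hD1 hD2 hD3 := by
    have hG := good_Sy (W := W) hk
    have hA : ∀ t, ∃ A : Set (Ctx.PV (Sy T W kd) ξ), A ⊆ {p | ∃ n, D t n p.1} ∧ A.Countable ∧
        ∀ p, ∃ a ∈ A, Compat a p := by
      intro t
      obtain ⟨A, h1, h2, h3, _⟩ := exists_antichain (Ctx.ccc_PV hG)
        (P := Ctx.PV (Sy T W kd) ξ) {p | ∃ n, D t n p.1} (fun p => by
          obtain ⟨q', h1, h2, n, h3⟩ := hD3 t p.1 p.2
          exact ⟨⟨q', h1⟩, h2, n, h3⟩)
      exact ⟨A, h1, h2, h3⟩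
    choose A h1 h2 h3 using hA
    refine ⟨fun t n => ⋃ a ∈ (Subtype.val '' {a | a ∈ A t ∧ D t n a.1} : Set (Rep I)), bs a ξ,
      ?_, ?_⟩
    · rw [RR_none h]
      refine ⟨fun t m => COp_of_countable ?_ ?_, fun t m w hw => ?_, fun t q hq => ?_⟩
      · rintro _ ⟨a, _, rfl⟩; exact a.2
      · exact ((h2 t).mono fun a ha => ha.1).image _
      · simp only [Set.mem_iUnion] at hw ⊢
        obtain ⟨_, ⟨a, ha, rfl⟩, hw⟩ := hw
        exact ⟨a.1, ⟨a, ⟨ha.1, hD2 t m a.1 ha.2⟩, rfl⟩, hw⟩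
      · obtain ⟨a, ha, s, hs1, hs2⟩ := h3 t ⟨q, hq⟩
        obtain ⟨n, hn⟩ := h1 t ha
        exact ⟨s.1, s.2, hs2, n, fun w hw => Set.mem_biUnion ⟨a, ⟨ha, hn⟩, rfl⟩
          (bs_le (show s.1 ≤ a.1 from hs1) ξ hw)⟩
    · intro t n q hq hqR
      obtain ⟨w, hw⟩ := bs_nonempty hG hq
      have h4 := hqR (hw ξ)
      simp only [Set.mem_iUnion] at h4
      obtain ⟨_, ⟨a, ha, rfl⟩, hwa⟩ := h4
      obtain ⟨q', h5, h6, h7⟩ := compat_of_point hG hq a.2 (hw ξ) hwa
      exact ⟨q', h5, h6, hD1 t n a.1 ha.2 q' h5 h7⟩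

/-! ### Cardinalities -/

theorem mk_arrow_le {θ : Cardinal.{0}} {X Z : Type} (h : θ ^ #X ≤ θ) (hZ : #Z ≤ θ) :
    #(X → Z) ≤ θ := by
  rw [← power_def]
  exact (power_le_power_right hZ).trans h

theorem card_QP_le {θ : Cardinal.{0}} (hθ : ℵ₀ ≤ θ) (hW : #W ≤ θ) {B : Set (Rep I)} {β : I}
    (c : Cde W B) : #(QP β c) ≤ θ := by
  rw [QP]
  split_ifs
  · exact mk_range_le.trans hW
  · rw [mk_singleton]; exact one_le_aleph0.trans hθ

theorem card_Vd {θ : Cardinal.{0}} (hθ : ℵ₀ ≤ θ) (hI : #I ≤ θ) {S : Sys I} {ξ : I}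
    (h : ∀ η < ξ, #(S.RR η) ≤ θ) : #(Vd S ξ) ≤ θ := by
  classical
  let Rs : Set (Pr I) := ⋃ η : Set.Iio ξ, S.RR η.1
  have hRs : #Rs ≤ θ := by
    refine (mk_iUnion_le_sum_mk).trans ?_
    refine (Cardinal.sum_le_sum (fun η : Set.Iio ξ => #(S.RR η.1)) (fun _ => θ)
      fun η => h η.1 η.2).trans ?_
    rw [Cardinal.sum_const']
    exact (mul_le_mul' ((mk_set_le _).trans hI) le_rfl).trans (mul_eq_self hθ).le
  have hfin : ∀ X : Type, #X ≤ θ → #(Finset X) ≤ θ := by
    intro X hX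
    rcases finite_or_infinite X with hf | hi
    · exact mk_le_aleph0.trans hθ
    · rw [mk_finset_of_infinite]; exact hX
  let f : Vd S ξ → Finset (I × List ℕ × Finset Rs) := fun r =>
    r.1.fin.toFinset.image fun η => (η, r.1.st η, (r.1.pr η).subtype (· ∈ Rs))
  have hmem : ∀ r : Vd S ξ, ∀ η, ∀ R ∈ r.1.pr η, R ∈ Rs := by
    intro r η R hR
    have hη : η < ξ := r.2.2.lt_of_mem (Or.inr fun h => by
      rw [h] at hR; exact absurd hR (Finset.notMem_empty R))
    exact Set.mem_iUnion.2 ⟨⟨η, hη⟩, (r.2.1 η).1 R hR⟩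
  have hf : Function.Injective f := by
    intro r r' hrr
    have key : ∀ r r' : Vd S ξ, f r = f r' → ∀ η ∈ supp r.1,
        r.1.st η = r'.1.st η ∧ r.1.pr η = r'.1.pr η := by
      intro r r' hrr η hη
      have h1 : (η, r.1.st η, (r.1.pr η).subtype (· ∈ Rs)) ∈ f r :=
        Finset.mem_image_of_mem _ (by simpa [supp] using hη)
      rw [hrr] at h1
      obtain ⟨η', _, h2⟩ := Finset.mem_image.1 h1
      simp only [Prod.mk.injEq] at h2
      obtain ⟨rfl, h3, h4⟩ := h2
      refine ⟨h3.symm, ?_⟩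
      ext R
      constructor
      · intro hR
        have h5 : (⟨R, hmem r η' R hR⟩ : Rs) ∈ (r.1.pr η').subtype (· ∈ Rs) := by simpa using hR
        rw [← h4] at h5
        simpa using h5
      · intro hR
        have h5 : (⟨R, hmem r' η' R hR⟩ : Rs) ∈ (r'.1.pr η').subtype (· ∈ Rs) := by simpa using hR
        rw [h4] at h5
        simpa using h5
    have h2 : ∀ η, r.1.st η = r'.1.st η ∧ r.1.pr η = r'.1.pr η := by
      intro η
      by_cases h1 : η ∈ supp r.1
      · exact key r r' hrr η h1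
      · by_cases h2 : η ∈ supp r'.1
        · obtain ⟨h3, h4⟩ := key r' r hrr.symm η h2
          exact ⟨h3.symm, h4.symm⟩
        · obtain ⟨h3, h4⟩ := notMem_supp h1
          obtain ⟨h5, h6⟩ := notMem_supp h2
          rw [h3, h4, h5, h6]; exact ⟨rfl, rfl⟩
    apply Subtype.ext
    ext1
    · funext η; exact (h2 η).1
    · funext η; exact (h2 η).2
  refine (mk_le_of_injective hf).trans (hfin _ ?_)
  simp only [mk_prod, lift_id]
  refine (mul_le_mul' hI ?_).trans (mul_eq_self hθ).le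
  exact (mul_le_mul' (mk_le_aleph0.trans hθ) (hfin _ hRs)).trans (mul_eq_self hθ).le

theorem card_HP {θ : Cardinal.{0}} (hθ : ℵ₀ ≤ θ) (hp : θ ^ ℵ₀ ≤ θ) {B : Set (Rep I)}
    (hB : #B ≤ θ) (ξ : I) : #(HP B ξ) ≤ θ := by
  have h1 : #(List ℕ → ℕ → ℕ → Option B) ≤ θ := by
    have hO : #(Option B) ≤ θ := by
      rw [mk_option]
      exact (add_le_add hB (one_le_aleph0.trans hθ)).trans (add_eq_self hθ).le
    have hN : θ ^ #ℕ ≤ θ := by rw [mk_nat]; exact hp
    have hL : θ ^ #(List ℕ) ≤ θ := by rw [mk_list_eq_aleph0]; exact hp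
    exact mk_arrow_le hL (mk_arrow_le hN (mk_arrow_le hN hO))
  refine le_trans ?_ h1
  have h2 : ∀ R : HP B ξ, ∃ c : List ℕ → ℕ → ℕ → Option B, ∀ t m,
      R.1 t m = ⋃ i, (c t m i).elim ∅ fun q => bs q.1 ξ := by
    intro R
    choose c hc using R.2.1
    exact ⟨c, hc⟩
  choose g hg using h2
  refine mk_le_of_injective (f := g) fun R R' h => Subtype.ext ?_
  funext t m
  rw [hg R, hg R', h]

theorem card_RR {θ : Cardinal.{0}} (hθ : ℵ₀ ≤ θ) (hp : θ ^ ℵ₀ ≤ θ) (hI : #I ≤ θ) (hW : #W ≤ θ)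
    (hk : KdLt kd) (ξ : I) : #((Sy T W kd).RR ξ) ≤ θ := by
  induction ξ using WellFoundedLT.induction with
  | ind ξ IH =>
    rcases h : kd ξ with _ | ⟨β, t0⟩
    · rw [RR_none h]
      exact card_HP hθ hp (card_Vd hθ hI IH) ξ
    · rw [RR_some h (hk ξ β t0 h).le]
      exact card_QP_le hθ hW _

theorem surj_en {θ : Cardinal.{0}} (hθ : ℵ₀ ≤ θ) (hp : θ ^ ℵ₀ ≤ θ) (hI : #I ≤ θ) (hW : #W ≤ θ)
    (hpW : θ ^ #W ≤ θ) (hT : θ ≤ #T) (hk : KdLt kd) (β : I) :
    Function.Surjective (en T W (Vd (Sy T W kd) β)) := by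
  have h : ∃ f : T → Cde W (Vd (Sy T W kd) β), Function.Surjective f := by
    have hB := card_Vd (S := Sy T W kd) (ξ := β) hθ hI fun η _ => card_RR hθ hp hI hW hk η
    have hO : #(Option (Vd (Sy T W kd) β)) ≤ θ := by
      rw [mk_option]
      exact (add_le_add hB (one_le_aleph0.trans hθ)).trans (add_eq_self hθ).le
    have hN : θ ^ #ℕ ≤ θ := by rw [mk_nat]; exact hp
    have h1 : #(Cde W (Vd (Sy T W kd) β)) ≤ #T :=
      (mk_arrow_le hpW (mk_arrow_le hN (mk_arrow_le hN (mk_arrow_le hN hO)))).trans hT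
    have : Nonempty (Cde W (Vd (Sy T W kd) β)) := ⟨fun _ _ _ _ => none⟩
    obtain ⟨f⟩ := h1
    exact ⟨Function.invFun f, Function.invFun_surjective f.injective⟩
  unfold en
  rw [dif_pos h]
  exact h.choose_spec

end Pool.Agent.H652G
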