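import Mathlib
import Pool.Agent.H652G.Step

/-!
# The index set of the iteration
-/

namespace Pool.Agent.H652G

open Cardinal

set_option linter.unusedSectionVars false
set_option linter.unusedVariables false

/-- a set of size `ℵ₁` -/
abbrev W1 : Type := (ℵ_ 1).ord.ToType
/-- a well-ordered set of type `ω₂` -/
abbrev W2 : Type := (ℵ_ 2).ord.ToType
/-- a well-ordered set of type `ω₃` -/
abbrev K3 : Type := (ℵ_ 3).ord.ToType
/-- a set of size `2 ^ ℵ₃` -/
abbrev T3 : Type := ((2 : Cardinal.{0}) ^ (ℵ_ 3)).ord.ToType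

theorem mk_W1 : #W1 = ℵ_ 1 := mk_ord_toType _
theorem mk_W2 : #W2 = ℵ_ 2 := mk_ord_toType _
theorem mk_K3 : #K3 = ℵ_ 3 := mk_ord_toType _
theorem mk_T3 : #T3 = 2 ^ (ℵ_ 3) := mk_ord_toType _

/-- the index set -/
abbrev JJ : Type := K3 ×ₗ WithBot T3

/-- the kind of a coordinate -/
def kd : WithTop JJ → Option (WithTop JJ × T3)
  | ⊤ => none
  | (j : JJ) => match (ofLex j).2 with
    | ⊥ => none
    | (t : T3) => some (((toLex ((ofLex j).1, (⊥ : WithBot T3)) : JJ) : WithTop JJ), t)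

theorem kd_bot (a : K3) : kd ((toLex (a, (⊥ : WithBot T3)) : JJ) : WithTop JJ) = none := rfl

theorem kd_coe (a : K3) (t : T3) : kd ((toLex (a, (t : WithBot T3)) : JJ) : WithTop JJ) =
    some (((toLex (a, (⊥ : WithBot T3)) : JJ) : WithTop JJ), t) := rfl

theorem bot_lt (a : K3) (t : T3) : (toLex (a, (⊥ : WithBot T3)) : JJ) < toLex (a, (t : WithBot T3)) := by
  rw [Prod.Lex.toLex_lt_toLex]
  exact Or.inr ⟨rfl, WithBot.bot_lt_coe t⟩

theorem kdLt : KdLt kd := by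
  intro ξ β t h
  induction ξ using WithTop.recTopCoe with
  | top => exact absurd h (by simp [kd])
  | coe j =>
    obtain ⟨⟨a, s⟩, rfl⟩ := toLex.surjective j
    induction s using WithBot.recBotCoe with
    | bot => rw [kd_bot] at h; exact absurd h (by simp)
    | coe s =>
      rw [kd_coe] at h
      simp only [Option.some.injEq, Prod.mk.injEq] at h
      obtain ⟨rfl, rfl⟩ := h
      exact WithTop.coe_lt_coe.2 (bot_lt a s)

theorem card_idx : #(WithTop JJ) ≤ 2 ^ (ℵ_ 3) := by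
  have h0 : ℵ₀ ≤ (2 : Cardinal.{0}) ^ (ℵ_ 3) := (aleph0_le_aleph 3).trans (cantor _).le
  have h1 : #(WithBot T3) ≤ 2 ^ (ℵ_ 3) := by
    have : #(WithBot T3) = #T3 + 1 := mk_option
    rw [this, mk_T3]
    exact (add_le_add le_rfl (one_le_aleph0.trans h0)).trans (add_eq_self h0).le
  have h2 : #JJ ≤ 2 ^ (ℵ_ 3) := by
    have : #JJ = #(K3 × WithBot T3) := rfl
    rw [this, mk_prod, lift_id, lift_id, mk_K3]
    exact (mul_le_mul' (cantor _).le h1).trans (mul_eq_self h0).le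
  have h3 : #(WithTop JJ) = #JJ + 1 := mk_option
  rw [h3]
  exact (add_le_add h2 (one_le_aleph0.trans h0)).trans (add_eq_self h0).le

theorem theta_pow {c : Cardinal.{0}} (hc : c ≤ ℵ_ 3) :
    ((2 : Cardinal.{0}) ^ (ℵ_ 3)) ^ c ≤ 2 ^ (ℵ_ 3) := by
  rw [← power_mul]
  refine power_le_power_left two_ne_zero ?_
  exact (mul_le_mul' le_rfl hc).trans (mul_eq_self (aleph0_le_aleph 3)).le

theorem aleph_le {m n : ℕ} (h : m ≤ n) : (ℵ_ (m : Ordinal.{0})) ≤ ℵ_ (n : Ordinal.{0}) :=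
  aleph_le_aleph.2 (by exact_mod_cast h)

theorem W1_le : #W1 ≤ ℵ_ 3 := by
  rw [mk_W1]
  have := aleph_le (m := 1) (n := 3) (by norm_num)
  exact_mod_cast this

/-- the system of the iteration -/
noncomputable abbrev SS : Sys (WithTop JJ) := Sy T3 W1 kd

instance : Nonempty W1 := by
  rw [← mk_ne_zero_iff, mk_W1]
  exact (aleph_pos 1).ne'

theorem good_SS (ξ : WithTop JJ) : Good SS ξ := good_Sy kdLt ξ

/-- the notion of forcing -/
abbrev PP : Type := Cd SS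

theorem ccc_PP : CCC PP := cond_ccc good_SS

theorem surj_SS (β : WithTop JJ) : Function.Surjective (en T3 W1 (Vd SS β)) := by
  have h0 : ℵ₀ ≤ (2 : Cardinal.{0}) ^ (ℵ_ 3) := (aleph0_le_aleph 3).trans (cantor _).le
  refine surj_en (θ := 2 ^ (ℵ_ 3)) h0 (theta_pow (aleph0_le_aleph 3)) card_idx
    (W1_le.trans (cantor _).le) (theta_pow W1_le) (by rw [mk_T3]) kdLt β

theorem small_SS (ξ : WithTop JJ) : IsH SS ξ ∨ #(SS.RR ξ) ≤ ℵ_ 1 := by
  rcases h : kd ξ with _ | ⟨β, t⟩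
  · exact Or.inl (isH_Sy kdLt h)
  · right
    show #((Sy T3 W1 kd).RR ξ) ≤ ℵ_ 1
    rw [RR_some h (kdLt ξ β t h).le]
    exact card_QP_le (aleph0_le_aleph 1) mk_W1.le _

/-- subsets of `K3` of size at most `ℵ₂` are bounded -/
theorem cof_K3 (T : Set K3) (hT : #T ≤ ℵ_ 2) : ∃ b, ∀ s ∈ T, s < b := by
  by_contra hcon
  push Not at hcon
  have h1 : IsCofinal T := fun b => by
    obtain ⟨s, hs, hb⟩ := hcon b
    exact ⟨s, hs, hb⟩
  have h2 := Order.cof_le h1
  have hreg : (ℵ_ (3 : Ordinal.{0})).IsRegular := by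
    have : (3 : Ordinal.{0}) = Order.succ 2 := by
      rw [← Ordinal.add_one_eq_succ]; norm_num
    rw [this]
    exact isRegular_aleph_succ 2
  rw [Ordinal.cof_toType, hreg.cof_ord] at h2
  have h3 : (ℵ_ (2 : Ordinal.{0})) < ℵ_ 3 := aleph_lt_aleph.2 (by norm_num)
  exact absurd (h2.trans hT) (not_le.2 h3)

theorem cof_JJ (T : Set JJ) (hT : #T ≤ ℵ_ 2) :
    ∃ b : K3, ∀ s ∈ T, s < (toLex (b, (⊥ : WithBot T3)) : JJ) := by
  obtain ⟨b, hb⟩ := cof_K3 ((fun j : JJ => (ofLex j).1) '' T) (mk_image_le.trans hT)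
  refine ⟨b, fun s hs => ?_⟩
  have := hb _ ⟨s, hs, rfl⟩
  rw [Prod.Lex.lt_iff]
  exact Or.inl this

end Pool.Agent.H652G
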