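import Mathlib
import Pool.Agent.Helper669.Forcing
import Pool.Agent.H652R2.Defs

/-!
# Statements about γ-sets and Hausdorff dimension in the extension

See `Pool.Agent.Helper669.Forcing` for the forcing language and `Pool.Agent.H652R2.Defs` for the
names of real numbers. An open set of reals of the extension is named by a name
`O : ℚ × ℚ → Set P` of a set of open intervals with rational end points; it stands for the union
of the intervals. A family of open sets is named by `U : (ℚ × ℚ → Set P) → Set P`, which sends
every name of an open set to the set of the conditions attached to it. Subsets of a set of reals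
`{E y : y ∈ Y}` which are open in it are named by open sets of reals (their traces on the set).
-/

namespace Pool.Agent.H652G.Defs

open Pool.Agent.Helper669.Forcing Pool.Agent.H652R2.Defs

universe u

variable {P : Type u} [Preorder P]

/-- The real number `x` belongs to the open set `O`. -/
def InOpen (x : ℕ → ℚ → Set P) (O : ℚ × ℚ → Set P) : Set P :=
  fex fun J : ℚ × ℚ => fand (meets (O J)) (InIoo x J.1 J.2)

/-- `O` and `O'` have the same trace on the set of reals `{E y : y ∈ Y}`. -/
def SameTrace {Y : Type} (E : Y → ℕ → ℚ → Set P) (O O' : ℚ × ℚ → Set P) : Set P :=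
  fall fun y => fand (fimp (InOpen (E y) O) (InOpen (E y) O'))
    (fimp (InOpen (E y) O') (InOpen (E y) O))

/-- The trace of `O` on `{E y : y ∈ Y}` is the trace of a member of the family `U`. -/
def IsMember {Y : Type} (E : Y → ℕ → ℚ → Set P) (O : ℚ × ℚ → Set P)
    (U : (ℚ × ℚ → Set P) → Set P) : Set P :=
  fex fun O' : ℚ × ℚ → Set P => fand (meets (U O')) (SameTrace E O O')

/-- The family `U` of open sets is an ω-cover of the set `{E y : y ∈ Y}`: no member contains
the whole set, and every finite subset is contained in a member. -/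
def IsOmegaCover {Y : Type} (E : Y → ℕ → ℚ → Set P) (U : (ℚ × ℚ → Set P) → Set P) : Set P :=
  fand
    (fall fun O : ℚ × ℚ → Set P => fimp (meets (U O)) (fex fun y => fnot (InOpen (E y) O)))
    (fall fun F : Finset Y => fex fun O : ℚ × ℚ → Set P =>
      fand (meets (U O)) (fall fun y => fall fun _ : y ∈ F => InOpen (E y) O))

/-- The set `{V n : n ∈ ℕ}` (of traces on `{E y : y ∈ Y}`) is a γ-cover: it is infinite, and
every `E y` belongs to all but finitely many members. -/
def IsGammaCover {Y : Type} (E : Y → ℕ → ℚ → Set P) (V : ℕ → ℚ × ℚ → Set P) : Set P :=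
  fand
    (fall fun m : ℕ => fex fun n : ℕ => fall fun k : ℕ => fall fun _ : k < m =>
      fnot (SameTrace E (V n) (V k)))
    (fall fun y => fex fun m : ℕ => fall fun n : ℕ =>
      fimp (fnot (InOpen (E y) (V n)))
        (fex fun k : ℕ => fand (fground (k < m)) (SameTrace E (V n) (V k))))

/-- The set of reals `{E y : y ∈ Y}` satisfies `S₁(Ω, Γ)`: for every sequence `U` of open
ω-covers there are `V n ∈ U n` such that `{V n : n ∈ ℕ}` is a γ-cover. -/
def IsGammaSet {Y : Type} (E : Y → ℕ → ℚ → Set P) : Set P :=
  fall fun U : ℕ → (ℚ × ℚ → Set P) → Set P =>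
    fimp (fall fun n => IsOmegaCover E (U n))
      (fex fun V : ℕ → ℚ × ℚ → Set P =>
        fand (fall fun n => IsMember E (V n) (U n)) (IsGammaCover E V))

/-- The length of the interval `J`. -/
def len (J : ℚ × ℚ) : ℝ := max ((J.2 : ℝ) - J.1) 0

/-- The diameter of the rectangle `B.1 × B.2`. -/
noncomputable def diam (B : (ℚ × ℚ) × (ℚ × ℚ)) : ℝ := Real.sqrt (len B.1 ^ 2 + len B.2 ^ 2)

/-- `I` names a sequence of members of `X`, and the sum of the `(1 / (k + 1))`-th powers of their
sizes is at most `c`. -/
def SumLe {X : Type} (sz : X → ℝ) (k : ℕ) (I : ℕ → X → Set P) (c : ℝ) : Set P :=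
  fand (IsFun I) (fall fun l : List X =>
    fimp (fall fun i : ℕ => fall fun J : X => fall fun _ : l[i]? = some J => meets (I i J))
      (fground ((l.map fun J => sz J ^ ((1 : ℝ) / (k + 1))).sum ≤ c)))

/-- The set of reals `{F z : z ∈ Z}` has Hausdorff dimension zero: for every `k` there are
coverings by open intervals such that the sum of the `(1 / (k + 1))`-th powers of the lengths is
arbitrarily small. -/
def IsDimZero {Z : Type} (F : Z → ℕ → ℚ → Set P) : Set P :=
  fall fun k : ℕ => fex fun I : ℕ → ℕ → ℚ × ℚ → Set P => fall fun m : ℕ =>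
    fand (SumLe len k (I m) ((1 / 2) ^ m))
      (fall fun z => fex fun n : ℕ => fex fun J : ℚ × ℚ =>
        fand (meets (I m n J)) (InIoo (F z) J.1 J.2))

/-- The product of the sets of reals `{E y : y ∈ Y}` and `{F z : z ∈ Z}` has Hausdorff dimension
zero: for every `k` there are coverings by open rectangles such that the sum of the
`(1 / (k + 1))`-th powers of the diameters is arbitrarily small. -/
def IsDimZeroProd {Y Z : Type} (E : Y → ℕ → ℚ → Set P) (F : Z → ℕ → ℚ → Set P) : Set P :=
  fall fun k : ℕ => fex fun I : ℕ → ℕ → (ℚ × ℚ) × (ℚ × ℚ) → Set P => fall fun m : ℕ =>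
    fand (SumLe diam k (I m) ((1 / 2) ^ m))
      (fall fun y => fall fun z => fex fun n : ℕ => fex fun B : (ℚ × ℚ) × (ℚ × ℚ) =>
        fand (meets (I m n B)) (fand (InIoo (E y) B.1.1 B.1.2) (InIoo (F z) B.2.1 B.2.2)))

/-- There is an uncountable set of reals satisfying `S₁(Ω, Γ)`. -/
def StatementI (P : Type u) [Preorder P] : Set P :=
  fex fun Y : Type => fex fun E : Y → ℕ → ℚ → Set P =>
    fand (fall fun y => IsReal (E y)) (fand (IsGammaSet E) (fnot (IsCountable E)))

/-- For every set of reals `{E y : y ∈ Y}` satisfying `S₁(Ω, Γ)` and every set of reals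
`{F z : z ∈ Z}` of Hausdorff dimension zero the product has Hausdorff dimension zero. -/
def StatementII (P : Type u) [Preorder P] : Set P :=
  fall fun Y : Type => fall fun E : Y → ℕ → ℚ → Set P =>
    fimp (fand (fall fun y => IsReal (E y)) (IsGammaSet E))
      (fall fun Z : Type => fall fun F : Z → ℕ → ℚ → Set P =>
        fimp (fand (fall fun z => IsReal (F z)) (IsDimZero F)) (IsDimZeroProd E F))

end Pool.Agent.H652G.Defs
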