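import Mathlib
import Pool.Agent.H652G.Defs

/-!
# Names of real numbers: general facts
-/

namespace Pool.Agent.H652G

open Pool.Agent.Helper669.Forcing Pool.Agent.H652R2.Defs Pool.Agent.H652G.Defs

set_option linter.unusedSectionVars false
set_option linter.unusedVariables false

universe u v w

variable {P : Type u} [Preorder P]

/-- statements forced as soon as they are forced densely -/
def Rgl (φ : Set P) : Prop := ∀ p, (∀ q ≤ p, ∃ r ≤ q, r ∈ φ) → p ∈ φ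

theorem rgl_meets (N : Set P) : Rgl (meets N) := by
  intro p h q hq
  obtain ⟨r, hr, h'⟩ := h q hq
  obtain ⟨r', hr', s, hs, hle⟩ := h' r le_rfl
  exact ⟨r', hr'.trans hr, s, hs, hle⟩

theorem rgl_fnot {φ : Set P} (hφ : Down φ) : Rgl (fnot φ) := by
  intro p h q hq hqφ
  obtain ⟨r, hr, h'⟩ := h q hq
  exact h' r le_rfl (hφ _ hqφ _ hr)

theorem rgl_fand {φ ψ : Set P} (h : Rgl φ) (h' : Rgl ψ) : Rgl (fand φ ψ) := fun p hp =>
  ⟨h p fun q hq => by obtain ⟨r, hr, h1⟩ := hp q hq; exact ⟨r, hr, h1.1⟩,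
    h' p fun q hq => by obtain ⟨r, hr, h1⟩ := hp q hq; exact ⟨r, hr, h1.2⟩⟩

theorem rgl_fall {ι : Sort v} {φ : ι → Set P} (h : ∀ i, Rgl (φ i)) : Rgl (fall φ) :=
  fun p hp i => h i p fun q hq => by obtain ⟨r, hr, h1⟩ := hp q hq; exact ⟨r, hr, h1 i⟩

theorem rgl_fex {ι : Sort v} (φ : ι → Set P) : Rgl (fex φ) :=
  rgl_fnot (down_fall fun _ => down_fnot _)

theorem rgl_fimp {φ ψ : Set P} (h : Down φ) : Rgl (fimp φ ψ) :=
  rgl_fnot (down_fand h (down_fnot _))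

theorem rgl_fground (h : Prop) : Rgl (fground (P := P) h) := fun p hp => by
  obtain ⟨_, _, h'⟩ := hp p le_rfl; exact h'

theorem mem_of_fimp {φ ψ : Set P} {p : P} (h : p ∈ fimp φ ψ) (hφ : Down φ) (hψ : Rgl ψ)
    (hp : p ∈ φ) : p ∈ ψ := hψ p fun q hq => mem_fimp.1 h q hq (hφ _ hp _ hq)

theorem fimp_of {φ ψ : Set P} {p : P} (h : ∀ q ≤ p, q ∈ φ → q ∈ ψ) : p ∈ fimp φ ψ :=
  mem_fimp.2 fun q hq hqφ => ⟨q, le_rfl, h q hq hqφ⟩

theorem ground_of_fimp {φ : Set P} {h : Prop} {p : P} (hp : p ∈ fimp φ (fground h))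
    (hφ : p ∈ φ) : h := by
  obtain ⟨_, _, h'⟩ := mem_fimp.1 hp p le_rfl hφ
  exact h'

/-- either some stronger condition forces the statement or the negation is forced -/
theorem exists_or_fnot (φ : Set P) (p : P) : (∃ q ≤ p, q ∈ φ) ∨ p ∈ fnot φ := by
  by_cases h : ∃ q ≤ p, q ∈ φ
  · exact Or.inl h
  · push Not at h
    exact Or.inr h

theorem rgl_of_fnot_fnot {φ : Set P} (hr : Rgl φ) {p : P} (h : p ∈ fnot (fnot φ)) : p ∈ φ := by
  refine hr p fun q hq => ?_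
  rcases exists_or_fnot φ q with h1 | h1
  · exact h1
  · exact absurd h1 (h q hq)

theorem mem_fnot_of {φ : Set P} {p : P} (h : ∀ q ≤ p, q ∉ φ) : p ∈ fnot φ := h

theorem down_IsReal (x : ℕ → ℚ → Set P) : Down (IsReal x) :=
  down_fand (down_IsFun _) (down_fall fun _ => down_fall fun _ => down_fall fun _ =>
    down_fall fun _ => down_fall fun _ => down_fimp _ _)

theorem down_InIoo (x : ℕ → ℚ → Set P) (a b : ℚ) : Down (InIoo x a b) := down_fex _

theorem down_InOpen (x : ℕ → ℚ → Set P) (O : ℚ × ℚ → Set P) : Down (InOpen x O) := down_fex _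

theorem down_SameR (x y : ℕ → ℚ → Set P) : Down (SameR x y) :=
  down_fall fun _ => down_fall fun _ => down_fall fun _ => down_fimp _ _

theorem rgl_SameR (x y : ℕ → ℚ → Set P) : Rgl (SameR x y) :=
  rgl_fall fun _ => rgl_fall fun _ => rgl_fall fun _ =>
    rgl_fimp (down_fand (down_meets _) (down_meets _))

theorem IsReal.total {x : ℕ → ℚ → Set P} {p : P} (h : p ∈ IsReal x) (n : ℕ) :
    ∃ q ≤ p, ∃ a, q ∈ meets (x n a) := IsFun.total h.1 n

theorem IsReal.close {x : ℕ → ℚ → Set P} {p : P} (h : p ∈ IsReal x) {m n : ℕ} (hmn : m ≤ n)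
    {a b : ℚ} (ha : p ∈ meets (x m a)) (hb : p ∈ meets (x n b)) : |a - b| ≤ (1 / 2) ^ m :=
  ground_of_fimp (h.2 m n hmn a b) ⟨ha, hb⟩

theorem exists_of_InIoo {x : ℕ → ℚ → Set P} {c d : ℚ} {p : P} (h : p ∈ InIoo x c d) :
    ∃ q ≤ p, ∃ n a, c + (1 / 2) ^ n < a ∧ a + (1 / 2) ^ n < d ∧ q ∈ meets (x n a) := by
  obtain ⟨q, hq, n, h1⟩ := mem_fex.1 h p le_rfl
  obtain ⟨r, hr, a, h2⟩ := mem_fex.1 h1 q le_rfl
  exact ⟨r, hr.trans hq, n, a, h2.1.1, h2.1.2, h2.2⟩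

theorem InIoo_of {x : ℕ → ℚ → Set P} {c d : ℚ} {p : P} {n : ℕ} {a : ℚ}
    (h1 : c + (1 / 2) ^ n < a) (h2 : a + (1 / 2) ^ n < d) (h3 : p ∈ meets (x n a)) :
    p ∈ InIoo x c d :=
  mem_fex_of_mem n (down_fex _) (mem_fex_of_mem a (down_fand (down_fground _) (down_meets _))
    ⟨⟨h1, h2⟩, h3⟩)

theorem approx {x : ℕ → ℚ → Set P} {c d : ℚ} {p : P} (hx : p ∈ IsReal x)
    (h : p ∈ InIoo x c d) {n : ℕ} {a : ℚ} (ha : p ∈ meets (x n a)) :
    c - (1 / 2) ^ n < a ∧ a < d + (1 / 2) ^ n := by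
  obtain ⟨q, hq, m, b, h1, h2, h3⟩ := exists_of_InIoo h
  have hx' := down_IsReal _ _ hx _ hq
  have ha' := down_meets _ _ ha _ hq
  have hp1 : (0 : ℚ) < (1 / 2) ^ n := by positivity
  have hp2 : (0 : ℚ) < (1 / 2) ^ m := by positivity
  rcases le_total n m with hnm | hnm
  · have h4 := IsReal.close hx' hnm ha' h3
    rw [abs_le] at h4
    constructor <;> linarith [h4.1, h4.2]
  · have h4 := IsReal.close hx' hnm h3 ha'
    rw [abs_le] at h4
    constructor <;> linarith [h4.1, h4.2]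

/-- a witness for the inequality of two reals -/
theorem exists_ne {x y : ℕ → ℚ → Set P} {p : P} (h : p ∉ SameR x y) :
    ∃ q ≤ p, ∃ n a b, q ∈ meets (x n a) ∧ q ∈ meets (y n b) ∧ 2 * (1 / 2 : ℚ) ^ n < |a - b| := by
  by_contra hcon
  push Not at hcon
  refine h fun n a b => fimp_of fun q hq hq' => ?_
  exact hcon q hq n a b hq'.1 hq'.2

theorem exists_pow_lt {e : ℚ} (h : 0 < e) : ∃ n : ℕ, (1 / 2 : ℚ) ^ n < e :=
  exists_pow_lt_of_lt_one h (by norm_num)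

/-- equal reals belong to the same intervals -/
theorem InIoo_of_SameR {x y : ℕ → ℚ → Set P} {c d : ℚ} {p : P} (hx : p ∈ IsReal x)
    (hy : p ∈ IsReal y) (hxy : p ∈ SameR x y) (h : p ∈ InIoo x c d) : p ∈ InIoo y c d := by
  refine rgl_fex _ p fun q hq => ?_
  obtain ⟨r, hr, n, a, h1, h2, h3⟩ := exists_of_InIoo (down_InIoo _ _ _ _ h _ hq)
  have hrp := hr.trans hq
  obtain ⟨m, hm⟩ := exists_pow_lt (e := min (a - (1 / 2) ^ n - c) (d - (a + (1 / 2) ^ n)) / 4) (by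
    have : 0 < min (a - (1 / 2) ^ n - c) (d - (a + (1 / 2) ^ n)) := lt_min (by linarith) (by linarith)
    linarith)
  set N := max m n with hN
  have hNm : (1 / 2 : ℚ) ^ N ≤ (1 / 2) ^ m :=
    pow_le_pow_of_le_one (by norm_num) (by norm_num) (le_max_left _ _)
  obtain ⟨s, hs, a', ha'⟩ := IsReal.total (down_IsReal _ _ hx _ hrp) N
  obtain ⟨t, ht, b, hb⟩ := IsReal.total (down_IsReal _ _ hy _ (hs.trans hrp)) N
  have hts := ht.trans hs
  have h4 := IsReal.close (down_IsReal _ _ hx _ (hts.trans hrp)) (le_max_right m n)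
    (down_meets _ _ h3 _ hts) (down_meets _ _ ha' _ ht)
  have h5 : |a' - b| ≤ 2 * (1 / 2) ^ N :=
    ground_of_fimp (down_SameR _ _ _ hxy _ (hts.trans hrp) N a' b) ⟨down_meets _ _ ha' _ ht, hb⟩
  rw [abs_le] at h4 h5
  have h6 := min_le_left (a - (1 / 2) ^ n - c) (d - (a + (1 / 2) ^ n))
  have h7 := min_le_right (a - (1 / 2) ^ n - c) (d - (a + (1 / 2) ^ n))
  refine ⟨t, hts.trans hr, InIoo_of (n := N) (a := b) ?_ ?_ hb⟩
  · linarith [h4.1, h4.2, h5.1, h5.2]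
  · linarith [h4.1, h4.2, h5.1, h5.2]

theorem SameR_symm {x y : ℕ → ℚ → Set P} {p : P} (h : p ∈ SameR x y) : p ∈ SameR y x := by
  intro n a b
  refine fimp_of fun q hq hq' => ?_
  have := ground_of_fimp (down_SameR _ _ _ h _ hq n b a) ⟨hq'.2, hq'.1⟩
  show |a - b| ≤ _
  rwa [abs_sub_comm]

/-- a small interval around a real can be found -/
theorem exists_small {x : ℕ → ℚ → Set P} {p : P} (hx : p ∈ IsReal x) (n : ℕ) :
    ∃ q ≤ p, ∃ a : ℚ, q ∈ meets (x n a) ∧ ∀ c d, c + (1 / 2) ^ n < a → a + (1 / 2) ^ n < d →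
      q ∈ InIoo x c d := by
  obtain ⟨q, hq, a, ha⟩ := IsReal.total hx n
  exact ⟨q, hq, a, ha, fun c d h1 h2 => InIoo_of h1 h2 ha⟩

end Pool.Agent.H652G
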