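import Mathlib
import Pool.Agent.H652G.Idx
import Pool.Agent.H652G.RealN

/-!
# Statements decided below a coordinate, and the generic functions at the small coordinates
-/

namespace Pool.Agent.H652G

open Cardinal Pool.Agent.Helper669.Forcing

set_option linter.unusedSectionVars false
set_option linter.unusedVariables false

section

variable {J : Type} [LinearOrder J] [WellFoundedLT J] {S : Sys (WithTop J)}

/-- the statement is forced by the part of the condition below `ξ` -/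
def LocP (ξ : WithTop J) (φ : Set (Cd S)) : Prop := ∀ p ∈ φ, resP p ξ ∈ φ

theorem LocP.fnot {ξ : WithTop J} {φ : Set (Cd S)} (h : LocP ξ φ) (hd : Down φ) :
    LocP ξ (fnot φ) := by
  intro p hp q hq hqφ
  have h1 := h q hqφ
  have h2 : resP q ξ ≤ resP p ξ := resP_le hq (below_res _ _)
  exact hp (glueP (resP q ξ) p ξ) (glueP_le h2)
    (hd _ h1 _ (glueP_le_left (below_res _ _)))

theorem LocP.fand {ξ : WithTop J} {φ ψ : Set (Cd S)} (h : LocP ξ φ) (h' : LocP ξ ψ) :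
    LocP ξ (fand φ ψ) := fun p hp => ⟨h p hp.1, h' p hp.2⟩

theorem LocP.fall {ι : Sort*} {ξ : WithTop J} {φ : ι → Set (Cd S)} (h : ∀ i, LocP ξ (φ i)) :
    LocP ξ (fall φ) := fun p hp i => h i p (hp i)

theorem LocP.fground {ξ : WithTop J} (h : Prop) : LocP (S := S) ξ (fground h) := fun _ hp => hp

theorem LocP.fex {ι : Sort*} {ξ : WithTop J} {φ : ι → Set (Cd S)} (h : ∀ i, LocP ξ (φ i))
    (hd : ∀ i, Down (φ i)) : LocP ξ (fex φ) :=
  LocP.fnot (LocP.fall fun i => (h i).fnot (hd i)) (down_fall fun i => down_fnot _)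

theorem LocP.fimp {ξ : WithTop J} {φ ψ : Set (Cd S)} (h : LocP ξ φ) (h' : LocP ξ ψ)
    (hd : Down φ) (hd' : Down ψ) : LocP ξ (fimp φ ψ) :=
  LocP.fnot (h.fand (h'.fnot hd')) (down_fand hd (down_fnot _))

theorem locP_meets {ξ : WithTop J} {N : Set (Cd S)} {A : Set (Cd S)}
    (h1 : ∀ a ∈ A, Below a.1 ξ) (h2 : ∀ a ∈ A, a ∈ meets N ∨ a ∈ fnot (meets N))
    (h3 : ∀ p, ∃ a ∈ A, Compat a p) : LocP ξ (meets N) := by
  intro p hp
  refine rgl_meets N _ fun q hq => ?_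
  obtain ⟨a, ha, s, hs1, hs2⟩ := h3 q
  rcases h2 a ha with h4 | h4
  · exact ⟨s, hs2, down_meets _ _ h4 _ hs1⟩
  · exfalso
    have h5 : resP s ξ ≤ a := resP_le hs1 (h1 a ha)
    have h6 : resP s ξ ≤ resP p ξ := resP_le (hs2.trans hq) (below_res _ _)
    exact h4 (glueP (resP s ξ) p ξ) ((glueP_le_left (below_res _ _)).trans h5)
      (down_meets _ _ hp _ (glueP_le h6))

/-- the statement is decided by a countable maximal antichain of conditions below `ξ` -/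
def Dec (ξ : WithTop J) (φ : Set (Cd S)) (A : Set (Cd S)) : Prop :=
  A.Countable ∧ (∀ a ∈ A, Below a.1 ξ) ∧ (∀ a ∈ A, a ∈ φ ∨ a ∈ fnot φ) ∧ ∀ p, ∃ a ∈ A, Compat a p

theorem exists_Dec (hG : ∀ ξ, Good S ξ) {ξ : WithTop J} {φ : Set (Cd S)} (hd : Down φ)
    (hl : LocP ξ φ) : ∃ A, Dec ξ φ A := by
  let D : Set (Ctx.PV S ξ) := {p | (⟨p.1, Vd_mono le_top p.2⟩ : Cd S) ∈ φ ∨
    (⟨p.1, Vd_mono le_top p.2⟩ : Cd S) ∈ fnot φ}
  obtain ⟨A, h1, h2, h3, _⟩ := exists_antichain (Ctx.ccc_PV hG) (P := Ctx.PV S ξ) D (by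
    intro p
    rcases exists_or_fnot φ (⟨p.1, Vd_mono le_top p.2⟩ : Cd S) with ⟨q, hq, hqφ⟩ | h
    · exact ⟨⟨(resP q ξ).1, resP_mem q ξ⟩,
        resP_le (q := (⟨p.1, Vd_mono le_top p.2⟩ : Cd S)) hq p.2.2, Or.inl (hl q hqφ)⟩
    · exact ⟨p, le_rfl, Or.inr h⟩)
  refine ⟨(fun p : Ctx.PV S ξ => (⟨p.1, Vd_mono le_top p.2⟩ : Cd S)) '' A, h2.image _, ?_, ?_, ?_⟩
  · rintro _ ⟨a, _, rfl⟩; exact a.2.2
  · rintro _ ⟨a, ha, rfl⟩; exact h1 ha
  · intro p
    obtain ⟨a, ha, s, hs1, hs2⟩ := h3 ⟨(resP p ξ).1, resP_mem p ξ⟩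
    refine ⟨_, ⟨a, ha, rfl⟩, glueP ⟨s.1, Vd_mono le_top s.2⟩ p ξ, ?_, glueP_le hs2⟩
    exact (glueP_le_left (q := (⟨s.1, Vd_mono le_top s.2⟩ : Cd S)) s.2.2).trans hs1

/-- the open set given by a decided statement -/
def opS (φ : Set (Cd S)) (A : Set (Cd S)) (ξ : WithTop J) : Set (Om (WithTop J)) :=
  ⋃ a ∈ Subtype.val '' {a : Cd S | a ∈ A ∧ a ∈ φ}, bs a ξ

theorem mem_of_bs_subset (hG : ∀ ξ, Good S ξ) {ξ ζ : WithTop J} {φ : Set (Cd S)} {A : Set (Cd S)}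
    (hd : Down φ) (hr : Rgl φ) (hA : Dec ξ φ A) {p : Cd S} (h : bs p.1 ζ ⊆ opS φ A ξ) :
    p ∈ φ := by
  refine hr p fun q hq => ?_
  obtain ⟨w, hw⟩ := bs_nonempty hG q.2
  have h1 := h (bs_le (show q.1 ≤ p.1 from hq) ζ (hw ζ))
  simp only [opS, Set.mem_iUnion] at h1
  obtain ⟨_, ⟨a, ha, rfl⟩, hwa⟩ := h1
  rw [← bs_below (hA.2.1 a ha.1) (le_top : ξ ≤ ⊤)] at hwa
  obtain ⟨s, h2, h3, h4⟩ := compat_of_point hG q.2 a.2 (hw ⊤) hwa
  exact ⟨⟨s, h2⟩, h3, hd a ha.2 ⟨s, h2⟩ h4⟩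

theorem exists_bs_subset {ξ : WithTop J} {φ : Set (Cd S)} {A : Set (Cd S)}
    (hd : Down φ) (hA : Dec ξ φ A) {p : Cd S} (hpφ : p ∈ φ) (hp : Below p.1 ξ) :
    ∃ q ≤ p, Below q.1 ξ ∧ bs q.1 ξ ⊆ opS φ A ξ := by
  obtain ⟨a, ha, s, hs1, hs2⟩ := hA.2.2.2 p
  have h1 : a ∈ φ := by
    rcases hA.2.2.1 a ha with h | h
    · exact h
    · exact absurd (hd p hpφ s hs2) (h s hs1)
  refine ⟨resP s ξ, resP_le hs2 hp, below_res _ _, fun w hw => ?_⟩
  have h2 : resP s ξ ≤ a := resP_le hs1 (hA.2.1 a ha)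
  exact Set.mem_biUnion (x := a.1) ⟨a, ⟨ha, h1⟩, rfl⟩ (bs_le (show (resP s ξ).1 ≤ a.1 from h2) ξ hw)

end

/-! ### Adding promises -/

section

variable {I : Type} [LinearOrder I] {S : Sys I}

open Classical in
/-- adding a promise -/
noncomputable def addG (r : Rep I) (η : I) (R : Pr I) : Rep I where
  st := r.st
  pr ζ := if ζ = η then insert R (r.pr ζ) else r.pr ζ
  fin := by
    refine (r.fin.union (Set.finite_singleton η)).subset fun ζ hζ => ?_
    by_cases h : ζ = η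
    · right; exact h
    · left; simpa [h] using hζ

theorem addG_pr (r : Rep I) (η : I) (R : Pr I) : R ∈ (addG r η R).pr η := by
  classical
  simp [addG]

theorem addG_le (r : Rep I) (η : I) (R : Pr I) : addG r η R ≤ r := fun ζ => by
  classical
  refine ⟨List.prefix_refl _, ?_, fun _ _ _ h h' => absurd h' (not_lt.2 h)⟩
  by_cases h : ζ = η
  · simp [addG, h]
  · simp [addG, h]

theorem addG_mem {r : Rep I} {τ η : I} {R : Pr I} (hr : r ∈ Vd S τ) (hη : η < τ)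
    (hR : R ∈ S.RR η) (hc : (r.pr η).card < (r.st η).length) :
    addG r η R ∈ Vd S τ := by
  classical
  refine ⟨fun ζ => ?_, fun ζ hζ => ⟨(hr.2 ζ hζ).1, ?_⟩⟩
  · by_cases h : ζ = η
    · subst h
      simp only [addG, if_true]
      refine ⟨fun R' hR' => ?_, fun _ => (Finset.card_insert_le _ _).trans hc⟩
      rcases Finset.mem_insert.1 hR' with rfl | hR'
      · exact hR
      · exact (hr.1 _).1 _ hR'
    · simp only [addG, h, if_false]
      exact hr.1 ζ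
  · have h : ζ ≠ η := (hη.trans_le hζ).ne'
    simp only [addG, h, if_false]
    exact (hr.2 ζ hζ).2

/-- the stem at `η` can be prolonged and a promise can be added -/
theorem exists_promise (hG : ∀ ξ, Good S ξ) [WellFoundedLT I] {r : Rep I} {τ η : I} {R : Pr I}
    (hr : r ∈ Vd S τ) (hη : η < τ) (hR : R ∈ S.RR η) :
    ∃ r' ∈ Vd S τ, r' ≤ r ∧ R ∈ r'.pr η := by
  obtain ⟨r1, h1, h2, h3, h4, _⟩ := exists_long hG hr hη ((r.pr η).card + 1)
  refine ⟨addG r1 η R, addG_mem h1 hη hR ?_, (addG_le _ _ _).trans h2, addG_pr _ _ _⟩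
  rw [h4]; omega

end

/-! ### The generic functions -/

/-- the value at `n` of the function added at `ζ` is `m` -/
def gn (ζ : WithTop JJ) (n m : ℕ) : Set PP :=
  {p | n < (p.1.st ζ).length ∧ (p.1.st ζ).getD n 0 = m}

theorem down_gn (ζ : WithTop JJ) (n m : ℕ) : Down (gn ζ n m) := by
  rintro p ⟨h1, h2⟩ q hq
  obtain ⟨h3, h4⟩ := st_mono hq ζ h1
  exact ⟨h3, by rw [h4]; exact h2⟩

theorem exists_gn {ζ : WithTop JJ} (hζ : ζ < ⊤) (p : PP) (n : ℕ) : ∃ q ≤ p, ∃ m, q ∈ gn ζ n m := by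
  obtain ⟨r, h1, h2, h3, _⟩ := exists_long good_SS p.2 hζ (n + 1)
  exact ⟨⟨r, h1⟩, h2, _, (by show n < (r.st ζ).length; omega), rfl⟩

theorem exists_of_meets_gn {ζ : WithTop JJ} {n m : ℕ} {p : PP} (h : p ∈ meets (gn ζ n m)) :
    ∃ q ≤ p, q ∈ gn ζ n m := exists_of_meets (down_gn ζ n m) h

theorem gn_unique {ζ : WithTop JJ} {n m m' : ℕ} {p : PP} (h : p ∈ meets (gn ζ n m))
    (h' : p ∈ meets (gn ζ n m')) : m = m' := by
  obtain ⟨q, hq, h1⟩ := exists_of_meets_gn h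
  obtain ⟨r, hr, h2⟩ := exists_of_meets_gn (down_meets _ _ h' _ hq)
  rw [← (down_gn ζ n m _ h1 _ hr).2, h2.2]

theorem isFun_gn {ζ : WithTop JJ} (hζ : ζ < ⊤) (p : PP) : p ∈ IsFun (gn ζ) := by
  refine ⟨fun n => mem_fex.2 fun q hq => ?_, fun n a b => fimp_of fun q hq hq' => gn_unique hq'.1 hq'.2⟩
  obtain ⟨r, hr, m, h⟩ := exists_gn hζ q n
  exact ⟨r, hr, m, meets_of_mem h⟩

/-- the coordinate `(b, ⊥)` -/
abbrev cb (b : K3) : WithTop JJ := ((toLex (b, (⊥ : WithBot T3)) : JJ) : WithTop JJ)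
/-- the coordinate `(b, t)` -/
abbrev ct (b : K3) (t : T3) : WithTop JJ := ((toLex (b, (t : WithBot T3)) : JJ) : WithTop JJ)

theorem cb_lt_top (b : K3) : cb b < ⊤ := WithTop.coe_lt_top _
theorem ct_lt_top (b : K3) (t : T3) : ct b t < ⊤ := WithTop.coe_lt_top _
theorem cb_lt_ct (b : K3) (t : T3) : cb b < ct b t := WithTop.coe_lt_coe.2 (bot_lt b t)

/-- Names for sequences of sets of integers (`Φ i n m` says that `m` belongs to the `n`-th set of
index `i`), any `n` of which meet at `n`, are all met by some generic function from some point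
on. -/
theorem exists_generic (b : K3) (Φ : W1 → ℕ → ℕ → Set PP) (hd : ∀ i n m, Down (Φ i n m))
    (hr : ∀ i n m, Rgl (Φ i n m)) (hl : ∀ i n m, LocP (cb b) (Φ i n m))
    (hN : ∀ n, ∀ F : Finset W1, F.card ≤ n → ∀ q : PP, ∃ q' ≤ q, ∃ m, ∀ i ∈ F, q' ∈ Φ i n m) :
    ∃ t : T3, ∀ i, ∀ p : PP, ∃ q ≤ p, ∃ k, ∀ n ≥ k, ∀ m, ∀ r ≤ q, r ∈ meets (gn (ct b t) n m) →
      r ∈ Φ i n m := by
  classical
  choose A hA using fun i n m => exists_Dec good_SS (hd i n m) (hl i n m)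
  -- the code
  have hcode : ∀ i n m, ∃ c : ℕ → Option (Vd SS (cb b)),
      opS (Φ i n m) (A i n m) (cb b) = ⋃ k, (c k).elim ∅ fun q => bs q.1 (cb b) := by
    intro i n m
    exact COp_of_countable (A := Subtype.val '' {a : PP | a ∈ A i n m ∧ a ∈ Φ i n m})
      (by rintro _ ⟨a, ha, rfl⟩; exact ⟨a.2.1, (hA i n m).2.1 a ha.1⟩)
      (((hA i n m).1.mono fun a ha => ha.1).image _)
  choose c hc using hcode
  obtain ⟨t, ht⟩ := surj_SS (cb b) c
  have hev : ∀ i (s : List ℕ) m, ev (cb b) c i s m = opS (Φ i s.length m) (A i s.length m) (cb b) :=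
    fun i s m => (hc i s.length m).symm
  have hNint : Nint (cb b) c := by
    intro s F hF q hq
    obtain ⟨q', h1, m, h2⟩ := hN s.length F hF ⟨q, Vd_mono le_top hq⟩
    have h3 : resP q' (cb b) ≤ (⟨q, Vd_mono le_top hq⟩ : PP) := resP_le h1 hq.2
    have h4 : ∀ i ∈ F, resP q' (cb b) ∈ Φ i s.length m := fun i hi => hl i _ m _ (h2 i hi)
    have key : ∀ G : Finset W1, G ⊆ F → ∃ q'' : PP, q'' ≤ resP q' (cb b) ∧ Below q''.1 (cb b) ∧
        ∀ i ∈ G, bs q''.1 (cb b) ⊆ ev (cb b) c i s m := by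
      intro G
      induction G using Finset.induction_on with
      | empty => intro _; exact ⟨resP q' (cb b), le_rfl, below_res _ _, by simp⟩
      | insert i G _ ih =>
        intro hG
        obtain ⟨q1, h5, h6, h7⟩ := ih ((Finset.subset_insert i G).trans hG)
        obtain ⟨q2, h8, h9, h10⟩ := exists_bs_subset (hd i s.length m) (hA i s.length m)
          (hd _ _ _ _ (h4 i (hG (Finset.mem_insert_self i G))) q1 h5) h6
        refine ⟨q2, h8.trans h5, h9, fun j hj => ?_⟩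
        rcases Finset.mem_insert.1 hj with rfl | hj
        · rw [hev]; exact h10
        · exact (bs_le (show q2.1 ≤ q1.1 from h8) _).trans (h7 j hj)
    obtain ⟨q'', h5, h6, h7⟩ := key F (Finset.Subset.refl _)
    exact ⟨q''.1, ⟨q''.2.1, h6⟩, h5.trans h3, m, h7⟩
  refine ⟨t, fun i p => ?_⟩
  have hRR : SS.RR (ct b t) = Set.range (ev (cb b) c) := by
    have h1 : kd (ct b t) = some (cb b, t) := kd_coe b t
    rw [RR_some h1 (cb_lt_ct b t).le, ht, QP, if_pos hNint]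
  obtain ⟨q, h1, h2, h3⟩ := exists_promise (S := SS) good_SS p.2 (ct_lt_top b t)
    (R := ev (cb b) c i) (by rw [hRR]; exact ⟨i, rfl⟩)
  refine ⟨⟨q, h1⟩, h2, (q.st (ct b t)).length, fun n hn m r hr' hm => ?_⟩
  refine hr i n m r fun r' hr'' => ?_
  obtain ⟨s, hs, h4, h5⟩ := exists_of_meets_gn (down_meets _ _ hm _ hr'')
  refine ⟨s, hs, ?_⟩
  have h6 := ((hs.trans hr'').trans hr' (ct b t)).2.2 (ev (cb b) c i) h3 n hn h4
  rw [h5, hev] at h6
  have h7 : ((s.1.st (ct b t)).take n).length = n := by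
    rw [List.length_take]; omega
  rw [h7] at h6
  exact mem_of_bs_subset good_SS (hd i n m) (hr i n m) (hA i n m) h6

end Pool.Agent.H652G
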