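import Mathlib
import Pool.Agent.H652G.Task

/-!
# The special covers
-/

namespace Pool.Agent.H652G

open Cardinal Pool.Agent.Helper669.Forcing Pool.Agent.H652R2.Defs Pool.Agent.H652G.Defs

set_option linter.unusedSectionVars false
set_option linter.unusedVariables false

/-- the possible members of the covers: `k` or fewer grid intervals of mesh `1 / (l + 1)` -/
def UU : Type := {u : ℕ × ℕ × Finset ℤ // u.2.2.card ≤ u.1 ∧
  ∀ i ∈ u.2.2, |i| ≤ ((u.2.1 : ℤ) + 1) * ((u.1 : ℤ) + 1)}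

def uk (u : UU) : ℕ := u.1.1
def ul (u : UU) : ℕ := u.1.2.1
def us (u : UU) : Finset ℤ := u.1.2.2

theorem card_us (u : UU) : (us u).card ≤ uk u := u.2.1

theorem fin_UU (K L : ℕ) : {u : UU | uk u = K ∧ ul u = L}.Finite := by
  classical
  let B : ℤ := ((L : ℤ) + 1) * ((K : ℤ) + 1)
  have h : {u : UU | uk u = K ∧ ul u = L} ⊆
      us ⁻¹' ((Finset.Icc (-B) B).powerset : Set (Finset ℤ)) ∩ {u | uk u = K ∧ ul u = L} := by
    rintro u ⟨h1, h2⟩
    refine ⟨?_, h1, h2⟩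
    rw [Set.mem_preimage, Finset.mem_coe, Finset.mem_powerset]
    intro i hi
    have := u.2.2 i hi
    rw [Finset.mem_Icc, ← abs_le]
    have h1' : u.1.1 = K := h1
    have h2' : u.1.2.1 = L := h2
    rw [h1', h2'] at this
    exact this
  refine Set.Finite.subset (Set.Finite.of_injOn (f := us)
    (t := ((Finset.Icc (-B) B).powerset : Set (Finset ℤ))) (fun u hu => hu.1) ?_
    (Finset.finite_toSet _)) h
  rintro ⟨⟨k, l, s⟩, hu⟩ ⟨_, h1, h2⟩ ⟨⟨k', l', s'⟩, hu'⟩ ⟨_, h1', h2'⟩ h3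
  simp only [uk, ul, us] at h1 h2 h1' h2' h3
  subst h1 h2 h1' h2' h3
  rfl

theorem dummy_UU (K L : ℕ) : ∃ u : UU, uk u = K ∧ ul u = L :=
  ⟨⟨(K, L, ∅), by simp, by simp⟩, rfl, rfl⟩

/-- the grid interval -/
def iv (l : ℕ) (i : ℤ) : ℚ × ℚ := (((i : ℚ) - 1) / ((l : ℚ) + 1), ((i : ℚ) + 1) / ((l : ℚ) + 1))

theorem iv_len (l : ℕ) (i : ℤ) : (iv l i).2 - (iv l i).1 = 2 / ((l : ℚ) + 1) := by
  simp only [iv]
  field_simp
  ring

variable {P : Type} [Preorder P]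

/-- the open set -/
def op (u : UU) (J : ℚ × ℚ) : Set P := fground (∃ i ∈ us u, J = iv (ul u) i)

theorem meets_fground {h : Prop} {p : P} : p ∈ meets (fground (P := P) h) ↔ h := by
  constructor
  · intro hp
    obtain ⟨_, _, s, hs, _⟩ := hp p le_rfl
    exact hs
  · intro hh
    exact meets_of_mem (show p ∈ fground h from hh)

theorem exists_of_InOpen {x : ℕ → ℚ → Set P} {u : UU} {p : P} (h : p ∈ InOpen x (op u)) :
    ∃ q ≤ p, ∃ i ∈ us u, q ∈ InIoo x (iv (ul u) i).1 (iv (ul u) i).2 := by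
  obtain ⟨q, hq, J, h1, h2⟩ := mem_fex.1 h p le_rfl
  obtain ⟨i, hi, rfl⟩ := meets_fground.1 h1
  exact ⟨q, hq, i, hi, h2⟩

theorem InOpen_of {x : ℕ → ℚ → Set P} {u : UU} {p : P} {i : ℤ} (hi : i ∈ us u)
    (h : p ∈ InIoo x (iv (ul u) i).1 (iv (ul u) i).2) : p ∈ InOpen x (op u) :=
  mem_fex_of_mem (iv (ul u) i) (down_fand (down_meets _) (down_InIoo _ _ _))
    ⟨meets_fground.2 ⟨i, hi, rfl⟩, h⟩

/-- two reals in the same interval are close -/
theorem close_of_InIoo {x y : ℕ → ℚ → Set P} {c d : ℚ} {p : P} (hx : p ∈ IsReal x)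
    (hy : p ∈ IsReal y) (h1 : p ∈ InIoo x c d) (h2 : p ∈ InIoo y c d) {n : ℕ} {a b : ℚ}
    (ha : p ∈ meets (x n a)) (hb : p ∈ meets (y n b)) : |a - b| < (d - c) + 2 * (1 / 2) ^ n := by
  obtain ⟨h3, h4⟩ := approx hx h1 ha
  obtain ⟨h5, h6⟩ := approx hy h2 hb
  rw [abs_lt]
  constructor <;> linarith

/-- finding the interval of a real -/
theorem exists_iv {x : ℕ → ℚ → Set P} {p : P} (hx : p ∈ IsReal x) (l : ℕ) {a : ℚ} {K : ℕ}
    (ha : p ∈ meets (x 0 a)) (hK : |a| + 1 ≤ K) : ∃ q ≤ p, ∃ i : ℤ,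
      |i| ≤ ((l : ℤ) + 1) * ((K : ℤ) + 1) ∧ q ∈ InIoo x (iv l i).1 (iv l i).2 := by
  have hl : (0 : ℚ) < (l : ℚ) + 1 := by positivity
  obtain ⟨n, hn⟩ := exists_pow_lt (e := 1 / (4 * ((l : ℚ) + 1))) (by positivity)
  obtain ⟨q, hq, a', ha'⟩ := IsReal.total hx n
  have h1 := IsReal.close (down_IsReal _ _ hx _ hq) (Nat.zero_le n) (down_meets _ _ ha _ hq) ha'
  rw [pow_zero] at h1
  set i : ℤ := round (a' * ((l : ℚ) + 1)) with hi
  have h2 : |a' * ((l : ℚ) + 1) - i| ≤ 1 / 2 := abs_sub_round _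
  have h3 : |a'| ≤ K := by
    have h4 : |a'| - |a| ≤ |a - a'| := by
      rw [abs_sub_comm]; exact abs_sub_abs_le_abs_sub a' a
    linarith
  refine ⟨q, hq, i, ?_, InIoo_of (n := n) (a := a') ?_ ?_ ha'⟩
  · have h5 : |(i : ℚ)| ≤ ((l : ℚ) + 1) * ((K : ℚ) + 1) := by
      have h6 : |(i : ℚ)| ≤ |a' * ((l : ℚ) + 1)| + 1 / 2 := by
        have := abs_sub_abs_le_abs_sub (i : ℚ) (a' * ((l : ℚ) + 1))
        rw [abs_sub_comm] at this
        linarith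
      rw [abs_mul, abs_of_pos hl] at h6
      have h7 : |a'| * ((l : ℚ) + 1) ≤ K * ((l : ℚ) + 1) := mul_le_mul_of_nonneg_right h3 hl.le
      have h8 : (0 : ℚ) ≤ l := Nat.cast_nonneg l
      nlinarith
    exact_mod_cast h5
  · simp only [iv]
    rw [abs_le] at h2
    have h4 : ((i : ℚ) - 1) / ((l : ℚ) + 1) + 1 / (4 * ((l : ℚ) + 1)) < a' := by
      have : ((i : ℚ) - 1) / ((l : ℚ) + 1) + 1 / (4 * ((l : ℚ) + 1)) =
        ((i : ℚ) - 3 / 4) / ((l : ℚ) + 1) := by field_simp; ring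
      rw [this, div_lt_iff₀ hl]
      linarith [h2.1, h2.2]
    linarith
  · simp only [iv]
    rw [abs_le] at h2
    have h4 : a' + 1 / (4 * ((l : ℚ) + 1)) < ((i : ℚ) + 1) / ((l : ℚ) + 1) := by
      have : a' < ((i : ℚ) + 3 / 4) / ((l : ℚ) + 1) := by
        rw [lt_div_iff₀ hl]
        linarith [h2.1, h2.2]
      have h5 : ((i : ℚ) + 3 / 4) / ((l : ℚ) + 1) + 1 / (4 * ((l : ℚ) + 1)) =
        ((i : ℚ) + 1) / ((l : ℚ) + 1) := by field_simp; ring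
      linarith
    linarith

end Pool.Agent.H652G
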