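import Mathlib
import Pool.Agent.H652G.Vals

/-!
# The special covers are ω-covers
-/

namespace Pool.Agent.H652G

open Cardinal Pool.Agent.Helper669.Forcing Pool.Agent.H652R2.Defs Pool.Agent.H652G.Defs

set_option linter.unusedSectionVars false
set_option linter.unusedVariables false

section

variable {P : Type} [Preorder P]

/-- the name of a ground model real -/
def gr (a : ℕ → ℚ) (n : ℕ) (c : ℚ) : Set P := fground (a n = c)

theorem isReal_gr {a : ℕ → ℚ} (h : ∀ m n, m ≤ n → |a m - a n| ≤ (1 / 2) ^ m) (p : P) :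
    p ∈ IsReal (gr (P := P) a) := by
  refine ⟨⟨fun n => mem_fex_of_mem (a n) (down_meets _) (meets_fground.2 rfl),
    fun n c d => fimp_of fun q _ hq => ?_⟩, fun m n hmn c d => fimp_of fun q _ hq => ?_⟩
  · have h1 := meets_fground.1 hq.1
    have h2 := meets_fground.1 hq.2
    show c = d
    rw [← h1, ← h2]
  · have h1 := meets_fground.1 hq.1
    have h2 := meets_fground.1 hq.2
    show |c - d| ≤ _
    rw [← h1, ← h2]
    exact h m n hmn

variable {Y : Type}

/-- the set of reals is contained in the range of a family indexed by `ω₁` -/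
def IsSmall (E : Y → ℕ → ℚ → Set P) : Set P :=
  fex fun x : W1 → ℕ → ℚ → Set P =>
    fand (fall fun i => IsReal (x i)) (fall fun y => fex fun i => SameR (E y) (x i))

theorem exists_new {E : Y → ℕ → ℚ → Set P} {q : P} (hE : ∀ y, q ∈ IsReal (E y))
    (hq : ∀ r ≤ q, r ∉ IsSmall E) (D : Set Y) (hD : #D ≤ ℵ_ 1) (r : P) (hr : r ≤ q) :
    ∃ q' ≤ r, ∃ y, ∀ d ∈ D, q' ∈ fnot (SameR (E y) (E d)) := by
  classical
  by_contra hcon
  push Not at hcon
  apply hq r hr
  have hdown : ∀ x : W1 → ℕ → ℚ → Set P, Down (fand (fall fun i => IsReal (x i))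
      (fall fun y => fex fun i => SameR (E y) (x i))) := fun x =>
    down_fand (down_fall fun _ => down_IsReal _) (down_fall fun _ => down_fex _)
  rcases isEmpty_or_nonempty Y with hY | ⟨⟨y0⟩⟩
  · exact mem_fex_of_mem (fun _ => gr fun _ => 0) (hdown _)
      ⟨fun i => isReal_gr (by intro m n _; simp) r, fun y => (hY.false y).elim⟩
  · have hD' : #(insert y0 D : Set Y) ≤ #W1 := by
      rw [mk_W1]
      refine (mk_insert_le).trans ?_
      exact (add_le_add hD (one_le_aleph0.trans (aleph0_le_aleph 1))).trans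
        (add_eq_self (aleph0_le_aleph 1)).le
    obtain ⟨g⟩ := hD'
    have : Nonempty (insert y0 D : Set Y) := ⟨⟨y0, Set.mem_insert _ _⟩⟩
    obtain ⟨f, hf⟩ : ∃ f : W1 → (insert y0 D : Set Y), Function.Surjective f :=
      ⟨Function.invFun g, Function.invFun_surjective g.injective⟩
    refine mem_fex_of_mem (fun i => E (f i).1) (hdown _)
      ⟨fun i => down_IsReal _ _ (hE _) _ hr, fun y => mem_fex.2 fun q' hq' => ?_⟩
    obtain ⟨d, hd, h1⟩ := hcon q' hq' y
    simp only [fnot, Set.mem_ofPred_eq, not_forall, not_not] at h1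
    obtain ⟨r', hr', h2⟩ := h1
    obtain ⟨i, hi⟩ := hf ⟨d, Set.mem_insert_of_mem _ hd⟩
    refine ⟨r', hr', i, ?_⟩
    show r' ∈ SameR (E y) (E (f i).1)
    rw [hi]; exact h2

/-- a positive lower bound for the distances to finitely many reals -/
theorem exists_sep {Z : Type} {x y : Z → ℕ → ℚ → Set P} {q : P} (G : Finset Z)
    (h : ∀ z ∈ G, ∀ r ≤ q, r ∉ SameR (x z) (y z)) :
    ∃ r ≤ q, ∃ δ : ℚ, 0 < δ ∧ ∀ z ∈ G, ∃ n a b, r ∈ meets (x z n a) ∧ r ∈ meets (y z n b) ∧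
      δ ≤ |a - b| - 2 * (1 / 2) ^ n := by
  classical
  induction G using Finset.induction_on with
  | empty => exact ⟨q, le_rfl, 1, one_pos, by simp⟩
  | insert z G _ ih =>
    obtain ⟨r, hr, δ, hδ, h1⟩ := ih fun z hz => h z (Finset.mem_insert_of_mem hz)
    obtain ⟨s, hs, n, a, b, h2, h3, h4⟩ := exists_ne (h z (Finset.mem_insert_self z G) r hr)
    refine ⟨s, hs.trans hr, min δ (|a - b| - 2 * (1 / 2) ^ n), lt_min hδ (by linarith), ?_⟩
    intro z' hz'
    rcases Finset.mem_insert.1 hz' with rfl | hz'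
    · exact ⟨n, a, b, h2, h3, min_le_right _ _⟩
    · obtain ⟨n', a', b', h5, h6, h7⟩ := h1 z' hz'
      exact ⟨n', a', b', down_meets _ _ h5 _ hs, down_meets _ _ h6 _ hs,
        (min_le_left _ _).trans h7⟩

/-- bounds for finitely many reals -/
theorem exists_bds {x : Y → ℕ → ℚ → Set P} {q : P} (G : Finset Y)
    (h : ∀ y, q ∈ IsReal (x y)) :
    ∃ r ≤ q, ∃ K : ℕ, ∀ y ∈ G, ∃ a, r ∈ meets (x y 0 a) ∧ |a| + 1 ≤ K := by
  classical
  induction G using Finset.induction_on with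
  | empty => exact ⟨q, le_rfl, 0, by simp⟩
  | insert y G _ ih =>
    obtain ⟨r, hr, K, h1⟩ := ih
    obtain ⟨s, hs, a, ha⟩ := IsReal.total (down_IsReal _ _ (h y) _ hr) 0
    obtain ⟨K', hK'⟩ := exists_nat_ge (|a| + 1)
    refine ⟨s, hs.trans hr, max K K', fun y' hy' => ?_⟩
    rcases Finset.mem_insert.1 hy' with rfl | hy'
    · exact ⟨a, ha, hK'.trans (by exact_mod_cast le_max_right _ _)⟩
    · obtain ⟨a', h2, h3⟩ := h1 y' hy'
      exact ⟨a', down_meets _ _ h2 _ hs, h3.trans (by exact_mod_cast le_max_left _ _)⟩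

/-- grid intervals for finitely many reals -/
theorem exists_ivs {x : Y → ℕ → ℚ → Set P} {q : P} {K : ℕ} (l : ℕ)
    (h : ∀ y, q ∈ IsReal (x y)) (G : Finset Y)
    (hK : ∀ y ∈ G, ∃ a, q ∈ meets (x y 0 a) ∧ |a| + 1 ≤ K) :
    ∃ r ≤ q, ∃ T : Finset ℤ, T.card ≤ G.card ∧ (∀ i ∈ T, |i| ≤ ((l : ℤ) + 1) * ((K : ℤ) + 1)) ∧
      (∀ y ∈ G, ∃ i ∈ T, r ∈ InIoo (x y) (iv l i).1 (iv l i).2) ∧
      (∀ i ∈ T, ∃ y ∈ G, r ∈ InIoo (x y) (iv l i).1 (iv l i).2) := by
  classical
  induction G using Finset.induction_on with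
  | empty => exact ⟨q, le_rfl, ∅, by simp⟩
  | insert y G hyG ih =>
    obtain ⟨r, hr, T, h1, h2, h3, h4⟩ := ih fun y hy => hK y (Finset.mem_insert_of_mem hy)
    obtain ⟨a, ha, haK⟩ := hK y (Finset.mem_insert_self y G)
    obtain ⟨s, hs, i, h5, h6⟩ := exists_iv (down_IsReal _ _ (h y) _ hr) l
      (down_meets _ _ ha _ hr) haK
    refine ⟨s, hs.trans hr, insert i T, ?_, ?_, ?_, ?_⟩
    · rw [Finset.card_insert_of_notMem hyG]
      exact (Finset.card_insert_le _ _).trans (by omega)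
    · intro i' hi'
      rcases Finset.mem_insert.1 hi' with rfl | hi'
      · exact h5
      · exact h2 i' hi'
    · intro y' hy'
      rcases Finset.mem_insert.1 hy' with rfl | hy'
      · exact ⟨i, Finset.mem_insert_self _ _, h6⟩
      · obtain ⟨i', hi', h7⟩ := h3 y' hy'
        exact ⟨i', Finset.mem_insert_of_mem hi', down_InIoo _ _ _ _ h7 _ hs⟩
    · intro i' hi'
      rcases Finset.mem_insert.1 hi' with rfl | hi'
      · exact ⟨y, Finset.mem_insert_self _ _, h6⟩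
      · obtain ⟨y', hy', h7⟩ := h4 i' hi'
        exact ⟨y', Finset.mem_insert_of_mem hy', down_InIoo _ _ _ _ h7 _ hs⟩

/-- fine grid intervals separate separated reals -/
theorem no_common {x y : ℕ → ℚ → Set P} {p : P} (hx : p ∈ IsReal x)
    (hy : p ∈ IsReal y) {l : ℕ} {i : ℤ} (h1 : p ∈ InIoo x (iv l i).1 (iv l i).2)
    (h2 : p ∈ InIoo y (iv l i).1 (iv l i).2) {δ : ℚ} (hδ : 2 / ((l : ℚ) + 1) ≤ δ) {n : ℕ}
    {a b : ℚ} (ha : p ∈ meets (x n a)) (hb : p ∈ meets (y n b))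
    (h3 : δ ≤ |a - b| - 2 * (1 / 2) ^ n) : False := by
  have h4 := close_of_InIoo hx hy h1 h2 ha hb
  rw [iv_len] at h4
  linarith

theorem exists_fine {δ : ℚ} (hδ : 0 < δ) : ∃ L : ℕ, ∀ l ≥ L, 2 / ((l : ℚ) + 1) ≤ δ := by
  obtain ⟨L, hL⟩ := exists_nat_ge (2 / δ)
  refine ⟨L, fun l hl => ?_⟩
  rw [div_le_iff₀ (by positivity)]
  rw [div_le_iff₀ hδ] at hL
  have : (L : ℚ) ≤ l := by exact_mod_cast hl
  nlinarith

end

/-! ### Choosing the value at `α` -/

theorem isH_cb (b : K3) : IsH SS (cb b) := isH_Sy kdLt (kd_bot b)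

theorem push_big (b : K3) (L k : ℕ) : ∀ d : ℕ, ∀ p : PP, (p.1.st (cb b)).length + d = k →
    ∃ q ≤ p, ∃ l ≥ L, q ∈ gn (cb b) k l := by
  intro d
  induction d with
  | zero =>
    intro p hp
    obtain ⟨q', h1, h2, N, h3⟩ := (isH_cb b).amal (p.1.st (cb b)) (p.1.pr (cb b)) (p.2.1 _).1
      (res p.1 (cb b)) (res_mem p.2.1 _)
    refine ⟨⟨push (glue q' p.1 (cb b)) (cb b) (max N L),
      push_mem (glue_mem h1 p.2 le_top) (cb_lt_top b) _⟩, ?_, max N L, le_max_right _ _, ?_, ?_⟩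
    · show push (glue q' p.1 (cb b)) (cb b) (max N L) ≤ p.1
      refine le_trans (push_le fun R hR => ?_) (glue_le h2)
      rw [glue_pr_ge le_rfl] at hR
      rw [glue_st_ge le_rfl, bs_glue le_rfl]
      exact h3 _ (le_max_left _ _) R hR
    · show k < ((push (glue q' p.1 (cb b)) (cb b) (max N L)).st (cb b)).length
      rw [push_st_self, glue_st_ge le_rfl]
      simp; omega
    · show ((push (glue q' p.1 (cb b)) (cb b) (max N L)).st (cb b)).getD k 0 = _
      rw [push_st_self, glue_st_ge le_rfl, List.getD_append_right _ _ _ _ (by omega)]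
      have : k - (p.1.st (cb b)).length = 0 := by omega
      rw [this]; rfl
  | succ d ih =>
    intro p hp
    obtain ⟨r, h1, h2, h3, _⟩ := exists_longer good_SS p.2 (cb_lt_top b)
    obtain ⟨q, hq, l, hl, h4⟩ := ih ⟨r, h1⟩ (by
      show (r.st (cb b)).length + d = k
      omega)
    exact ⟨q, hq.trans h2, l, hl, h4⟩

variable {Y : Type}

/-- the special covers -/
def Uc (b : K3) (E : Y → ℕ → ℚ → Set PP) (j : ℕ) (O : ℚ × ℚ → Set PP) : Set PP :=
  {p | ∃ u : UU, O = op u ∧ j ≤ uk u ∧ p ∈ gn (cb b) (uk u) (ul u) ∧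
    p ∈ fex fun y => fnot (InOpen (E y) (op u))}

theorem omega_Uc (b : K3) {E : Y → ℕ → ℚ → Set PP} {q : PP} (hE : ∀ y, q ∈ IsReal (E y))
    (hq : ∀ r ≤ q, r ∉ IsSmall E) (j : ℕ) : q ∈ IsOmegaCover E (Uc b E j) := by
  classical
  refine ⟨fun O => ?_, fun F => ?_⟩
  · refine mem_fimp.2 fun r hr hm => ?_
    obtain ⟨s, hs, s', ⟨u, rfl, _, _, h⟩, hss'⟩ := hm r le_rfl
    exact ⟨s, hs, down_fex _ _ h _ hss'⟩
  · refine mem_fex.2 fun r hr => ?_
    obtain ⟨r1, hr1, y0, h1⟩ := exists_new hE hq (F : Set Y)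
      ((Cardinal.le_aleph0_iff_set_countable.2 F.countable_toSet).trans (aleph0_le_aleph 1)) r hr
    obtain ⟨r2, hr2, δ, hδ, h2⟩ := exists_sep (x := fun _ : Y => E y0) (y := E) (q := r1) F
      (fun z hz s hs hs' => h1 z hz s hs hs')
    have hr2q : r2 ≤ q := hr2.trans (hr1.trans hr)
    obtain ⟨r3, hr3, K, h3⟩ := exists_bds F (fun y => down_IsReal _ _ (hE y) _ hr2q)
    obtain ⟨L, hL⟩ := exists_fine hδ
    set k := max (max j F.card) (max K (r3.1.st (cb b)).length) with hk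
    have hkj : j ≤ k := (le_max_left _ _).trans (le_max_left _ _)
    have hkF : F.card ≤ k := (le_max_right _ _).trans (le_max_left _ _)
    have hkK : K ≤ k := (le_max_left _ _).trans (le_max_right _ _)
    have hkl : (r3.1.st (cb b)).length ≤ k := (le_max_right _ _).trans (le_max_right _ _)
    obtain ⟨r4, hr4, l, hl, h4⟩ := push_big b L k (k - (r3.1.st (cb b)).length) r3 (by omega)
    have hr4q : r4 ≤ q := hr4.trans (hr3.trans hr2q)
    obtain ⟨r5, hr5, T, h5, h6, h7, h8⟩ := exists_ivs (x := E) (q := r4) (K := k) l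
      (fun y => down_IsReal _ _ (hE y) _ hr4q) F (fun y hy => by
        obtain ⟨a, ha, haK⟩ := h3 y hy
        exact ⟨a, down_meets _ _ ha _ hr4, haK.trans (by exact_mod_cast hkK)⟩)
    have hr5q : r5 ≤ q := hr5.trans hr4q
    let u : UU := ⟨(k, l, T), h5.trans hkF, h6⟩
    refine ⟨r5, hr5.trans (hr4.trans (hr3.trans (hr2.trans hr1))), op u, meets_of_mem
      ⟨u, rfl, hkj, down_gn _ _ _ _ h4 _ hr5, ?_⟩, fun y hy => ?_⟩
    · refine mem_fex_of_mem y0 (down_fnot _) fun s hs hso => ?_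
      obtain ⟨s', hs', i, hi, h9⟩ := exists_of_InOpen hso
      obtain ⟨y, hy, h10⟩ := h8 i hi
      obtain ⟨n, a, b', h11, h12, h13⟩ := h2 y hy
      have hs5 : s' ≤ r5 := hs'.trans hs
      have hs2 : s' ≤ r2 := hs5.trans (hr5.trans (hr4.trans hr3))
      exact no_common (down_IsReal _ _ (hE y0) _ (hs5.trans hr5q))
        (down_IsReal _ _ (hE y) _ (hs5.trans hr5q)) h9 (down_InIoo _ _ _ _ h10 _ hs5)
        (hL l hl) (down_meets _ _ h11 _ hs2) (down_meets _ _ h12 _ hs2) h13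
    · obtain ⟨i, hi, h9⟩ := h7 y hy
      exact InOpen_of (u := u) hi h9

end Pool.Agent.H652G
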