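import Mathlib
import Pool.Agent.H652G.Cover

/-!
# γ-sets have size at most `ℵ₁`
-/

namespace Pool.Agent.H652G

open Cardinal Pool.Agent.Helper669.Forcing Pool.Agent.H652R2.Defs Pool.Agent.H652G.Defs

set_option linter.unusedSectionVars false
set_option linter.unusedVariables false

/-! ### Sequences of length `ω₂` -/

theorem aleph_two : (ℵ_ (2 : Ordinal.{0})) = Order.succ (ℵ_ 1) := by
  have : (2 : Ordinal.{0}) = Order.succ 1 := by
    rw [Order.succ_eq_add_one]; norm_num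
  rw [this, aleph_succ]

theorem mk_Iio_W2 (ν : W2) : #(Set.Iio ν) ≤ ℵ_ 1 := by
  have h := mk_Iio_ord_toType ν
  exact Order.lt_succ_iff.1 (h.trans_eq aleph_two)

section

variable {X Y : Type}

/-- sequences of length `ω₂` given by a function of the set of the second components so far -/
noncomputable def sq (st : Set Y → X × Y) : W2 → X × Y :=
  WellFoundedLT.fix (motive := fun _ : W2 => X × Y) fun ν f =>
    st {y | ∃ μ, ∃ h : μ < ν, y = (f μ h).2}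

theorem sq_eq (st : Set Y → X × Y) (ν : W2) :
    sq st ν = st ((fun μ => (sq st μ).2) '' Set.Iio ν) := by
  conv_lhs => rw [sq, WellFoundedLT.fix_eq]
  congr 1
  ext y
  constructor
  · rintro ⟨μ, h, rfl⟩; exact ⟨μ, h, rfl⟩
  · rintro ⟨μ, h, rfl⟩; exact ⟨μ, h, rfl⟩

end

theorem exists_sq {Y : Type} {E : Y → ℕ → ℚ → Set PP} {q : PP} (hE : ∀ y, q ∈ IsReal (E y))
    (hq : ∀ r ≤ q, r ∉ IsSmall E) : ∃ f : W2 → PP, ∃ g : W2 → Y, (∀ ν, f ν ≤ q) ∧
      ∀ ν, ∀ μ < ν, f ν ∈ fnot (SameR (E (g ν)) (E (g μ))) := by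
  classical
  have h := fun (D : Set Y) hD => exists_new hE hq D hD q le_rfl
  obtain ⟨_, _, y0, _⟩ := h ∅ (by simp)
  let st : Set Y → PP × Y := fun D => if hD : #D ≤ ℵ_ 1 then
    ((h D hD).choose, (h D hD).choose_spec.2.choose) else (q, y0)
  have hst : ∀ D : Set Y, #D ≤ ℵ_ 1 → (st D).1 ≤ q ∧ ∀ d ∈ D, (st D).1 ∈ fnot (SameR (E (st D).2) (E d)) := by
    intro D hD
    simp only [st, dif_pos hD]
    exact ⟨(h D hD).choose_spec.1, (h D hD).choose_spec.2.choose_spec⟩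
  have key : ∀ ν, (sq st ν).1 ≤ q ∧ ∀ μ < ν, (sq st ν).1 ∈
      fnot (SameR (E (sq st ν).2) (E (sq st μ).2)) := by
    intro ν
    obtain ⟨h1, h2⟩ := hst ((fun μ => (sq st μ).2) '' Set.Iio ν)
      (mk_image_le.trans (mk_Iio_W2 ν))
    rw [← sq_eq st ν] at h1 h2
    exact ⟨h1, fun μ hμ => h2 _ ⟨μ, hμ, rfl⟩⟩
  exact ⟨fun ν => (sq st ν).1, fun ν => (sq st ν).2, fun ν => (key ν).1, fun ν => (key ν).2⟩

/-! ### Finding a stage -/

theorem exists_level (A : Set PP) (hA : #A ≤ ℵ_ 2) : ∃ b : K3, ∀ a ∈ A, Below a.1 (cb b) := by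
  obtain ⟨j, hj⟩ := exists_below (κ := ℵ_ 2) (aleph0_le_aleph 2)
    (fun T hT => by
      obtain ⟨b, hb⟩ := cof_JJ T hT
      exact ⟨_, hb⟩) hA
  obtain ⟨b, hb⟩ := cof_JJ {j} (by rw [mk_singleton]; exact one_le_aleph0.trans (aleph0_le_aleph 2))
  exact ⟨b, fun a ha => (hj a ha).mono (WithTop.coe_le_coe.2 (hb j rfl).le)⟩

/-- finding a stage deciding at most `ℵ₂` names -/
theorem exists_stage {ι ι' : Type} (hι : #ι ≤ ℵ_ 2) (hι' : #ι' ≤ ℵ_ 2) (N : ι → Set PP)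
    (f : ι' → PP) : ∃ b : K3, (∀ i, LocP (cb b) (meets (N i))) ∧ ∀ i, Below (f i).1 (cb b) := by
  have h : ∀ i, ∃ A : Set PP, A.Countable ∧ (∀ a ∈ A, a ∈ meets (N i) ∨ a ∈ fnot (meets (N i))) ∧
      ∀ p, ∃ a ∈ A, Compat a p := by
    intro i
    obtain ⟨A, h1, h2, h3, _⟩ := exists_antichain ccc_PP
      {p : PP | p ∈ meets (N i) ∨ p ∈ fnot (meets (N i))} (fun p => by
        rcases exists_or_fnot (meets (N i)) p with ⟨q, hq, h⟩ | h
        · exact ⟨q, hq, Or.inl h⟩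
        · exact ⟨p, le_rfl, Or.inr h⟩)
    exact ⟨A, h2, h1, h3⟩
  choose A hA1 hA2 hA3 using h
  obtain ⟨b, hb⟩ := exists_level ((⋃ i, A i) ∪ Set.range f) (by
    refine (mk_union_le _ _).trans ?_
    have h1 : #(⋃ i, A i : Set PP) ≤ ℵ_ 2 := mk_le_of_cover (aleph0_le_aleph 2) hι A
      (fun i => (Cardinal.le_aleph0_iff_set_countable.2 (hA1 i)).trans (aleph0_le_aleph 2))
      le_rfl
    exact (add_le_add h1 (mk_range_le.trans hι')).trans (add_eq_self (aleph0_le_aleph 2)).le)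
  refine ⟨b, fun i => locP_meets (A := A i) (fun a ha => hb a (Or.inl (Set.mem_iUnion.2 ⟨i, ha⟩)))
    (hA2 i) (hA3 i), fun i => hb _ (Or.inr ⟨i, rfl⟩)⟩

theorem LocP_InIoo {b : WithTop JJ} {x : ℕ → ℚ → Set PP} (h : ∀ n a, LocP b (meets (x n a)))
    (c d : ℚ) : LocP b (InIoo x c d) :=
  LocP.fex (fun n => LocP.fex (fun a => (LocP.fground _).fand (h n a))
    fun a => down_fand (down_fground _) (down_meets _)) fun n => down_fex _

theorem LocP_InOpen {b : WithTop JJ} {x : ℕ → ℚ → Set PP} (h : ∀ n a, LocP b (meets (x n a)))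
    (u : UU) : LocP b (InOpen x (op u)) :=
  LocP.fex (fun J => LocP.fand (fun p hp => meets_fground.2 (meets_fground.1 hp))
    (LocP_InIoo h _ _)) fun J => down_fand (down_meets _) (down_InIoo _ _ _)

/-! ### The context -/

variable {Y : Type}

/-- `r` forces that `E (g ν)` lies in `u` -/
def InC (E : Y → ℕ → ℚ → Set PP) (g : W2 → Y) (ν : W2) (u : UU) : Set (Rep (WithTop JJ)) :=
  {r | ∀ r', ∀ h : r' ∈ Vd SS ⊤, r' ≤ r → (⟨r', h⟩ : PP) ∈ InOpen (E (g ν)) (op u)}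

theorem mem_InC {E : Y → ℕ → ℚ → Set PP} {g : W2 → Y} {ν : W2} {u : UU}
    {r : Rep (WithTop JJ)} (h : r ∈ Vd SS ⊤) :
    r ∈ InC E g ν u ↔ (⟨r, h⟩ : PP) ∈ InOpen (E (g ν)) (op u) :=
  ⟨fun hr => hr r h le_rfl, fun hr r' h' hle => down_InOpen _ _ (⟨r, h⟩ : PP) hr (⟨r', h'⟩ : PP) hle⟩

/-- the context of the preservation theorem -/
def ctx (b : K3) (E : Y → ℕ → ℚ → Set PP) (f : W2 → PP) (g : W2 → Y)
    (hreal : ∀ ν y, f ν ∈ IsReal (E y))
    (hloc : ∀ ν n a, LocP (cb b) (meets (E (g ν) n a)))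
    (hbel : ∀ ν, Below (f ν).1 (cb b))
    (hne : ∀ ν, ∀ μ < ν, f ν ∈ fnot (SameR (E (g ν)) (E (g μ)))) : Ctx SS where
  good := good_SS
  α := cb b
  hα := isH_cb b
  U := UU
  kk := uk
  ll := ul
  fin := fin_UU
  dummy := dummy_UU
  Y := W2
  qy ν := (f ν).1
  In := InC E g
  qy_mem ν := ⟨(f ν).2.1, hbel ν⟩
  In_down y u r hr r' hle s hs hsr := hr s hs (hsr.trans hle)
  In_dense y u r hr h := by
    rw [mem_InC hr]
    refine rgl_fex _ _ fun q hq => ?_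
    obtain ⟨r'', h1, h2, h3⟩ := h q.1 q.2 hq
    exact ⟨⟨r'', h1⟩, h2, (mem_InC h1).1 h3⟩
  In_res y u r hr h := by
    rw [mem_InC (Vd_mono le_top (res_mem hr.1 _))]
    exact LocP_InOpen (hloc y) u ⟨r, hr⟩ ((mem_InC hr).1 h)
  sep B q hq hB := by
    classical
    let Q : PP := ⟨q, Vd_mono le_top hq⟩
    have hQ : ∀ ν ∈ B, Q ≤ f ν := hB
    obtain ⟨r, hr, δ, hδ, h1⟩ := exists_sep (x := fun z : W2 × W2 => E (g z.1))
      (y := fun z : W2 × W2 => E (g z.2)) (q := Q) B.offDiag (by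
        rintro ⟨ν, μ⟩ hz s hs hsame
        rw [Finset.mem_offDiag] at hz
        obtain ⟨h1, h2, h3⟩ := hz
        rcases lt_or_gt_of_ne h3 with h | h
        · exact hne μ ν h s (hs.trans (hQ μ h2)) (SameR_symm hsame)
        · exact hne ν μ h s (hs.trans (hQ ν h1)) hsame)
    obtain ⟨L, hL⟩ := exists_fine hδ
    refine ⟨(resP r (cb b)).1, resP_mem r _, resP_le (q := Q) hr hq.2, L, ?_⟩
    rintro u hku hlu ⟨s, hs, hsr, hsB⟩
    have hs0 : ∀ ν ∈ B, (⟨s, hs⟩ : PP) ∈ InOpen (E (g ν)) (op u) := fun ν hν =>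
      (mem_InC hs).1 (hsB ν hν)
    have hsr' : (⟨s, hs⟩ : PP) ≤ resP r (cb b) := hsr
    have hsQ : (⟨s, hs⟩ : PP) ≤ Q := hsr'.trans (resP_le (q := Q) hr hq.2)
    have key : ∀ G : Finset W2, G ⊆ B → ∃ s' ≤ (⟨s, hs⟩ : PP), ∃ i : W2 → ℤ,
        ∀ ν ∈ G, i ν ∈ us u ∧ s' ∈ InIoo (E (g ν)) (iv (ul u) (i ν)).1 (iv (ul u) (i ν)).2 := by
      intro G
      induction G using Finset.induction_on with
      | empty => intro _; exact ⟨_, le_rfl, fun _ => 0, by simp⟩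
      | insert ν G hν ih =>
        intro hG
        obtain ⟨s1, h2, i, h3⟩ := ih ((Finset.subset_insert ν G).trans hG)
        obtain ⟨s2, h4, i', hi', h5⟩ := exists_of_InOpen
          (down_InOpen _ _ _ (hs0 ν (hG (Finset.mem_insert_self ν G))) _ h2)
        refine ⟨s2, h4.trans h2, Function.update i ν i', fun μ hμ => ?_⟩
        rcases Finset.mem_insert.1 hμ with rfl | hμ
        · rw [Function.update_self]; exact ⟨hi', h5⟩
        · have hne' : μ ≠ ν := fun h => hν (h ▸ hμ)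
          rw [Function.update_of_ne hne']
          exact ⟨(h3 μ hμ).1, down_InIoo _ _ _ _ (h3 μ hμ).2 _ h4⟩
    obtain ⟨s', hs', i, hi⟩ := key B (Finset.Subset.refl _)
    obtain ⟨ν, hν, μ, hμ, hνμ, hii⟩ := Finset.exists_ne_map_eq_of_card_lt_of_maps_to
      ((card_us u).trans_lt hku) (f := i) (fun ν hν => (hi ν hν).1)
    obtain ⟨n, a, a', h2, h3, h4⟩ := h1 (ν, μ) (by
      rw [Finset.mem_offDiag]; exact ⟨hν, hμ, hνμ⟩)
    have hs'r : s' ≤ resP r (cb b) := hs'.trans hsr'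
    have h5 := (hi ν hν).2
    have h6 := (hi μ hμ).2
    rw [← hii] at h6
    have hf : s' ≤ f ν := (hs'.trans hsQ).trans (hQ ν hν)
    exact no_common (down_IsReal _ _ (hreal ν (g ν)) _ hf) (down_IsReal _ _ (hreal ν (g μ)) _ hf)
      h5 h6 (hL _ hlu) (down_meets _ _ (hloc ν n a _ h2) _ hs'r)
      (down_meets _ _ (hloc μ n a' _ h3) _ hs'r) h4

/-! ### The theorem -/

theorem down_SameTrace {P : Type} [Preorder P] {E : Y → ℕ → ℚ → Set P} (O O' : ℚ × ℚ → Set P) :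
    Down (SameTrace E O O') := down_fall fun _ => down_fand (down_fimp _ _) (down_fimp _ _)

theorem SameTrace_refl {P : Type} [Preorder P] {E : Y → ℕ → ℚ → Set P} (O : ℚ × ℚ → Set P)
    (p : P) : p ∈ SameTrace E O O :=
  fun y => ⟨fimp_of fun _ _ h => h, fimp_of fun _ _ h => h⟩

theorem gamma_small {E : Y → ℕ → ℚ → Set PP} {p : PP} (hE : ∀ y, p ∈ IsReal (E y))
    (hg : p ∈ IsGammaSet E) : p ∈ IsSmall E := by
  classical
  by_contra hcon
  obtain ⟨q, hqp, hq⟩ : ∃ q ≤ p, ∀ r ≤ q, r ∉ IsSmall E := by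
    by_contra h
    push Not at h
    exact hcon (rgl_fex _ p h)
  have hEq : ∀ y, q ∈ IsReal (E y) := fun y => down_IsReal _ _ (hE y) _ hqp
  obtain ⟨f, g, hf, hne⟩ := exists_sq hEq hq
  have hW2 : ℵ_ 1 < #W2 := by rw [mk_W2, aleph_two]; exact Order.lt_succ _
  obtain ⟨p0, hp0⟩ := exists_heavy ccc_PP (aleph0_le_aleph 1) hW2 f
  obtain ⟨p1, hp1, hp1q⟩ : ∃ p1 ≤ p0, p1 ≤ q := by
    have h1 := hp0 p0 le_rfl
    have h2 : {ν | Compat (f ν) p0}.Nonempty := by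
      rw [Set.nonempty_iff_ne_empty]
      rintro h3
      rw [h3] at h1
      simp at h1
    obtain ⟨ν, s, hs1, hs2⟩ := h2
    exact ⟨s, hs2, hs1.trans (hf ν)⟩
  obtain ⟨b, hloc, hbel⟩ := exists_stage (ι := W2 × ℕ × ℚ) (ι' := W2)
    (by
      simp only [mk_prod, lift_id, mk_W2]
      exact (mul_le_mul' le_rfl ((mk_le_aleph0 (α := ℕ × ℚ)).trans (aleph0_le_aleph 2))).trans
        (mul_eq_self (aleph0_le_aleph 2)).le)
    mk_W2.le (fun x => E (g x.1) x.2.1 x.2.2) f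
  let C : Ctx SS := ctx b E f g (fun ν y => down_IsReal _ _ (hEq y) _ (hf ν))
    (fun ν n a => hloc (ν, n, a)) hbel hne
  -- the selection
  have hcov : p1 ∈ fall fun n => IsOmegaCover E (Uc b E n) := fun n =>
    omega_Uc b (fun y => down_IsReal _ _ (hEq y) _ hp1q) (fun r hr => hq r (hr.trans hp1q)) n
  obtain ⟨p2', hp2', h0⟩ := mem_fimp.1 (hg (Uc b E)) p1 (hp1q.trans hqp) hcov
  obtain ⟨p2, hp2, V, hV1, hV2⟩ := mem_fex.1 h0 p2' le_rfl
  have hp21 : p2 ≤ p1 := hp2.trans hp2'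
  -- the family
  let A : ℕ → UU → Set (Rep (WithTop JJ)) := fun j u =>
    {r | ∃ h : r ∈ Vd SS ⊤, ((⟨r, h⟩ : PP) ∈ gn (cb b) (uk u) (ul u) ∧ j ≤ uk u) ∧
      (((⟨r, h⟩ : PP) ≤ p2 ∧ ∃ n, (⟨r, h⟩ : PP) ∈ SameTrace E (V n) (op u) ∧
        ∀ k < j, (⟨r, h⟩ : PP) ∈ fnot (SameTrace E (V n) (V k))) ∨
        ¬ Compat (⟨r, h⟩ : PP) p2)}
  have hA : C.Fam ⊤ A :=
    { sub := fun j u r hr => hr.1
      down := by
        rintro j u r ⟨h, ⟨h1, h1'⟩, h2⟩ r' hr' hle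
        refine ⟨hr', ⟨down_gn _ _ _ _ h1 (⟨r', hr'⟩ : PP) hle, h1'⟩, ?_⟩
        rcases h2 with ⟨h2, n, h3, h4⟩ | h2
        · exact Or.inl ⟨le_trans (b := (⟨r, h⟩ : PP)) hle h2, n,
            down_SameTrace _ _ _ h3 (⟨r', hr'⟩ : PP) hle,
            fun k hk => down_fnot _ _ (h4 k hk) (⟨r', hr'⟩ : PP) hle⟩
        · exact Or.inr fun hc => h2 (hc.mono hle le_rfl)
      dense := by
        intro j q0 hq0
        by_cases hc : Compat (⟨q0, hq0⟩ : PP) p2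
        · obtain ⟨s, hs1, hs2⟩ := hc
          obtain ⟨s1, hs1', n, h1⟩ := mem_fex.1 (hV2.1 j) s hs2
          have hnj : j ≤ n := by
            by_contra hlt
            exact h1 n (not_le.1 hlt) s1 le_rfl (SameTrace_refl _ _)
          obtain ⟨s2, hs2', O, h2, h3⟩ := mem_fex.1 (hV1 n) s1 (hs1'.trans hs2)
          obtain ⟨s3, hs3, s4, ⟨u, rfl, h4, h5, _⟩, hs34⟩ := h2 s2 le_rfl
          refine ⟨s3.1, s3.2, ?_, u, s3.2, ⟨down_gn _ _ _ _ h5 _ hs34, hnj.trans h4⟩, Or.inl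
            ⟨(hs3.trans (hs2'.trans hs1')).trans hs2, n, down_SameTrace _ _ _ h3 _ hs3,
              fun k hk => down_fnot _ _ (h1 k hk) _ (hs3.trans hs2')⟩⟩
          exact (hs3.trans (hs2'.trans hs1')).trans hs1
        · obtain ⟨s, hs, m, h1⟩ := exists_gn (cb_lt_top b) (⟨q0, hq0⟩ : PP) j
          refine ⟨s.1, s.2, hs, ⟨(j, m, ∅), by simp, by simp⟩, s.2, ⟨h1, le_rfl⟩,
            Or.inr fun hc' => hc (hc'.mono hs le_rfl)⟩
      le := fun j u r hr => hr.2.1.2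
      dv := by
        rintro j u r ⟨h, ⟨h1, _⟩, _⟩
        have h2 : (r.st (cb b)).getD (uk u) 0 = ul u := h1.2
        show C.dv (uk u) (ul u) r
        rw [← h2]
        exact Ctx.dv_of_stem h1.1 }
  have hcap := C.claim (aleph0_le_aleph 1) small_SS ⊤ (cb_lt_top b) A hA
  have hsub : {ν | Compat (f ν) p2} ⊆ C.Cap ⊤ A := by
    rintro ν ⟨s, hs1, hs2⟩
    obtain ⟨s', hs', m, h1⟩ := mem_fex.1 (hV2.2 (g ν)) s hs2
    refine ⟨m, s'.1, s'.2, hs'.trans hs1, ?_⟩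
    rintro j hj u r ⟨h, ⟨_, _⟩, h2⟩ hrs
    have hrs' : (⟨r, h⟩ : PP) ≤ s' := hrs
    have hr2 : (⟨r, h⟩ : PP) ≤ p2 := (hrs'.trans hs').trans hs2
    rcases h2 with ⟨_, n, h3, h4⟩ | h2
    · show r ∈ InC E g ν u
      refine (mem_InC (E := E) (g := g) (ν := ν) (u := u) h).2 ?_
      refine mem_of_fimp (h3 (g ν)).1 (down_InOpen _ _) (rgl_fex _) ?_
      refine rgl_fex _ _ fun t ht => ?_
      rcases exists_or_fnot (InOpen (E (g ν)) (V n)) t with ht' | ht'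
      · exact ht'
      · exfalso
        obtain ⟨t1, ht1, h5⟩ := mem_fimp.1 (h1 n) t (ht.trans hrs') ht'
        obtain ⟨t2, ht2, k, h6, h7⟩ := mem_fex.1 h5 t1 le_rfl
        exact h4 k (lt_of_lt_of_le h6 hj) t2 (ht2.trans (ht1.trans ht)) h7
    · exact absurd ⟨(⟨r, h⟩ : PP), le_rfl, hr2⟩ h2
  exact absurd ((hp0 p2 (hp21.trans hp1)).trans_le (mk_le_mk_of_subset hsub)) (not_lt.2 hcap)

end Pool.Agent.H652G
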