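import Mathlib
import Pool.Agent.H652G.Small

/-!
# All families of `ℵ₁` reals are γ-sets
-/

namespace Pool.Agent.H652G

open Cardinal Pool.Agent.Helper669.Forcing Pool.Agent.H652R2.Defs Pool.Agent.H652G.Defs

set_option linter.unusedSectionVars false
set_option linter.unusedVariables false

/-! ### Basic open sets -/

/-- the list of intervals coded by `v` -/
def dl (v : ℕ) : List (ℚ × ℚ) := (Encodable.decode (α := List (ℚ × ℚ)) v).getD []

theorem dl_encode (l : List (ℚ × ℚ)) : dl (Encodable.encode l) = l := by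
  simp [dl]

section

variable {P : Type} [Preorder P]

/-- the open set coded by `v` -/
def bo (v : ℕ) (J : ℚ × ℚ) : Set P := fground (J ∈ dl v)

theorem exists_of_InOpen_bo {x : ℕ → ℚ → Set P} {v : ℕ} {p : P} (h : p ∈ InOpen x (bo v)) :
    ∃ q ≤ p, ∃ J ∈ dl v, q ∈ InIoo x J.1 J.2 := by
  obtain ⟨q, hq, J, h1, h2⟩ := mem_fex.1 h p le_rfl
  exact ⟨q, hq, J, meets_fground.1 h1, h2⟩

theorem InOpen_bo_of {x : ℕ → ℚ → Set P} {v : ℕ} {p : P} {J : ℚ × ℚ} (hJ : J ∈ dl v)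
    (h : p ∈ InIoo x J.1 J.2) : p ∈ InOpen x (bo v) :=
  mem_fex_of_mem J (down_fand (down_meets _) (down_InIoo _ _ _)) ⟨meets_fground.2 hJ, h⟩

theorem InOpen_of_mem {x : ℕ → ℚ → Set P} {O : ℚ × ℚ → Set P} {p : P} {J : ℚ × ℚ}
    (hJ : p ∈ meets (O J)) (h : p ∈ InIoo x J.1 J.2) : p ∈ InOpen x O :=
  mem_fex_of_mem J (down_fand (down_meets _) (down_InIoo _ _ _)) ⟨hJ, h⟩

theorem InOpen_congr {x : ℕ → ℚ → Set P} {O O' : ℚ × ℚ → Set P} {p : P}
    (h : ∀ q ≤ p, ∀ J, q ∈ meets (O J) → q ∈ meets (O' J)) (hp : p ∈ InOpen x O) :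
    p ∈ InOpen x O' := by
  refine rgl_fex _ p fun q hq => ?_
  obtain ⟨r, hr, J, h1, h2⟩ := mem_fex.1 hp q hq
  exact ⟨r, hr, InOpen_of_mem (h r (hr.trans hq) J h1) h2⟩

theorem rgl_InOpen (x : ℕ → ℚ → Set P) (O : ℚ × ℚ → Set P) : Rgl (InOpen x O) := rgl_fex _

/-- a name obtained by mixing -/
def mixO (A : Set P) (O : P → ℚ × ℚ → Set P) (J : ℚ × ℚ) : Set P :=
  {s | ∃ a ∈ A, s ≤ a ∧ s ∈ meets (O a J)}

theorem mixO_iff {A : Set P} (hA : ∀ a ∈ A, ∀ b ∈ A, Compat a b → a = b)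
    {O : P → ℚ × ℚ → Set P} {a : P} (ha : a ∈ A) {s : P} (hs : s ≤ a) (J : ℚ × ℚ) :
    s ∈ meets (mixO A O J) ↔ s ∈ meets (O a J) := by
  constructor
  · intro h
    refine rgl_meets _ _ fun t ht => ?_
    obtain ⟨t', ht', w, ⟨a', ha', h1, h2⟩, h3⟩ := h t ht
    have : a = a' := hA a ha a' ha' ⟨t', (ht'.trans ht).trans hs, h3.trans h1⟩
    subst this
    exact ⟨t', ht', down_meets _ _ h2 _ h3⟩
  · intro h
    exact meets_of_mem ⟨a, ha, hs, h⟩

/-- the generic filter contains `q` -/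
theorem mem_meets_singleton {p q : P} : p ∈ meets ({q} : Set P) ↔ ∀ r ≤ p, ∃ s ≤ r, s ≤ q := by
  constructor
  · intro h r hr
    obtain ⟨s, hs, t, ht, hst⟩ := h r hr
    rw [Set.mem_singleton_iff] at ht
    subst ht
    exact ⟨s, hs, hst⟩
  · intro h r hr
    obtain ⟨s, hs, hsq⟩ := h r hr
    exact ⟨s, hs, q, rfl, hsq⟩

/-- the basic open set coded by `v` is contained in a member of `U` -/
def SubMem (U : (ℚ × ℚ → Set P) → Set P) (v : ℕ) : Set P :=
  fex fun O : ℚ × ℚ → Set P => fand (meets (U O)) (fall fun J => fall fun _ : J ∈ dl v => meets (O J))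

theorem down_SubMem (U : (ℚ × ℚ → Set P) → Set P) (v : ℕ) : Down (SubMem U v) := down_fex _

theorem meets_self {φ : Set P} (hd : Down φ) (hr : Rgl φ) : meets φ = φ := by
  ext p
  constructor
  · intro h
    refine hr p fun q hq => ?_
    obtain ⟨r, hr', s, hs, hrs⟩ := h q hq
    exact ⟨r, hr', hd s hs r hrs⟩
  · exact fun h => meets_of_mem h

/-- a finite set of points of an open set lies in the union of finitely many of its intervals -/
theorem exists_ivlist {Y : Type} {E : Y → ℕ → ℚ → Set P} {O : ℚ × ℚ → Set P} {q : P} (F : Finset Y)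
    (h : ∀ y ∈ F, q ∈ InOpen (E y) O) : ∃ r ≤ q, ∃ l : List (ℚ × ℚ),
      (∀ J ∈ l, r ∈ meets (O J)) ∧ ∀ y ∈ F, ∃ J ∈ l, r ∈ InIoo (E y) J.1 J.2 := by
  classical
  induction F using Finset.induction_on with
  | empty => exact ⟨q, le_rfl, [], by simp, by simp⟩
  | insert y F _ ih =>
    obtain ⟨r, hr, l, h1, h2⟩ := ih fun y hy => h y (Finset.mem_insert_of_mem hy)
    obtain ⟨s, hs, J, h3, h4⟩ := mem_fex.1 (h y (Finset.mem_insert_self y F)) r hr
    refine ⟨s, hs.trans hr, J :: l, fun J' hJ' => ?_, fun y' hy' => ?_⟩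
    · rcases List.mem_cons.1 hJ' with rfl | hJ'
      · exact h3
      · exact down_meets _ _ (h1 J' hJ') _ hs
    · rcases Finset.mem_insert.1 hy' with rfl | hy'
      · exact ⟨J, List.mem_cons_self, h4⟩
      · obtain ⟨J', hJ', h5⟩ := h2 y' hy'
        exact ⟨J', List.mem_cons_of_mem _ hJ', down_InIoo _ _ _ _ h5 _ hs⟩

end

theorem LocP_InOpen_bo {b : WithTop JJ} {x : ℕ → ℚ → Set PP} (h : ∀ n a, LocP b (meets (x n a)))
    (v : ℕ) : LocP b (InOpen x (bo v)) :=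
  LocP.fex (fun J => LocP.fand (fun p hp => meets_fground.2 (meets_fground.1 hp))
    (LocP_InIoo h _ _)) fun J => down_fand (down_meets _) (down_InIoo _ _ _)

theorem one_le_two : (ℵ_ (1 : Ordinal.{0})) ≤ ℵ_ 2 := by
  rw [aleph_two]; exact Order.le_succ _

/-- in the extension all families of reals indexed by `ω₁` are γ-sets -/
theorem gamma_of_family (E : W1 → ℕ → ℚ → Set PP) (p : PP) : p ∈ IsGammaSet E := by
  classical
  intro U
  refine fimp_of fun q _ hq => ?_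
  -- the stage
  obtain ⟨b, hloc, _⟩ := exists_stage (ι := (W1 × ℕ × ℚ) ⊕ (Unit ⊕ (ℕ × ℕ))) (ι' := Unit)
    (by
      have h1 : #(W1 × ℕ × ℚ) ≤ ℵ_ 2 := by
        simp only [mk_prod, lift_id, mk_W1]
        exact (mul_le_mul' one_le_two ((mk_le_aleph0 (α := ℕ × ℚ)).trans
          (aleph0_le_aleph 2))).trans (mul_eq_self (aleph0_le_aleph 2)).le
      have h2 : #(Unit ⊕ (ℕ × ℕ)) ≤ ℵ_ 2 := mk_le_aleph0.trans (aleph0_le_aleph 2)
      rw [mk_sum, lift_id, lift_id]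
      exact (add_le_add h1 h2).trans (add_eq_self (aleph0_le_aleph 2)).le)
    (mk_le_aleph0.trans (aleph0_le_aleph 2))
    (Sum.elim (fun x => E x.1 x.2.1 x.2.2) (Sum.elim (fun _ => {q}) fun x => SubMem (U x.1) x.2))
    (fun _ => q)
  have hE : ∀ i n a, LocP (cb b) (meets (E i n a)) := fun i n a => hloc (Sum.inl (i, n, a))
  have hQ : LocP (cb b) (meets ({q} : Set PP)) := hloc (Sum.inr (Sum.inl ()))
  have hM : ∀ n v, LocP (cb b) (SubMem (U n) v) := fun n v => by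
    have := hloc (Sum.inr (Sum.inr (n, v)))
    simp only [Sum.elim_inr] at this
    rwa [meets_self (down_SubMem _ _) (rgl_fex _)] at this
  let Φ : W1 → ℕ → ℕ → Set PP := fun i n v =>
    fimp (meets {q}) (fand (InOpen (E i) (bo v)) (SubMem (U n) v))
  have hdI : ∀ i n v, Down (fand (InOpen (E i) (bo v)) (SubMem (U n) v)) := fun i n v =>
    down_fand (down_InOpen _ _) (down_SubMem _ _)
  obtain ⟨t, ht⟩ := exists_generic b Φ (fun i n v => down_fimp _ _)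
    (fun i n v => rgl_fimp (down_meets _))
    (fun i n v => LocP.fimp hQ ((LocP_InOpen_bo (hE i) v).fand (hM n v)) (down_meets _)
      (hdI i n v)) (by
      intro n F hF r
      by_cases hc : Compat r q
      · obtain ⟨r1, hr1, hr1q⟩ := hc
        obtain ⟨r2, hr2, O, h1, h2⟩ := mem_fex.1 ((hq n).2 F) r1 hr1q
        obtain ⟨r3, hr3, l, h3, h4⟩ := exists_ivlist (E := E) F (fun y hy => h2 y hy)
        refine ⟨r3, hr3.trans (hr2.trans hr1), Encodable.encode l, fun i hi => ?_⟩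
        refine fimp_of fun s hs _ => ⟨?_, ?_⟩
        · obtain ⟨J, hJ, h5⟩ := h4 i hi
          exact InOpen_bo_of (by rw [dl_encode]; exact hJ) (down_InIoo _ _ _ _ h5 _ hs)
        · refine mem_fex_of_mem O (down_fand (down_meets _) (down_fall fun _ => down_fall fun _ =>
            down_meets _)) ⟨down_meets _ _ h1 _ (hs.trans hr3), fun J hJ => ?_⟩
          rw [dl_encode] at hJ
          exact down_meets _ _ (h3 J hJ) _ hs
      · refine ⟨r, le_rfl, 0, fun i _ => fimp_of fun s hs hm => ?_⟩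
        exfalso
        obtain ⟨s', hs', hs'q⟩ := mem_meets_singleton.1 hm s le_rfl
        exact hc ⟨s', hs'.trans hs, hs'q⟩)
  -- the members
  let g := gn (ct b t)
  have hD : ∀ n, ∀ r : PP, ∃ s ≤ r, (¬ Compat s q) ∨ ∃ O : ℚ × ℚ → Set PP, s ∈ meets (U n O) ∧
      ∃ v, s ∈ meets (g n v) ∧ ((∀ J ∈ dl v, s ∈ meets (O J)) ∨ s ∈ fnot (SubMem (U n) v)) := by
    intro n r
    by_cases hc : Compat r q
    · obtain ⟨r1, hr1, hr1q⟩ := hc
      obtain ⟨r2, hr2, v, hv⟩ := exists_gn (ct_lt_top b t) r1 n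
      have hr2r : r2 ≤ r := hr2.trans hr1
      rcases exists_or_fnot (SubMem (U n) v) r2 with ⟨r3, hr3, h1⟩ | h1
      · obtain ⟨r4, hr4, O, h2, h3⟩ := mem_fex.1 h1 r3 le_rfl
        exact ⟨r4, (hr4.trans hr3).trans hr2r, Or.inr ⟨O, h2, v,
          meets_of_mem (down_gn _ _ _ _ hv _ (hr4.trans hr3)), Or.inl fun J hJ => h3 J hJ⟩⟩
      · obtain ⟨r3, hr3, O, h2, _⟩ := mem_fex.1 ((hq n).2 ∅) r2 (hr2.trans hr1q)
        exact ⟨r3, hr3.trans hr2r, Or.inr ⟨O, h2, v, meets_of_mem (down_gn _ _ _ _ hv _ hr3),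
          Or.inr (down_fnot _ _ h1 _ hr3)⟩⟩
    · exact ⟨r, le_rfl, Or.inl hc⟩
  have hA : ∀ n, ∃ A : Set PP, (A ⊆ {s | (¬ Compat s q) ∨ ∃ O : ℚ × ℚ → Set PP, s ∈ meets (U n O) ∧
      ∃ v, s ∈ meets (g n v) ∧ ((∀ J ∈ dl v, s ∈ meets (O J)) ∨ s ∈ fnot (SubMem (U n) v))}) ∧
      (∀ p, ∃ a ∈ A, Compat a p) ∧ ∀ a ∈ A, ∀ b ∈ A, Compat a b → a = b := by
    intro n
    obtain ⟨A, h1, _, h2, h3⟩ := exists_antichain ccc_PP _ (hD n)
    exact ⟨A, h1, h2, h3⟩
  choose A hA1 hA2 hA3 using hA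
  have hO : ∀ n, ∀ a : PP, ∃ O : ℚ × ℚ → Set PP, a ∈ A n → Compat a q → a ∈ meets (U n O) ∧
      ∃ v, a ∈ meets (g n v) ∧ ((∀ J ∈ dl v, a ∈ meets (O J)) ∨ a ∈ fnot (SubMem (U n) v)) := by
    intro n a
    by_cases ha : a ∈ A n ∧ Compat a q
    · rcases hA1 n ha.1 with h1 | ⟨O, h1⟩
      · exact absurd ha.2 h1
      · exact ⟨O, fun _ _ => h1⟩
    · exact ⟨fun _ => ∅, fun h1 h2 => absurd ⟨h1, h2⟩ ha⟩
  choose O hOs using hO
  let V : ℕ → ℚ × ℚ → Set PP := fun n => mixO (A n) (O n)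
  have hV : ∀ n, ∀ a ∈ A n, ∀ s ≤ a, ∀ J, s ∈ meets (V n J) ↔ s ∈ meets (O n a J) :=
    fun n a ha s hs J => mixO_iff (hA3 n) ha hs J
  -- the members of the selection are members of the covers
  have hmem : ∀ n, q ∈ IsMember E (V n) (U n) := by
    intro n
    refine mem_fex.2 fun r hr => ?_
    obtain ⟨a, ha, s, hsa, hsr⟩ := hA2 n r
    have hsq : s ≤ q := hsr.trans hr
    refine ⟨s, hsr, O n a, down_meets _ _ (hOs n a ha ⟨s, hsa, hsq⟩).1 _ hsa, fun y => ⟨?_, ?_⟩⟩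
    · exact fimp_of fun s' hs' h => InOpen_congr
        (fun w hw J hJ => (hV n a ha w ((hw.trans hs').trans hsa) J).1 hJ) h
    · exact fimp_of fun s' hs' h => InOpen_congr
        (fun w hw J hJ => (hV n a ha w ((hw.trans hs').trans hsa) J).2 hJ) h
  -- every point is in almost all members
  have hG : ∀ i, ∀ r ≤ q, ∃ s ≤ r, ∃ k, ∀ n ≥ k, s ∈ InOpen (E i) (V n) := by
    intro i r hr
    obtain ⟨s, hs, k, h1⟩ := ht i r
    refine ⟨s, hs, k, fun n hn => rgl_InOpen _ _ _ fun w hw => ?_⟩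
    obtain ⟨a, ha, w', hwa, hww⟩ := hA2 n w
    have hwq : w' ≤ q := (hww.trans hw).trans (hs.trans hr)
    obtain ⟨_, v, h2, h3⟩ := hOs n a ha ⟨w', hwa, hwq⟩
    have h4 := h1 n hn v w' (hww.trans hw) (down_meets _ _ h2 _ hwa)
    have h5 := mem_of_fimp h4 (down_meets _) (rgl_fand (rgl_InOpen _ _) (rgl_fex _))
      (mem_meets_singleton.2 fun r' hr' => ⟨r', le_rfl, hr'.trans hwq⟩)
    refine ⟨w', hww, InOpen_congr (O := O n a)
      (fun x hx J hJ => (hV n a ha x (hx.trans hwa) J).2 hJ) ?_⟩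
    rcases h3 with h3 | h3
    · refine rgl_InOpen _ _ _ fun x hx => ?_
      obtain ⟨x', hx', J, hJ, h6⟩ := exists_of_InOpen_bo (down_InOpen _ _ _ h5.1 _ hx)
      exact ⟨x', hx', InOpen_of_mem (down_meets _ _ (h3 J hJ) _ ((hx'.trans hx).trans hwa)) h6⟩
    · exact absurd h5.2 (h3 w' hwa)
  -- no member contains everything
  have hN : ∀ n, ∀ r ≤ q, ∃ s ≤ r, ∃ i, s ∈ fnot (InOpen (E i) (V n)) := by
    intro n r hr
    obtain ⟨s, hs, O', h1, h2⟩ := mem_fex.1 (hmem n) r hr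
    obtain ⟨s1, hs1, h3⟩ := mem_fimp.1 ((hq n).1 O') s (hs.trans hr) h1
    obtain ⟨s2, hs2, i, h4⟩ := mem_fex.1 h3 s1 le_rfl
    refine ⟨s2, (hs2.trans hs1).trans hs, i, fun w hw hwV => ?_⟩
    have h5 : w ∈ InOpen (E i) O' := mem_of_fimp
      (down_fimp _ _ _ (h2 i).1 _ (hw.trans (hs2.trans hs1))) (down_InOpen _ _)
      (rgl_InOpen _ _) hwV
    exact h4 w hw h5
  refine mem_fex_of_mem V (down_fand (down_fall fun _ => down_fex _) (down_fand
    (down_fall fun _ => down_fex _) (down_fall fun _ => down_fex _))) ⟨hmem, fun m => ?_, fun i => ?_⟩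
  · refine mem_fex.2 fun r hr => ?_
    -- finitely many members, and points outside them
    have key : ∀ m : ℕ, ∃ s ≤ r, ∃ K : ℕ, ∀ k < m, ∃ i, s ∈ fnot (InOpen (E i) (V k)) ∧
        ∀ n ≥ K, s ∈ InOpen (E i) (V n) := by
      intro m
      induction m with
      | zero => exact ⟨r, le_rfl, 0, by simp⟩
      | succ m ih =>
        obtain ⟨s, hs, K, h1⟩ := ih
        obtain ⟨s1, hs1, i, h2⟩ := hN m s (hs.trans hr)
        obtain ⟨s2, hs2, K', h3⟩ := hG i s1 (hs1.trans (hs.trans hr))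
        refine ⟨s2, (hs2.trans hs1).trans hs, max K K', fun k hk => ?_⟩
        rcases Nat.lt_succ_iff_lt_or_eq.1 hk with hk | rfl
        · obtain ⟨i', h4, h5⟩ := h1 k hk
          exact ⟨i', down_fnot _ _ h4 _ (hs2.trans hs1), fun n hn =>
            down_InOpen _ _ _ (h5 n ((le_max_left _ _).trans hn)) _ (hs2.trans hs1)⟩
        · exact ⟨i, down_fnot _ _ h2 _ hs2, fun n hn => h3 n ((le_max_right _ _).trans hn)⟩
    obtain ⟨s, hs, K, h1⟩ := key m
    refine ⟨s, hs, K, fun k hk w hw hsame => ?_⟩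
    obtain ⟨i, h2, h3⟩ := h1 k hk
    have h4 : w ∈ InOpen (E i) (V k) := mem_of_fimp (hsame i).1 (down_InOpen _ _)
      (rgl_InOpen _ _) (down_InOpen _ _ _ (h3 K le_rfl) _ hw)
    exact h2 w hw h4
  · refine mem_fex.2 fun r hr => ?_
    obtain ⟨s, hs, k, h1⟩ := hG i r hr
    refine ⟨s, hs, k, fun n => fimp_of fun w hw hnot => ?_⟩
    by_cases hn : n < k
    · exact mem_fex_of_mem n (down_fand (down_fground _) (down_SameTrace _ _))
        ⟨hn, SameTrace_refl _ _⟩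
    · exact absurd (down_InOpen _ _ _ (h1 n (not_lt.1 hn)) _ hw) (hnot w le_rfl)

end Pool.Agent.H652G
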