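import Mathlib
import Pool.Agent.H652G.Gamma

/-!
# There is an uncountable γ-set in the extension
-/

namespace Pool.Agent.H652G

open Cardinal Pool.Agent.Helper669.Forcing Pool.Agent.H652R2.Defs Pool.Agent.H652G.Defs

set_option linter.unusedSectionVars false
set_option linter.unusedVariables false

theorem exists_ap (x : ℝ) (n : ℕ) : ∃ a : ℚ, |x - a| ≤ (1 / 2) ^ (n + 1) := by
  have h : (0 : ℝ) < (1 / 2) ^ (n + 1) := by positivity
  obtain ⟨a, h1, h2⟩ := exists_rat_btwn (show x - (1 / 2) ^ (n + 1) < x + (1 / 2) ^ (n + 1) by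
    linarith)
  refine ⟨a, ?_⟩
  rw [abs_le]
  constructor <;> linarith

/-- rational approximations of a real number -/
noncomputable def ap (x : ℝ) (n : ℕ) : ℚ := (exists_ap x n).choose

theorem abs_ap (x : ℝ) (n : ℕ) : |x - ap x n| ≤ (1 / 2) ^ (n + 1) := (exists_ap x n).choose_spec

theorem ap_close (x : ℝ) (m n : ℕ) (h : m ≤ n) : |ap x m - ap x n| ≤ (1 / 2) ^ m := by
  have h1 := abs_ap x m
  have h2 := abs_ap x n
  have h3 : ((1 : ℝ) / 2) ^ (n + 1) ≤ (1 / 2) ^ (m + 1) :=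
    pow_le_pow_of_le_one (by norm_num) (by norm_num) (by omega)
  have h4 : ((1 : ℝ) / 2) ^ (m + 1) = (1 / 2) ^ m / 2 := by rw [pow_succ]; ring
  have h5 : |((ap x m - ap x n : ℚ) : ℝ)| ≤ (1 / 2) ^ m := by
    push_cast
    rw [abs_le] at *
    constructor <;> linarith [h1.1, h1.2, h2.1, h2.2]
  have h6 : ((|ap x m - ap x n| : ℚ) : ℝ) ≤ (((1 / 2) ^ m : ℚ) : ℝ) := by
    push_cast at h5 ⊢
    exact h5
  exact_mod_cast h6

theorem statementI (p : PP) : p ∈ StatementI PP := by
  classical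
  obtain ⟨ψ⟩ : Nonempty (W1 ↪ ℝ) := by
    have : #W1 ≤ #ℝ := by rw [mk_W1, mk_real]; exact aleph_one_le_continuum
    exact this
  have hun : ¬ Countable W1 := by
    rw [← mk_le_aleph0_iff, mk_W1, not_le, ← aleph_zero]
    exact aleph_lt_aleph.2 zero_lt_one
  let E : W1 → ℕ → ℚ → Set PP := fun i => gr (ap (ψ i))
  have hE : ∀ i (p : PP), p ∈ IsReal (E i) := fun i p => isReal_gr (ap_close (ψ i)) p
  refine mem_fex_of_mem W1 (down_fex _) (mem_fex_of_mem E ?_ ⟨fun i => hE i p,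
    gamma_of_family E p, ?_⟩)
  · exact down_fand (down_fall fun _ => down_IsReal _) (down_fand (down_fall fun _ =>
      down_fimp _ _) (down_fnot _))
  · intro q _ hq
    obtain ⟨q0, hq0, S, h1, h2⟩ := mem_fex.1 hq q le_rfl
    have h3 : ∀ i, ∃ q1 ≤ q0, ∃ n, q1 ∈ SameR (E i) (S n) := fun i =>
      mem_fex.1 (h2 i) q0 le_rfl
    choose f hf n hn using h3
    -- uncountably many with the same `n`
    obtain ⟨k, hk⟩ : ∃ k, ¬ Countable {i | n i = k} := by
      by_contra hcon
      push Not at hcon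
      apply hun
      have : (Set.univ : Set W1) = ⋃ k, {i | n i = k} := by ext i; simp
      rw [← Set.countable_univ_iff, this]
      exact Set.countable_iUnion fun k => Set.countable_coe_iff.1 (hcon k)
    obtain ⟨i, j, hij, r, hri, hrj⟩ := ccc_PP (fun i : {i | n i = k} => f i.1) hk
    apply hij
    apply Subtype.ext
    apply ψ.injective
    have hS : r ∈ IsReal (S k) := down_IsReal _ _ (h1 k) _ (hri.trans (hf i.1))
    have hi : r ∈ SameR (E i.1) (S k) := by
      have := down_SameR _ _ _ (hn i.1) _ hri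
      rwa [show n i.1 = k from i.2] at this
    have hj : r ∈ SameR (E j.1) (S k) := by
      have := down_SameR _ _ _ (hn j.1) _ hrj
      rwa [show n j.1 = k from j.2] at this
    have key : ∀ N : ℕ, |ψ i.1 - ψ j.1| ≤ 5 * (1 / 2) ^ N := by
      intro N
      obtain ⟨s, hs, c, hc⟩ := IsReal.total hS N
      have h4 : |ap (ψ i.1) N - c| ≤ 2 * (1 / 2) ^ N :=
        ground_of_fimp (down_SameR _ _ _ hi _ hs N (ap (ψ i.1) N) c) ⟨meets_fground.2 rfl, hc⟩
      have h5 : |ap (ψ j.1) N - c| ≤ 2 * (1 / 2) ^ N :=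
        ground_of_fimp (down_SameR _ _ _ hj _ hs N (ap (ψ j.1) N) c) ⟨meets_fground.2 rfl, hc⟩
      have h6 := abs_ap (ψ i.1) N
      have h7 := abs_ap (ψ j.1) N
      have h8 : ((1 : ℝ) / 2) ^ (N + 1) = (1 / 2) ^ N / 2 := by rw [pow_succ]; ring
      have h4' : |(ap (ψ i.1) N : ℝ) - c| ≤ 2 * (1 / 2) ^ N := by
        have := (Rat.cast_le (K := ℝ)).2 h4
        push_cast at this
        exact this
      have h5' : |(ap (ψ j.1) N : ℝ) - c| ≤ 2 * (1 / 2) ^ N := by
        have := (Rat.cast_le (K := ℝ)).2 h5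
        push_cast at this
        exact this
      rw [abs_le] at *
      constructor <;> linarith [h4'.1, h4'.2, h5'.1, h5'.2, h6.1, h6.2, h7.1, h7.2]
    by_contra hne
    have hpos : 0 < |ψ i.1 - ψ j.1| := abs_pos.2 (sub_ne_zero.2 hne)
    obtain ⟨N, hN⟩ := exists_pow_lt_of_lt_one (show 0 < |ψ i.1 - ψ j.1| / 5 by positivity)
      (show (1 / 2 : ℝ) < 1 by norm_num)
    have := key N
    linarith

end Pool.Agent.H652G
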