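import Mathlib
import Pool.Agent.H652G.Unc

/-!
# Products: the estimate for the sums
-/

namespace Pool.Agent.H652G

open Pool.Agent.Helper669.Forcing Pool.Agent.H652R2.Defs Pool.Agent.H652G.Defs

set_option linter.unusedSectionVars false
set_option linter.unusedVariables false

theorem len_nonneg (J : ℚ × ℚ) : 0 ≤ len J := le_max_right _ _

theorem diam_nonneg (B : (ℚ × ℚ) × (ℚ × ℚ)) : 0 ≤ diam B := Real.sqrt_nonneg _

/-- the power of the length of `J` -/
noncomputable def aa (k : ℕ) (J : ℚ × ℚ) : ℝ := len J ^ ((1 : ℝ) / ((2 * k + 1 : ℕ) + 1))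

theorem aa_nonneg (k : ℕ) (J : ℚ × ℚ) : 0 ≤ aa k J := Real.rpow_nonneg (len_nonneg J) _

theorem aa_pow (k : ℕ) (J : ℚ × ℚ) : aa k J ^ (2 * (k + 1)) = len J := by
  rw [aa, ← Real.rpow_natCast, ← Real.rpow_mul (len_nonneg J)]
  have : (1 : ℝ) / ((2 * k + 1 : ℕ) + 1) * ((2 * (k + 1) : ℕ) : ℝ) = 1 := by
    push_cast
    field_simp
    ring
  rw [this, Real.rpow_one]

theorem len_rpow (k : ℕ) (J : ℚ × ℚ) : len J ^ ((1 : ℝ) / (k + 1)) = aa k J ^ 2 := by
  rw [aa, ← Real.rpow_natCast, ← Real.rpow_mul (len_nonneg J)]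
  congr 1
  push_cast
  field_simp
  ring

theorem diam_rpow_le {k : ℕ} {K J : ℚ × ℚ} (h : len K ≤ len J) :
    diam (K, J) ^ ((1 : ℝ) / (k + 1)) ≤ 2 * aa k J ^ 2 := by
  have h0 := len_nonneg K
  have h0' := len_nonneg J
  have h1 : diam (K, J) ≤ 2 * len J := by
    unfold diam
    rw [Real.sqrt_le_iff]
    refine ⟨by positivity, ?_⟩
    show len K ^ 2 + len J ^ 2 ≤ _
    nlinarith
  have hk : (0 : ℝ) ≤ 1 / (k + 1) := by positivity
  calc diam (K, J) ^ ((1 : ℝ) / (k + 1)) ≤ (2 * len J) ^ ((1 : ℝ) / (k + 1)) :=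
        Real.rpow_le_rpow (diam_nonneg _) h1 hk
    _ = 2 ^ ((1 : ℝ) / (k + 1)) * len J ^ ((1 : ℝ) / (k + 1)) :=
        Real.mul_rpow (by norm_num) h0'
    _ ≤ 2 * aa k J ^ 2 := by
        rw [len_rpow]
        refine mul_le_mul_of_nonneg_right ?_ (by positivity)
        calc (2 : ℝ) ^ ((1 : ℝ) / (k + 1)) ≤ 2 ^ (1 : ℝ) :=
              Real.rpow_le_rpow_of_exponent_le (by norm_num) (by
                rw [div_le_one (by positivity)]
                have : (0 : ℝ) ≤ k := by positivity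
                linarith)
          _ = 2 := Real.rpow_one _

open Classical in
/-- the class of `J` -/
noncomputable def cl (k : ℕ) (J : ℚ × ℚ) : ℕ :=
  if h : ∃ j : ℕ, (1 / 2 : ℝ) ^ (j + 1) < aa k J then Nat.find h else 0

theorem exists_cl {k : ℕ} {J : ℚ × ℚ} (h : 0 < aa k J) : ∃ j : ℕ, (1 / 2 : ℝ) ^ (j + 1) < aa k J := by
  obtain ⟨j, hj⟩ := exists_pow_lt_of_lt_one h (show (1 / 2 : ℝ) < 1 by norm_num)
  exact ⟨j, (pow_le_pow_of_le_one (by norm_num) (by norm_num) (Nat.le_succ j)).trans_lt hj⟩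

theorem cl_spec {k : ℕ} {J : ℚ × ℚ} (h : 0 < aa k J) : (1 / 2 : ℝ) ^ (cl k J + 1) < aa k J := by
  have h1 := exists_cl h
  rw [cl, dif_pos h1]
  exact Nat.find_spec h1

theorem le_of_lt_cl {k : ℕ} {J : ℚ × ℚ} {j : ℕ} (h : j < cl k J) :
    aa k J ≤ (1 / 2 : ℝ) ^ (j + 1) := by
  by_cases h1 : ∃ j : ℕ, (1 / 2 : ℝ) ^ (j + 1) < aa k J
  · rw [cl, dif_pos h1] at h
    exact not_lt.1 (Nat.find_min h1 h)
  · rw [cl, dif_neg h1] at h
    omega

theorem le_cl {k : ℕ} {J : ℚ × ℚ} (h : 0 < aa k J) {b : ℕ} (hb : aa k J ≤ (1 / 2 : ℝ) ^ b) :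
    b ≤ cl k J := by
  by_contra hlt
  have h1 := cl_spec h
  have h2 : (1 / 2 : ℝ) ^ b ≤ (1 / 2) ^ (cl k J + 1) :=
    pow_le_pow_of_le_one (by norm_num) (by norm_num) (by omega)
  linarith

theorem two_mul_le_pow (j : ℕ) (h : 1 ≤ j) : 2 * j ≤ 2 ^ j := by
  induction j, h using Nat.le_induction with
  | base => norm_num
  | succ j hj ih => rw [pow_succ]; omega

theorem cl_mul (k : ℕ) (J : ℚ × ℚ) : (cl k J : ℝ) * (2 * aa k J ^ 2) ≤ aa k J := by
  rcases Nat.eq_zero_or_pos (cl k J) with h | h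
  · rw [h]; simpa using aa_nonneg k J
  · have h1 := le_of_lt_cl (show cl k J - 1 < cl k J by omega)
    rw [Nat.sub_add_cancel h] at h1
    have h2 : (2 * (cl k J : ℝ)) ≤ 2 ^ (cl k J) := by exact_mod_cast two_mul_le_pow _ h
    have h3 : (2 : ℝ) ^ (cl k J) * (1 / 2) ^ (cl k J) = 1 := by
      rw [← mul_pow]; norm_num
    have h4 : (2 * (cl k J : ℝ)) * aa k J ≤ 1 := by
      rw [← h3]
      exact mul_le_mul h2 h1 (aa_nonneg k J) (by positivity)
    have h5 := aa_nonneg k J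
    nlinarith

/-- the precision at `n` -/
noncomputable def dd (k n : ℕ) : ℝ := (1 / 2 : ℝ) ^ ((n + 1) * (2 * (k + 1)))

theorem dd_pos (k n : ℕ) : 0 < dd k n := by unfold dd; positivity

theorem dd_le {k : ℕ} {J : ℚ × ℚ} (h : 0 < aa k J) : dd k (cl k J) ≤ len J := by
  rw [← aa_pow k J, dd, pow_mul]
  exact pow_le_pow_left₀ (by positivity) (cl_spec h).le _

/-- `v` codes a list of at most `n` intervals of length at most `dd k n` -/
def Vld (k n v : ℕ) : Prop := (dl v).length ≤ n ∧ ∀ K ∈ dl v, len K ≤ dd k n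

open Classical in
/-- the box number `c` -/
noncomputable def BX (k v : ℕ) (J : ℚ × ℚ) (c : ℕ) : (ℚ × ℚ) × (ℚ × ℚ) :=
  if 0 < aa k J ∧ Vld k (cl k J) v then ((dl v)[c]?.elim ((0, 0), (0, 0)) fun K => (K, J))
    else ((0, 0), (0, 0))

theorem diam_zero : diam ((0, 0), (0, 0)) = 0 := by
  simp [diam, len]

theorem BX_le (k v : ℕ) (J : ℚ × ℚ) (c : ℕ) :
    diam (BX k v J c) ^ ((1 : ℝ) / (k + 1)) ≤ if c < cl k J then 2 * aa k J ^ 2 else 0 := by
  have h0 : (0 : ℝ) ^ ((1 : ℝ) / (k + 1)) = 0 := Real.zero_rpow (by positivity)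
  have hz : diam ((0, 0), (0, 0)) ^ ((1 : ℝ) / (k + 1)) ≤
      if c < cl k J then 2 * aa k J ^ 2 else 0 := by
    rw [diam_zero, h0]
    split_ifs
    · positivity
    · exact le_rfl
  unfold BX
  split_ifs with h h'
  · rcases h1 : (dl v)[c]? with _ | K
    · simpa [h'] using hz
    · obtain ⟨h2, h3⟩ := List.getElem?_eq_some_iff.1 h1
      exact diam_rpow_le ((h.2.2 K (by rw [← h3]; exact List.getElem_mem h2)).trans (dd_le h.1))
  · have h1 : (dl v)[c]? = none := List.getElem?_eq_none (by have := h.2.1; omega)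
    rw [h1]
    simpa [h'] using hz
  · simpa [*] using hz
  · simpa [*] using hz

theorem sum_BX_le (k v : ℕ) (J : ℚ × ℚ) (L : ℕ) :
    ∑ c ∈ Finset.range L, diam (BX k v J c) ^ ((1 : ℝ) / (k + 1)) ≤ aa k J := by
  have h1 : ∑ c ∈ Finset.range L, diam (BX k v J c) ^ ((1 : ℝ) / (k + 1)) ≤
      ∑ c ∈ Finset.range L, if c < cl k J then 2 * aa k J ^ 2 else 0 :=
    Finset.sum_le_sum fun c _ => BX_le k v J c
  refine h1.trans ?_
  rw [← Finset.sum_filter, Finset.sum_const, nsmul_eq_mul]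
  refine le_trans ?_ (cl_mul k J)
  refine mul_le_mul_of_nonneg_right ?_ (by positivity)
  have : (Finset.filter (fun c => c < cl k J) (Finset.range L)).card ≤ (Finset.range (cl k J)).card := by
    apply Finset.card_le_card
    intro c hc
    rw [Finset.mem_filter] at hc
    exact Finset.mem_range.2 hc.2
  rw [Finset.card_range] at this
  exact_mod_cast this

/-- the triple coded by `N` -/
def tr (N : ℕ) : ℕ × ℕ × ℕ := (N.unpair.1, (N.unpair.2).unpair)

theorem tr_inj {N N' : ℕ} (h : tr N = tr N') : N = N' := by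
  have h1 : (tr N).1 = (tr N').1 := by rw [h]
  have h2 : (tr N).2 = (tr N').2 := by rw [h]
  change N.unpair.1 = N'.unpair.1 at h1
  change (N.unpair.2).unpair = (N'.unpair.2).unpair at h2
  have h3 : N.unpair.2 = N'.unpair.2 := by
    rw [← Nat.pair_unpair N.unpair.2, h2, Nat.pair_unpair]
  rw [← Nat.pair_unpair N, h1, h3, Nat.pair_unpair]

theorem tr_surj (β n c : ℕ) : tr (Nat.pair β (Nat.pair n c)) = (β, n, c) := by
  simp [tr]

theorem tr_lt {N L : ℕ} (h : N < L) : (tr N).1 < L ∧ (tr N).2.1 < L ∧ (tr N).2.2 < L := by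
  have h1 := Nat.unpair_left_le N
  have h2 := Nat.unpair_right_le N
  have h3 := Nat.unpair_left_le N.unpair.2
  have h4 := Nat.unpair_right_le N.unpair.2
  refine ⟨lt_of_le_of_lt h1 h, lt_of_le_of_lt (h3.trans h2) h, lt_of_le_of_lt (h4.trans h2) h⟩

theorem geom_le (m L : ℕ) : ∑ β ∈ Finset.range L, (1 / 2 : ℝ) ^ (m + 1 + β) ≤ (1 / 2) ^ m := by
  have h : ∀ L : ℕ, ∑ β ∈ Finset.range L, (1 / 2 : ℝ) ^ (m + 1 + β) = (1 / 2) ^ m - (1 / 2) ^ (m + L) := by
    intro L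
    induction L with
    | zero => simp
    | succ L ih =>
      rw [Finset.sum_range_succ, ih]
      have : (1 / 2 : ℝ) ^ (m + 1 + L) = (1 / 2) ^ (m + L) / 2 := by
        rw [show m + 1 + L = (m + L) + 1 by ring, pow_succ]; ring
      have h' : (1 / 2 : ℝ) ^ (m + (L + 1)) = (1 / 2) ^ (m + L) / 2 := by
        rw [show m + (L + 1) = (m + L) + 1 by ring, pow_succ]; ring
      rw [this, h']; ring
  rw [h]
  have : (0 : ℝ) < (1 / 2) ^ (m + L) := by positivity
  linarith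

/-- the sum of all boxes -/
theorem total_le (k m L : ℕ) (J : ℕ → ℕ → ℚ × ℚ) (v : ℕ → ℕ → ℕ)
    (h : ∀ β < L, ∑ n ∈ Finset.range L, aa k (J β n) ≤ (1 / 2) ^ (m + 1 + β)) :
    ∑ N ∈ Finset.range L, diam (BX k (v (tr N).1 (tr N).2.1) (J (tr N).1 (tr N).2.1) (tr N).2.2) ^
      ((1 : ℝ) / (k + 1)) ≤ (1 / 2) ^ m := by
  classical
  let w : ℕ × ℕ × ℕ → ℝ := fun x => diam (BX k (v x.1 x.2.1) (J x.1 x.2.1) x.2.2) ^
    ((1 : ℝ) / (k + 1))
  have hw : ∀ x, 0 ≤ w x := fun x => Real.rpow_nonneg (diam_nonneg _) _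
  have h1 : ∑ N ∈ Finset.range L, w (tr N) = ∑ x ∈ (Finset.range L).image tr, w x :=
    (Finset.sum_image fun a _ b _ hab => tr_inj hab).symm
  have h2 : ∑ x ∈ (Finset.range L).image tr, w x ≤
      ∑ x ∈ Finset.range L ×ˢ (Finset.range L ×ˢ Finset.range L), w x := by
    refine Finset.sum_le_sum_of_subset_of_nonneg ?_ fun x _ _ => hw x
    intro x hx
    obtain ⟨N, hN, rfl⟩ := Finset.mem_image.1 hx
    have := tr_lt (Finset.mem_range.1 hN)
    simp only [Finset.mem_product, Finset.mem_range]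
    exact this
  have h3 : ∑ x ∈ Finset.range L ×ˢ (Finset.range L ×ˢ Finset.range L), w x ≤ (1 / 2) ^ m := by
    rw [Finset.sum_product]
    refine le_trans (Finset.sum_le_sum fun β hβ => ?_) (geom_le m L)
    rw [Finset.sum_product]
    refine le_trans (Finset.sum_le_sum fun n _ => ?_) (h β (Finset.mem_range.1 hβ))
    exact sum_BX_le k (v β n) (J β n) L
  show ∑ N ∈ Finset.range L, w (tr N) ≤ _
  rw [h1]
  exact h2.trans h3

end Pool.Agent.H652G
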