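import Mathlib
import Pool.Agent.H652G.Num

/-!
# Products of small sets and sets of dimension zero
-/

namespace Pool.Agent.H652G

open Cardinal Pool.Agent.Helper669.Forcing Pool.Agent.H652R2.Defs Pool.Agent.H652G.Defs

set_option linter.unusedSectionVars false
set_option linter.unusedVariables false

section

variable {P : Type} [Preorder P]

/-- deciding finitely many values -/
theorem exists_vals {ι X : Type} [Nonempty X] (G : Finset ι) (R : ι → X → Set P) (p : P)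
    (h : ∀ i ∈ G, ∀ q ≤ p, ∃ r ≤ q, ∃ x, r ∈ meets (R i x)) :
    ∃ q ≤ p, ∃ x : ι → X, ∀ i ∈ G, q ∈ meets (R i (x i)) := by
  classical
  induction G using Finset.induction_on with
  | empty => exact ⟨p, le_rfl, fun _ => Classical.arbitrary X, by simp⟩
  | insert i G hi ih =>
    obtain ⟨q, hq, x, h1⟩ := ih fun j hj => h j (Finset.mem_insert_of_mem hj)
    obtain ⟨r, hr, a, ha⟩ := h i (Finset.mem_insert_self i G) q hq
    refine ⟨r, hr.trans hq, Function.update x i a, fun j hj => ?_⟩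
    rcases Finset.mem_insert.1 hj with rfl | hj
    · rw [Function.update_self]; exact ha
    · have hne : j ≠ i := fun h' => hi (h' ▸ hj)
      rw [Function.update_of_ne hne]
      exact down_meets _ _ (h1 j hj) _ hr

theorem sum_map_range (f : ℕ → ℝ) (L : ℕ) :
    ((List.range L).map f).sum = ∑ n ∈ Finset.range L, f n := by
  induction L with
  | zero => simp
  | succ L ih => rw [List.range_succ, List.map_append, List.sum_append, ih,
      Finset.sum_range_succ]; simp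

theorem sum_of_SumLe {X : Type} {sz : X → ℝ} {k : ℕ} {I : ℕ → X → Set P} {c : ℝ} {p : P}
    (h : p ∈ SumLe sz k I c) {L : ℕ} {J : ℕ → X} (hJ : ∀ n < L, p ∈ meets (I n (J n))) :
    ∑ n ∈ Finset.range L, sz (J n) ^ ((1 : ℝ) / (k + 1)) ≤ c := by
  have h1 := ground_of_fimp (h.2 ((List.range L).map J)) (by
    intro i J' hi
    rw [List.getElem?_map] at hi
    rcases lt_or_ge i L with hlt | hge
    · rw [List.getElem?_range hlt] at hi
      simp only [Option.map_some, Option.some.injEq] at hi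
      show p ∈ meets (I i J')
      rw [← hi]
      exact hJ i hlt
    · rw [List.getElem?_eq_none (by simpa using hge)] at hi
      simp at hi)
  rw [List.map_map] at h1
  rw [← sum_map_range]
  exact h1

/-- the boxes -/
def BN (k : ℕ) (I : ℕ → ℕ → ℚ × ℚ → Set P) (g : ℕ → ℕ → Set P) (m N : ℕ)
    (B : (ℚ × ℚ) × (ℚ × ℚ)) : Set P :=
  {p | ∃ J v, p ∈ meets (I (m + 1 + (tr N).1) (tr N).2.1 J) ∧ p ∈ meets (g (cl k J) v) ∧
    B = BX k v J (tr N).2.2}

variable {k : ℕ} {I : ℕ → ℕ → ℚ × ℚ → Set P} {g : ℕ → ℕ → Set P} {m N : ℕ}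

theorem eq_of_meets_BN {B : (ℚ × ℚ) × (ℚ × ℚ)} {p : P} {J : ℚ × ℚ} {v : ℕ}
    (hI : p ∈ IsFun (I (m + 1 + (tr N).1))) (hg : p ∈ IsFun g)
    (hJ : p ∈ meets (I (m + 1 + (tr N).1) (tr N).2.1 J)) (hv : p ∈ meets (g (cl k J) v))
    (h : p ∈ meets (BN k I g m N B)) : B = BX k v J (tr N).2.2 := by
  obtain ⟨r, hr, s, ⟨J', v', h1, h2, h3⟩, hrs⟩ := h p le_rfl
  have hJJ : J' = J := IsFun.unique (down_IsFun _ _ hI _ hr) (down_meets _ _ h1 _ hrs)
    (down_meets _ _ hJ _ hr)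
  subst hJJ
  have hvv : v' = v := IsFun.unique (down_IsFun _ _ hg _ hr) (down_meets _ _ h2 _ hrs)
    (down_meets _ _ hv _ hr)
  subst hvv
  exact h3

theorem sumLe_BN {p : P} {k : ℕ} {I : ℕ → ℕ → ℚ × ℚ → Set P} {g : ℕ → ℕ → Set P} {m : ℕ}
    (hI : ∀ b, p ∈ SumLe len (2 * k + 1) (I b) ((1 / 2) ^ b))
    (hg : p ∈ IsFun g) : p ∈ SumLe diam k (BN k I g m) ((1 / 2) ^ m) := by
  classical
  have hval : ∀ β n, ∀ q ≤ p, ∃ r ≤ q, ∃ x : (ℚ × ℚ) × ℕ, r ∈ meets (I (m + 1 + β) n x.1) ∧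
      r ∈ meets (g (cl k x.1) x.2) := by
    intro β n q hq
    obtain ⟨r1, hr1, J, h1⟩ := IsFun.total (down_IsFun _ _ (hI (m + 1 + β)).1 _ hq) n
    obtain ⟨r2, hr2, v, h2⟩ := IsFun.total (down_IsFun _ _ hg _ (hr1.trans hq)) (cl k J)
    exact ⟨r2, hr2.trans hr1, (J, v), down_meets _ _ h1 _ hr2, h2⟩
  refine ⟨⟨fun N => mem_fex.2 fun q hq => ?_, fun N B B' => fimp_of fun q hq hB => ?_⟩,
    fun l => fimp_of fun q hq hl => ?_⟩
  · obtain ⟨r, hr, x, h1, h2⟩ := hval (tr N).1 (tr N).2.1 q hq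
    exact ⟨r, hr, _, meets_of_mem ⟨x.1, x.2, h1, h2, rfl⟩⟩
  · obtain ⟨r, hr, x, h1, h2⟩ := hval (tr N).1 (tr N).2.1 q hq
    have hrp := hr.trans hq
    have e1 := eq_of_meets_BN (down_IsFun _ _ (hI _).1 _ hrp) (down_IsFun _ _ hg _ hrp) h1 h2
      (down_meets _ _ hB.1 _ hr)
    have e2 := eq_of_meets_BN (down_IsFun _ _ (hI _).1 _ hrp) (down_IsFun _ _ hg _ hrp) h1 h2
      (down_meets _ _ hB.2 _ hr)
    show B = B'
    rw [e1, e2]
  · obtain ⟨r, hr, x, hx⟩ := exists_vals (ι := ℕ × ℕ) (X := (ℚ × ℚ) × ℕ)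
      (Finset.range l.length ×ˢ Finset.range l.length)
      (fun i x => fand (meets (I (m + 1 + i.1) i.2 x.1)) (meets (g (cl k x.1) x.2))) q (by
        intro i _ q' hq'
        obtain ⟨r, hr, x, h1, h2⟩ := hval i.1 i.2 q' (hq'.trans hq)
        exact ⟨r, hr, x, meets_of_mem ⟨h1, h2⟩⟩)
    have hrp := hr.trans hq
    have hx' : ∀ β n, β < l.length → n < l.length →
        r ∈ meets (I (m + 1 + β) n (x (β, n)).1) ∧ r ∈ meets (g (cl k (x (β, n)).1) (x (β, n)).2) := by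
      intro β n hβ hn
      have h1 := hx (β, n) (by simp [hβ, hn])
      rw [meets_self (down_fand (down_meets _) (down_meets _))
        (rgl_fand (rgl_meets _) (rgl_meets _))] at h1
      exact h1
    have hl' : l = (List.range l.length).map fun N =>
        BX k (x ((tr N).1, (tr N).2.1)).2 (x ((tr N).1, (tr N).2.1)).1 (tr N).2.2 := by
      refine List.ext_getElem (by simp) fun N h1 h2 => ?_
      rw [List.getElem_map, List.getElem_range]
      obtain ⟨h3, h4, h5⟩ := tr_lt h1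
      obtain ⟨h6, h7⟩ := hx' _ _ h3 h4
      exact eq_of_meets_BN (down_IsFun _ _ (hI _).1 _ hrp) (down_IsFun _ _ hg _ hrp) h6 h7
        (down_meets _ _ (hl N l[N] (List.getElem?_eq_getElem h1)) _ hr)
    show (l.map fun J => diam J ^ ((1 : ℝ) / (k + 1))).sum ≤ _
    rw [hl', List.map_map, sum_map_range]
    refine total_le k m l.length (fun β n => (x (β, n)).1) (fun β n => (x (β, n)).2)
      fun β hβ => ?_
    have h1 := hI (m + 1 + β)
    exact sum_of_SumLe (p := r) (sz := len) (k := 2 * k + 1) (I := I (m + 1 + β))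
      ⟨down_IsFun _ _ h1.1 _ hrp, down_fall (fun _ => down_fimp _ _) _ h1.2 _ hrp⟩
      fun n hn => (hx' β n hβ hn).1

theorem down_SumLe {X : Type} (sz : X → ℝ) (k : ℕ) (I : ℕ → X → Set P) (c : ℝ) :
    Down (SumLe sz k I c) := down_fand (down_IsFun _) (down_fall fun _ => down_fimp _ _)

/-- small intervals around finitely many reals -/
theorem exists_ivs_small {Y : Type} {x : Y → ℕ → ℚ → Set P} {q : P} {δ : ℝ} (hδ : 0 < δ)
    (h : ∀ y, q ∈ IsReal (x y)) (F : Finset Y) :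
    ∃ r ≤ q, ∃ l : List (ℚ × ℚ), l.length = F.card ∧ (∀ K ∈ l, len K ≤ δ) ∧
      ∀ y ∈ F, ∃ K ∈ l, r ∈ InIoo (x y) K.1 K.2 := by
  classical
  obtain ⟨N, hN⟩ := exists_pow_lt_of_lt_one (show 0 < δ / 4 by positivity)
    (show (1 / 2 : ℝ) < 1 by norm_num)
  induction F using Finset.induction_on with
  | empty => exact ⟨q, le_rfl, [], by simp, by simp, by simp⟩
  | insert y F hy ih =>
    obtain ⟨r, hr, l, h1, h2, h3⟩ := ih
    obtain ⟨s, hs, a, ha, h4⟩ := exists_small (down_IsReal _ _ (h y) _ hr) N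
    refine ⟨s, hs.trans hr, (a - 2 * (1 / 2) ^ N, a + 2 * (1 / 2) ^ N) :: l, ?_, ?_, ?_⟩
    · rw [List.length_cons, h1, Finset.card_insert_of_notMem hy]
    · intro K hK
      rcases List.mem_cons.1 hK with rfl | hK
      · unfold len
        push_cast
        refine max_le ?_ hδ.le
        linarith
      · exact h2 K hK
    · intro y' hy'
      have hp : (0 : ℚ) < (1 / 2) ^ N := by positivity
      rcases Finset.mem_insert.1 hy' with rfl | hy'
      · exact ⟨_, List.mem_cons_self, h4 _ _ (by linarith) (by linarith)⟩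
      · obtain ⟨K, hK, h5⟩ := h3 y' hy'
        exact ⟨K, List.mem_cons_of_mem _ hK, down_InIoo _ _ _ _ h5 _ hs⟩

theorem lt_of_InIoo {x : ℕ → ℚ → Set P} {c d : ℚ} {p : P} (h : p ∈ InIoo x c d) : c < d := by
  obtain ⟨_, _, n, a, h1, h2, _⟩ := exists_of_InIoo h
  have hp : (0 : ℚ) < (1 / 2) ^ n := by positivity
  linarith

end

theorem prod_zero {Y Z : Type} {E : Y → ℕ → ℚ → Set PP} {F : Z → ℕ → ℚ → Set PP} {p : PP}
    (hE : ∀ y, p ∈ IsReal (E y)) (hs : p ∈ IsSmall E) (h0 : p ∈ IsDimZero F) :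
    p ∈ IsDimZeroProd E F := by
  classical
  intro k
  refine mem_fex.2 fun p1 hp1 => ?_
  obtain ⟨q1, hq1, x, hx1, hx2⟩ := mem_fex.1 hs p1 hp1
  obtain ⟨q, hq, I, hI⟩ := mem_fex.1 (h0 (2 * k + 1)) q1 (hq1.trans hp1)
  have hqp : q ≤ p := hq.trans (hq1.trans hp1)
  have hxr : ∀ i, q ∈ IsReal (x i) := fun i => down_IsReal _ _ (hx1 i) _ hq
  obtain ⟨b, hloc, _⟩ := exists_stage (ι := (W1 × ℕ × ℚ) ⊕ Unit) (ι' := Unit)
    (by
      have h1 : #(W1 × ℕ × ℚ) ≤ ℵ_ 2 := by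
        simp only [mk_prod, lift_id, mk_W1]
        exact (mul_le_mul' one_le_two ((mk_le_aleph0 (α := ℕ × ℚ)).trans
          (aleph0_le_aleph 2))).trans (mul_eq_self (aleph0_le_aleph 2)).le
      have h2 : #Unit ≤ ℵ_ 2 := mk_le_aleph0.trans (aleph0_le_aleph 2)
      rw [mk_sum, lift_id, lift_id]
      exact (add_le_add h1 h2).trans (add_eq_self (aleph0_le_aleph 2)).le)
    (mk_le_aleph0.trans (aleph0_le_aleph 2))
    (Sum.elim (fun z => x z.1 z.2.1 z.2.2) (fun _ => {q})) (fun _ => q)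
  have hX : ∀ i n a, LocP (cb b) (meets (x i n a)) := fun i n a => hloc (Sum.inl (i, n, a))
  have hQ : LocP (cb b) (meets ({q} : Set PP)) := hloc (Sum.inr ())
  let Φ : W1 → ℕ → ℕ → Set PP := fun i n v =>
    fimp (meets {q}) (fand (fground (Vld k n v)) (InOpen (x i) (bo v)))
  have hdI : ∀ i n v, Down (fand (fground (Vld k n v)) (InOpen (x i) (bo v))) := fun i n v =>
    down_fand (down_fground _) (down_InOpen _ _)
  obtain ⟨t, ht⟩ := exists_generic b Φ (fun i n v => down_fimp _ _)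
    (fun i n v => rgl_fimp (down_meets _))
    (fun i n v => LocP.fimp hQ (LocP.fand (fun p hp => hp) (LocP_InOpen_bo (hX i) v))
      (down_meets _) (hdI i n v)) (by
      intro n G hG r
      by_cases hc : Compat r q
      · obtain ⟨r1, hr1, hr1q⟩ := hc
        obtain ⟨r2, hr2, l, h1, h2, h3⟩ := exists_ivs_small (x := x) (dd_pos k n)
          (fun i => down_IsReal _ _ (hxr i) _ hr1q) G
        refine ⟨r2, hr2.trans hr1, Encodable.encode l, fun i hi => fimp_of fun s hs _ => ⟨?_, ?_⟩⟩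
        · show Vld k n _
          unfold Vld
          rw [dl_encode]
          exact ⟨h1.trans_le hG, h2⟩
        · obtain ⟨K, hK, h5⟩ := h3 i hi
          exact InOpen_bo_of (by rw [dl_encode]; exact hK) (down_InIoo _ _ _ _ h5 _ hs)
      · refine ⟨r, le_rfl, 0, fun i _ => fimp_of fun s hs hm => ?_⟩
        exfalso
        obtain ⟨s', hs', hs'q⟩ := mem_meets_singleton.1 hm s le_rfl
        exact hc ⟨s', hs'.trans hs, hs'q⟩)
  have hg : ∀ r, r ∈ IsFun (gn (ct b t)) := fun r => isFun_gn (ct_lt_top b t) r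
  refine ⟨q, hq.trans hq1, BN k I (gn (ct b t)), fun m => ⟨?_, fun y z => ?_⟩⟩
  · exact sumLe_BN (fun b => (hI b).1) (hg q)
  · refine mem_fex.2 fun r hr => ?_
    obtain ⟨r1, hr1, i, h1⟩ := mem_fex.1 (hx2 y) r (hr.trans hq)
    obtain ⟨r2, hr2, k0, h2⟩ := ht i r1
    have hr2q : r2 ≤ q := hr2.trans (hr1.trans hr)
    obtain ⟨r3, hr3, n, h3⟩ := mem_fex.1 ((hI (m + 1 + k0)).2 z) r2 hr2q
    obtain ⟨r4, hr4, J, h4, h5⟩ := mem_fex.1 h3 r3 le_rfl
    have hr4q : r4 ≤ q := hr4.trans (hr3.trans hr2q)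
    -- the length of `J`
    have hJ : J.1 < J.2 := lt_of_InIoo h5
    have hlen : 0 < len J := by
      have : (J.1 : ℝ) < J.2 := by exact_mod_cast hJ
      exact lt_max_of_lt_left (by linarith)
    have haa : 0 < aa k J := Real.rpow_pos_of_pos hlen _
    have haa2 : aa k J ≤ (1 / 2) ^ (m + 1 + k0) := by
      obtain ⟨r5, hr5, xs, hxs⟩ := exists_vals (Finset.range (n + 1))
        (fun j J => I (m + 1 + k0) j J) r4 (by
          intro j _ q' hq'
          exact IsFun.total (down_IsFun _ _ (hI (m + 1 + k0)).1.1 _ (hq'.trans hr4q)) j)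
      have h6 := sum_of_SumLe (down_SumLe _ _ _ _ _ (hI (m + 1 + k0)).1 _ (hr5.trans hr4q))
        (L := n + 1) (J := xs) fun j hj => hxs j (Finset.mem_range.2 hj)
      have h7 : xs n = J := IsFun.unique
        (down_IsFun _ _ (hI (m + 1 + k0)).1.1 _ (hr5.trans hr4q))
        (hxs n (Finset.mem_range.2 (Nat.lt_succ_self n))) (down_meets _ _ h4 _ hr5)
      refine le_trans ?_ h6
      rw [← h7]
      exact Finset.single_le_sum (f := fun n => len (xs n) ^ ((1 : ℝ) / ((2 * k + 1 : ℕ) + 1)))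
        (fun j _ => Real.rpow_nonneg (len_nonneg _) _) (Finset.mem_range.2 (Nat.lt_succ_self n))
    have hcl : k0 ≤ cl k J := (show k0 ≤ m + 1 + k0 by omega).trans (le_cl haa haa2)
    obtain ⟨r5, hr5, v, hv⟩ := exists_gn (ct_lt_top b t) r4 (cl k J)
    have hr5q : r5 ≤ q := hr5.trans hr4q
    have hΦ := h2 (cl k J) hcl v r5 (hr5.trans (hr4.trans hr3)) (meets_of_mem hv)
    have h6 := mem_of_fimp hΦ (down_meets _) (rgl_fand (rgl_fground _) (rgl_InOpen _ _))
      (mem_meets_singleton.2 fun r' hr' => ⟨r', le_rfl, hr'.trans hr5q⟩)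
    obtain ⟨r6, hr6, K, hK, h7⟩ := exists_of_InOpen_bo h6.2
    obtain ⟨c, hc, hcK⟩ := List.getElem_of_mem hK
    have hr6r1 : r6 ≤ r1 := hr6.trans (hr5.trans (hr4.trans (hr3.trans hr2)))
    have hr6q : r6 ≤ q := hr6.trans hr5q
    have hEy : r6 ∈ InIoo (E y) K.1 K.2 := InIoo_of_SameR (down_IsReal _ _ (hxr i) _ hr6q)
      (down_IsReal _ _ (hE y) _ (hr6q.trans hqp)) (SameR_symm (down_SameR _ _ _ h1 _ hr6r1)) h7
    have hBX : BX k v J c = (K, J) := by
      have hV : Vld k (cl k J) v := h6.1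
      rw [BX, if_pos ⟨haa, hV⟩, List.getElem?_eq_getElem hc, hcK]
      rfl
    refine ⟨r6, hr6r1.trans hr1, Nat.pair k0 (Nat.pair n c), ?_⟩
    refine mem_fex_of_mem (K, J) (down_fand (down_meets _) (down_fand (down_InIoo _ _ _)
      (down_InIoo _ _ _))) ⟨?_, hEy, down_InIoo _ _ _ _ h5 _ (hr6.trans hr5)⟩
    refine meets_of_mem ⟨J, v, ?_, meets_of_mem (down_gn _ _ _ _ hv _ hr6), ?_⟩
    · rw [tr_surj]
      exact down_meets _ _ h4 _ (hr6.trans hr5)
    · rw [tr_surj, hBX]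

theorem statementII (p : PP) : p ∈ StatementII PP := by
  intro Y E
  refine fimp_of fun q _ hq Z F => fimp_of fun r hr hF => ?_
  have hE : ∀ y, r ∈ IsReal (E y) := fun y => down_IsReal _ _ (hq.1 y) _ hr
  have hsm : r ∈ IsSmall E := down_fex _ _ (gamma_small hq.1 hq.2) _ hr
  exact prod_zero hE hsm hF.2

end Pool.Agent.H652G
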